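import Mathlib

/-! Rank functions on a finite set of occurrences, closure, deficiency, Rado's theorem. -/

namespace Pool.Agent.P.MP_5f88fa_co

open Finset

variable {P ι : Type} [Fintype P] [DecidableEq P] [Fintype ι] [DecidableEq ι]

/-- The axioms of a matroid rank function. -/
structure RankFn (r : Finset P → ℕ) : Prop where
  mono : ∀ A B, A ⊆ B → r A ≤ r B
  submod : ∀ A B, r (A ∪ B) + r (A ∩ B) ≤ r A + r B
  le_card : ∀ A, r A ≤ A.card

/-- The elements of `W` in the rows of `I`. -/
def rs (row : P → ι) (W : Finset P) (I : Finset ι) : Finset P := W.filter fun e => row e ∈ I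

/-- Closure. -/
def cl (r : Finset P → ℕ) (A : Finset P) : Finset P := univ.filter fun e => r (insert e A) ≤ r A

/-- Deficiency of a set of rows. -/
def df (r : Finset P → ℕ) (row : P → ι) (W : Finset P) (I : Finset ι) : ℤ :=
  (I.card : ℤ) - r (rs row W I)

/-- The cut of a set of rows. -/
def cut (r : Finset P → ℕ) (row : P → ι) (W : Finset P) (I : Finset ι) : Finset P :=
  rs row univ I \ cl r (rs row W I)

/-- The largest deficiency. -/
def DD (r : Finset P → ℕ) (row : P → ι) (W : Finset P) : ℤ :=
  (univ : Finset (Finset ι)).sup' ⟨∅, mem_univ _⟩ (df r row W)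

variable {r : Finset P → ℕ} {row : P → ι}

omit [Fintype P] [Fintype ι] [DecidableEq P] in
theorem mem_rs {W : Finset P} {I : Finset ι} {e : P} : e ∈ rs row W I ↔ e ∈ W ∧ row e ∈ I := by
  simp [rs]

theorem mem_cl {A : Finset P} {e : P} : e ∈ cl r A ↔ r (insert e A) ≤ r A := by simp [cl]

omit [Fintype P] [Fintype ι] [DecidableEq P] in
theorem rs_mono {W W' : Finset P} {I I' : Finset ι} (h : W ⊆ W') (h' : I ⊆ I') :
    rs row W I ⊆ rs row W' I' := fun _ he =>
  mem_rs.2 ⟨h (mem_rs.1 he).1, h' (mem_rs.1 he).2⟩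

omit [Fintype P] in
theorem RankFn.empty (hr : RankFn r) : r ∅ = 0 := by simpa using hr.le_card ∅

omit [Fintype P] in
theorem RankFn.insert_le (hr : RankFn r) (e : P) (A : Finset P) : r (insert e A) ≤ r A + 1 := by
  have h1 := hr.submod A {e}
  have h2 := hr.le_card {e}
  have h3 : A ∪ {e} = insert e A := by ext x; simp
  rw [h3] at h1
  simp at h2
  omega

theorem RankFn.subset_cl (_hr : RankFn r) (A : Finset P) : A ⊆ cl r A := fun e he =>
  mem_cl.2 (by rw [insert_eq_of_mem he])

theorem RankFn.cl_mono (hr : RankFn r) {A B : Finset P} (h : A ⊆ B) : cl r A ⊆ cl r B := by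
  intro e he
  rw [mem_cl] at he ⊢
  have h1 := hr.submod B (insert e A)
  have h2 : B ∪ insert e A = insert e B := by
    ext x; simp only [mem_union, mem_insert]
    constructor
    · rintro (h | h | h')
      · exact Or.inr h
      · exact Or.inl h
      · exact Or.inr (‹A ⊆ B› h')
    · rintro (h | h)
      · exact Or.inr (Or.inl h)
      · exact Or.inl h
  have h3 := hr.mono A (B ∩ insert e A) (subset_inter h (subset_insert _ _))
  rw [h2] at h1
  omega

theorem RankFn.union_le (hr : RankFn r) {A : Finset P} (B : Finset P) (h : B ⊆ cl r A) :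
    r (A ∪ B) ≤ r A := by
  induction B using Finset.induction_on with
  | empty => simp
  | insert e B _ ih =>
    have h1 := ih ((subset_insert _ _).trans h)
    have h2 : e ∈ cl r (A ∪ B) := hr.cl_mono subset_union_left (h (mem_insert_self _ _))
    rw [mem_cl] at h2
    rw [union_insert]
    omega

theorem RankFn.le_of_subset_cl (hr : RankFn r) {A B : Finset P} (h : B ⊆ cl r A) : r B ≤ r A :=
  (hr.mono _ _ subset_union_right).trans (hr.union_le B h)

theorem RankFn.cl_subset_cl (hr : RankFn r) {A B : Finset P} (h : B ⊆ cl r A) :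
    cl r B ⊆ cl r A := by
  intro e he
  have h1 : e ∈ cl r (A ∪ B) := hr.cl_mono subset_union_right he
  rw [mem_cl] at h1 ⊢
  have h2 := hr.union_le B h
  have h3 := hr.mono (insert e A) (insert e (A ∪ B)) (insert_subset_insert _ subset_union_left)
  omega

omit [Fintype ι] in
theorem card_rs_univ {k : ℕ} (hrow : ∀ i, (univ.filter fun e => row e = i).card = k)
    (I : Finset ι) : (rs row univ I).card = k * I.card := by
  have h := card_eq_sum_card_fiberwise (s := rs row univ I) (t := I) (f := row)
    (fun e he => (mem_rs.1 (by simpa using he)).2)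
  rw [h, sum_congr rfl (g := fun _ => k), sum_const, smul_eq_mul, mul_comm]
  intro i hi
  rw [← hrow i]
  congr 1
  ext e
  simp only [mem_filter, mem_rs, mem_univ, true_and]
  constructor
  · exact fun h => h.2
  · rintro rfl; exact ⟨hi, rfl⟩

omit [Fintype ι] in
theorem RankFn.cut_card (hr : RankFn r) {k : ℕ}
    (hrow : ∀ i, (univ.filter fun e => row e = i).card = k) (hcov : ∀ X, X.card ≤ k * r X)
    (W : Finset P) (I : Finset ι) : (k : ℤ) * df r row W I ≤ (cut r row W I).card := by
  have h1 := card_rs_univ hrow I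
  have h2 := hcov (cl r (rs row W I))
  have h3 : r (cl r (rs row W I)) ≤ r (rs row W I) := hr.le_of_subset_cl subset_rfl
  have h4 := le_card_sdiff (cl r (rs row W I)) (rs row univ I)
  have h5 : k * r (cl r (rs row W I)) ≤ k * r (rs row W I) := Nat.mul_le_mul_left _ h3
  unfold df cut
  have h6 : k * I.card ≤ (rs row univ I \ cl r (rs row W I)).card + k * r (rs row W I) := by
    omega
  have h7 : ((k * I.card : ℕ) : ℤ) ≤
      (((rs row univ I \ cl r (rs row W I)).card + k * r (rs row W I) : ℕ) : ℤ) := by
    exact_mod_cast h6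
  push_cast at h7
  linarith

omit [Fintype P] [Fintype ι] in
theorem RankFn.df_supermod (hr : RankFn r) (W : Finset P) (I J : Finset ι) :
    df r row W I + df r row W J ≤ df r row W (I ∪ J) + df r row W (I ∩ J) := by
  have h1 := hr.submod (rs row W I) (rs row W J)
  have h2 : rs row W I ∪ rs row W J = rs row W (I ∪ J) := by
    ext e; simp only [mem_union, mem_rs]; tauto
  have h3 : rs row W I ∩ rs row W J = rs row W (I ∩ J) := by
    ext e; simp only [mem_inter, mem_rs]; tauto
  rw [h2, h3] at h1
  have h4 := card_union_add_card_inter I J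
  unfold df
  omega

omit [Fintype P] [DecidableEq P] in
theorem df_le_DD (W : Finset P) (I : Finset ι) : df r row W I ≤ DD r row W :=
  le_sup' (df r row W) (mem_univ I)

omit [Fintype P] [DecidableEq P] in
theorem exists_df_eq_DD (W : Finset P) : ∃ I, df r row W I = DD r row W := by
  obtain ⟨I, -, h⟩ := exists_mem_eq_sup' (s := (univ : Finset (Finset ι))) ⟨∅, mem_univ _⟩
    (df r row W)
  exact ⟨I, h.symm⟩

omit [Fintype P] [Fintype ι] in
theorem RankFn.df_anti (hr : RankFn r) {W W' : Finset P} (h : W ⊆ W') (I : Finset ι) :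
    df r row W' I ≤ df r row W I := by
  have := hr.mono _ _ (rs_mono (row := row) (I := I) h subset_rfl)
  unfold df
  omega

omit [Fintype P] in
theorem RankFn.DD_anti (hr : RankFn r) {W W' : Finset P} (h : W ⊆ W') :
    DD r row W' ≤ DD r row W := by
  obtain ⟨I, hI⟩ := exists_df_eq_DD (r := r) (row := row) W'
  rw [← hI]
  exact (hr.df_anti h I).trans (df_le_DD W I)

omit [Fintype P] [DecidableEq P] in
theorem DD_le_card (W : Finset P) : DD r row W ≤ Fintype.card ι := by
  obtain ⟨I, hI⟩ := exists_df_eq_DD (r := r) (row := row) W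
  rw [← hI]
  have := card_le_univ I
  unfold df
  omega

omit [Fintype P] in
theorem RankFn.max_union (hr : RankFn r) {W : Finset P} {I J : Finset ι}
    (hI : df r row W I = DD r row W) (hJ : df r row W J = DD r row W) :
    df r row W (I ∪ J) = DD r row W := by
  have h1 := hr.df_supermod (row := row) W I J
  have h2 := df_le_DD (r := r) (row := row) W (I ∪ J)
  have h3 := df_le_DD (r := r) (row := row) W (I ∩ J)
  omega

omit [Fintype P] in
theorem RankFn.max_inter (hr : RankFn r) {W : Finset P} {I J : Finset ι}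
    (hI : df r row W I = DD r row W) (hJ : df r row W J = DD r row W) :
    df r row W (I ∩ J) = DD r row W := by
  have h1 := hr.df_supermod (row := row) W I J
  have h2 := df_le_DD (r := r) (row := row) W (I ∪ J)
  have h3 := df_le_DD (r := r) (row := row) W (I ∩ J)
  omega

omit [Fintype P] in
/-- There is a least set of rows of largest deficiency. -/
theorem RankFn.exists_least (hr : RankFn r) (W : Finset P) :
    ∃ I, df r row W I = DD r row W ∧ ∀ J, df r row W J = DD r row W → I ⊆ J := by
  obtain ⟨I0, hI0⟩ := exists_df_eq_DD (r := r) (row := row) W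
  obtain ⟨I, hI, hmin⟩ := exists_min_image
    (univ.filter fun I : Finset ι => df r row W I = DD r row W) card ⟨I0, by simpa using hI0⟩
  have hI' : df r row W I = DD r row W := by simpa using hI
  refine ⟨I, hI', fun J hJ => ?_⟩
  have h1 := hmin (I ∩ J) (by simpa using hr.max_inter hI' hJ)
  have h2 : I ∩ J = I := eq_of_subset_of_card_le inter_subset_left h1
  rw [← h2]
  exact inter_subset_right

omit [Fintype P] in
/-- Rado's theorem. -/
theorem RankFn.rado (hr : RankFn r) (W : Finset P) (h : DD r row W ≤ 0) :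
    ∃ s : ι → P, (∀ i, row (s i) = i ∧ s i ∈ W) ∧ Fintype.card ι ≤ r (univ.image s) := by
  induction W using Finset.strongInduction with
  | H W ih =>
  by_cases hex : ∃ e ∈ W, DD r row (W.erase e) ≤ 0
  · obtain ⟨e, he, hD⟩ := hex
    obtain ⟨s, hs, hs'⟩ := ih _ (erase_ssubset he) hD
    exact ⟨s, fun i => ⟨(hs i).1, mem_of_mem_erase (hs i).2⟩, hs'⟩
  push Not at hex
  have hW : ∀ I : Finset ι, I.card ≤ r (rs row W I) := fun I => by
    have := df_le_DD (r := r) (row := row) W I
    unfold df at this
    omega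
  have hbad : ∀ e ∈ W, ∃ I : Finset ι, row e ∈ I ∧ r (rs row (W.erase e) I) < I.card := by
    intro e he
    obtain ⟨I, hI⟩ := exists_df_eq_DD (r := r) (row := row) (W.erase e)
    have h1 := hex e he
    have h2 : r (rs row (W.erase e) I) < I.card := by unfold df at hI; omega
    refine ⟨I, ?_, h2⟩
    by_contra hn
    have h3 : rs row (W.erase e) I = rs row W I := by
      ext x
      simp only [mem_rs, mem_erase]
      constructor
      · exact fun h => ⟨h.1.2, h.2⟩
      · exact fun h => ⟨⟨fun hx => hn (hx ▸ h.2), h.1⟩, h.2⟩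
    have := hW I
    rw [h3] at h2
    omega
  have huniq : ∀ e ∈ W, ∀ e' ∈ W, row e = row e' → e = e' := by
    intro e he e' he' hrow
    by_contra hne
    obtain ⟨I, hI, h1⟩ := hbad e he
    obtain ⟨J, hJ, h2⟩ := hbad e' he'
    have h3 := hr.submod (rs row (W.erase e) I) (rs row (W.erase e') J)
    have h4 : rs row W (I ∪ J) ⊆ rs row (W.erase e) I ∪ rs row (W.erase e') J := by
      intro x hx
      simp only [mem_rs, mem_union, mem_erase] at hx ⊢
      by_cases hxe : x = e
      · subst hxe
        exact Or.inr ⟨⟨hne, hx.1⟩, hrow ▸ hJ⟩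
      by_cases hxe' : x = e'
      · subst hxe'
        exact Or.inl ⟨⟨hxe, hx.1⟩, hrow ▸ hI⟩
      rcases hx.2 with h | h
      · exact Or.inl ⟨⟨hxe, hx.1⟩, h⟩
      · exact Or.inr ⟨⟨hxe', hx.1⟩, h⟩
    have h5 : rs row W ((I ∩ J).erase (row e)) ⊆
        rs row (W.erase e) I ∩ rs row (W.erase e') J := by
      intro x hx
      simp only [mem_rs, mem_inter, mem_erase] at hx ⊢
      refine ⟨⟨⟨?_, hx.1⟩, hx.2.2.1⟩, ⟨?_, hx.1⟩, hx.2.2.2⟩
      · rintro rfl; exact hx.2.1 rfl
      · rintro rfl; exact hx.2.1 hrow.symm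
    have h6 := hr.mono _ _ h4
    have h7 := hr.mono _ _ h5
    have h8 := hW (I ∪ J)
    have h9 := hW ((I ∩ J).erase (row e))
    have h10 := card_erase_add_one (s := I ∩ J) (a := row e) (mem_inter.2 ⟨hI, hrow ▸ hJ⟩)
    have h11 := card_union_add_card_inter I J
    omega
  have hne : ∀ i, ∃ e, row e = i ∧ e ∈ W := by
    intro i
    by_contra hn
    push Not at hn
    have h1 : rs row W {i} = ∅ := by
      ext x
      simp only [mem_rs, mem_singleton, notMem_empty, iff_false, not_and]
      exact fun hx hi => hn x hi hx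
    have h2 := hW {i}
    rw [h1, hr.empty] at h2
    simp at h2
  choose s hs using hne
  refine ⟨s, hs, ?_⟩
  have h1 := hW univ
  have h2 : rs row W univ ⊆ univ.image s := by
    intro x hx
    refine mem_image.2 ⟨row x, mem_univ _, ?_⟩
    exact huniq _ (hs _).2 _ (mem_rs.1 hx).1 (hs _).1
  exact (by simpa using h1 : Fintype.card ι ≤ _).trans (hr.mono _ _ h2)

end Pool.Agent.P.MP_5f88fa_co
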