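import Mathlib
import Pool.Agent.P.MP_5f88fa_co.Rank

/-! Completing a part to a set containing a system of representatives, with few new elements. -/

namespace Pool.Agent.P.MP_5f88fa_co

open Finset

set_option linter.unusedSectionVars false

variable {P ι : Type} [Fintype P] [DecidableEq P] [Fintype ι] [DecidableEq ι]
variable {r : Finset P → ℕ} {row : P → ι}

/-- If few elements of `A` never lower the deficiency, there is a long chain of sets of rows of
largest deficiency, each closed under the elements of `A` in the previous one. -/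
theorem RankFn.chain (hr : RankFn r) (W A : Finset P) (t : ℕ)
    (h : ∀ Q ⊆ A, Q.card ≤ t → DD r row (W ∪ Q) = DD r row W) :
    ∃ I : ℕ → Finset ι, Monotone I ∧ (∀ j ≤ t, df r row W (I j) = DD r row W) ∧
      ∀ j < t, rs row A (I j) ⊆ cl r (rs row W (I (j + 1))) := by
  classical
  choose μ hμ hμ' using fun Q : Finset P => hr.exists_least (row := row) (W ∪ Q)
  have key : ∀ Q ⊆ A, Q.card ≤ t → df r row W (μ Q) = DD r row W := by
    intro Q hQ hc
    have h1 := hμ Q
    have h2 := hr.df_anti (row := row) (subset_union_left (s₁ := W) (s₂ := Q)) (μ Q)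
    have h3 := df_le_DD (r := r) (row := row) W (μ Q)
    have h4 := h Q hQ hc
    omega
  let I : ℕ → Finset ι := fun j => univ.filter fun i => ∃ Q ⊆ A, Q.card ≤ j ∧ i ∈ μ Q
  have hI : ∀ j i, i ∈ I j ↔ ∃ Q ⊆ A, Q.card ≤ j ∧ i ∈ μ Q := fun j i => by simp [I]
  have hsub : ∀ j, ∀ Q ⊆ A, Q.card ≤ j → μ Q ⊆ I j := fun j Q hQ hc i hi =>
    (hI j i).2 ⟨Q, hQ, hc, hi⟩
  refine ⟨I, fun a b hab i hi => ?_, fun j hj => ?_, fun j hj e he => ?_⟩
  · obtain ⟨Q, hQ, hc, hi⟩ := (hI a i).1 hi
    exact (hI b i).2 ⟨Q, hQ, hc.trans hab, hi⟩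
  · obtain ⟨J, hJ, hmax⟩ := exists_max_image
      (univ.filter fun J : Finset ι => df r row W J = DD r row W ∧ J ⊆ I j) card
      ⟨μ ∅, by
        simp only [mem_filter, mem_univ, true_and]
        exact ⟨key ∅ (empty_subset _) (by simp), hsub j ∅ (empty_subset _) (by simp)⟩⟩
    simp only [mem_filter, mem_univ, true_and] at hJ hmax
    have : J = I j := by
      refine Subset.antisymm hJ.2 fun i hi => ?_
      obtain ⟨Q, hQ, hc, hi⟩ := (hI j i).1 hi
      have h1 := hmax (J ∪ μ Q) ⟨hr.max_union hJ.1 (key Q hQ (hc.trans hj)),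
        union_subset hJ.2 (hsub j Q hQ hc)⟩
      have h2 : J = J ∪ μ Q := eq_of_subset_of_card_le subset_union_left h1
      rw [h2]
      exact mem_union_right _ hi
    rw [← this]
    exact hJ.1
  · obtain ⟨heA, hei⟩ := mem_rs.1 he
    obtain ⟨Q, hQ, hc, hi⟩ := (hI j _).1 hei
    have hQ' : insert e Q ⊆ A := insert_subset heA hQ
    have hc' : (insert e Q).card ≤ j + 1 := (card_insert_le _ _).trans (by omega)
    have h1 := hμ (insert e Q)
    have h2 := h _ hQ' (hc'.trans hj)
    have h3 := h Q hQ (hc.trans hj.le)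
    have h4 := hr.df_anti (row := row)
      (union_subset_union_right (s := W) (subset_insert e Q)) (μ (insert e Q))
    have h5 := df_le_DD (r := r) (row := row) (W ∪ Q) (μ (insert e Q))
    have h6 : μ Q ⊆ μ (insert e Q) := hμ' Q _ (by omega)
    have h7 := key _ hQ' (hc'.trans hj)
    have h8 : e ∈ cl r (rs row W (μ (insert e Q))) := by
      rw [mem_cl]
      have h9 : insert e (rs row W (μ (insert e Q))) ⊆
          rs row (W ∪ insert e Q) (μ (insert e Q)) :=
        insert_subset (mem_rs.2 ⟨mem_union_right _ (mem_insert_self _ _), h6 hi⟩)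
          (rs_mono subset_union_left subset_rfl)
      have h10 := hr.mono _ _ h9
      unfold df at h1 h7
      omega
    exact hr.cl_mono (rs_mono subset_rfl (hsub _ _ hQ' hc')) h8

/-- The elements missed by `W` along the levels `lv`. -/
def miss (r : Finset P → ℕ) (row : P → ι) (T : ℕ) (lv : ι → ℕ) (W : Finset P) : Finset P :=
  univ.filter fun e => lv (row e) ≤ T ∧
    e ∉ cl r (rs row W (univ.filter fun i => lv i ≤ lv (row e)))

/-- No long chains. -/
def NC (r : Finset P → ℕ) (row : P → ι) (T N : ℕ) (W : Finset P) : Prop :=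
  ∀ lv : ι → ℕ, (∀ i, lv i ≤ T + 1) →
    r (rs row W (univ.filter fun i => lv i ≤ T)) ≤ Fintype.card ι →
      (miss r row T lv W).card < N

/-- The reservoir holds at least half of every cut. -/
def Res (r : Finset P → ℕ) (row : P → ι) (R : Finset P) : Prop :=
  ∀ W I, 1 ≤ df r row W I → (cut r row W I).card ≤ 2 * (cut r row W I ∩ R).card

theorem RankFn.augment (hr : RankFn r) {k N u : ℕ} (hk : Fintype.card ι = k)
    (hrow : ∀ i, (univ.filter fun e => row e = i).card = k) (hcov : ∀ X, X.card ≤ k * r X)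
    {W0 W R Z : Finset P} (hW : W0 ⊆ W) (hNC : NC r row u N W0) (hR : Res r row R)
    (hZ : 4 * Z.card ≤ k) (hN : 4 * N ≤ k * u) {D : ℕ} (hD : DD r row W = D) (hD1 : 1 ≤ D) :
    ∃ Q ⊆ R \ Z, Q.card ≤ u / D ∧ DD r row (W ∪ Q) < D := by
  classical
  by_contra hcon
  push Not at hcon
  obtain ⟨I, hmono, hmax, hcl⟩ := hr.chain (row := row) W (R \ Z) (u / D) fun Q hQ hc => by
    have h1 := hcon Q hQ hc
    have h2 := hr.DD_anti (row := row) (subset_union_left (s₁ := W) (s₂ := Q))
    omega
  set t := u / D with ht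
  have htu : t ≤ u := Nat.div_le_self _ _
  let lv : ι → ℕ := fun i => if h : i ∈ I t then Nat.find (⟨t, h⟩ : ∃ j, i ∈ I j) else u + 1
  have hlv1 : ∀ i, i ∈ I t → lv i ≤ t ∧ i ∈ I (lv i) ∧ ∀ j, i ∈ I j → lv i ≤ j := by
    intro i hi
    simp only [lv, dif_pos hi]
    exact ⟨Nat.find_min' _ hi, Nat.find_spec (⟨t, hi⟩ : ∃ j, i ∈ I j),
      fun j hj => Nat.find_min' _ hj⟩
  have hlv2 : ∀ i, i ∉ I t → lv i = u + 1 := fun i hi => by simp only [lv, dif_neg hi]
  have hlv3 : ∀ j ≤ u, (univ.filter fun i => lv i ≤ j) ⊆ I t ∧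
      (univ.filter fun i => lv i ≤ j) ⊆ I j := by
    intro j hj
    have : ∀ i, lv i ≤ j → i ∈ I t := by
      intro i hi
      by_contra hn
      have := hlv2 i hn
      omega
    exact ⟨fun i hi => this i (by simpa using hi), fun i hi =>
      hmono (by simpa using hi) (hlv1 i (this i (by simpa using hi))).2.1⟩
  have hmiss := hNC lv (fun i => by
      by_cases hi : i ∈ I t
      · have := (hlv1 i hi).1; omega
      · exact (hlv2 i hi).le) (by
      have h1 := hr.mono _ _ (rs_mono (row := row) hW (hlv3 u le_rfl).1)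
      have h2 := hmax t le_rfl
      have h3 := card_le_univ (I t)
      unfold df at h2
      omega)
  have hfib : ∀ j ≤ t, cut r row W (I j) ∩ (R \ Z) ⊆
      (miss r row u lv W0).filter fun e => lv (row e) = j := by
    intro j hj e he
    obtain ⟨he1, he2⟩ := mem_inter.1 he
    obtain ⟨he3, he4⟩ := mem_sdiff.1 he1
    have he5 := (mem_rs.1 he3).2
    obtain ⟨h1, h2, h3⟩ := hlv1 _ (hmono hj he5)
    have h4 := h3 j he5
    have h5 : lv (row e) = j := by
      by_contra hne
      have h6 : lv (row e) + 1 ≤ j := by omega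
      exact he4 (hr.cl_mono (rs_mono subset_rfl (hmono h6))
        (hcl _ (by omega) (mem_rs.2 ⟨he2, h2⟩)))
    simp only [miss, mem_filter, mem_univ, true_and]
    refine ⟨⟨by omega, fun hc => he4 ?_⟩, h5⟩
    rw [h5] at hc
    exact hr.cl_mono (rs_mono hW (hlv3 j (by omega)).2) hc
  have hcard : ∀ j ≤ t, k * D ≤ 4 * ((miss r row u lv W0).filter fun e => lv (row e) = j).card := by
    intro j hj
    have h1 := card_le_card (hfib j hj)
    have h2 := hr.cut_card hrow hcov W (I j)
    have h3 := hR W (I j) (by rw [hmax j hj, hD]; exact_mod_cast hD1)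
    rw [hmax j hj, hD] at h2
    have h2' : k * D ≤ (cut r row W (I j)).card := by exact_mod_cast h2
    have h4 : cut r row W (I j) ∩ R ⊆ (cut r row W (I j) ∩ (R \ Z)) ∪ Z := by
      intro x hx
      simp only [mem_union, mem_inter, mem_sdiff] at hx ⊢
      tauto
    have h5 := (card_le_card h4).trans (card_union_le _ _)
    have h6 : k ≤ k * D := Nat.le_mul_of_pos_right _ hD1
    omega
  have hsum : ∑ j ∈ range (t + 1), ((miss r row u lv W0).filter fun e => lv (row e) = j).card ≤
      (miss r row u lv W0).card := by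
    rw [← card_biUnion]
    · exact card_le_card (biUnion_subset.2 fun j _ => filter_subset _ _)
    · intro a _ b _ hab
      exact disjoint_filter.2 fun x _ h1 h2 => hab (h1.symm.trans h2)
  have h1 : (t + 1) * (k * D) ≤ 4 * (miss r row u lv W0).card := by
    calc (t + 1) * (k * D) = ∑ _j ∈ range (t + 1), k * D := by simp
      _ ≤ ∑ j ∈ range (t + 1),
          4 * ((miss r row u lv W0).filter fun e => lv (row e) = j).card :=
        sum_le_sum fun j hj => hcard j (by simpa [Nat.lt_succ_iff] using hj)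
      _ ≤ _ := by rw [← mul_sum]; omega
  have h2 : u ≤ (t + 1) * D := by
    rw [ht, mul_comm]; exact (Nat.lt_mul_div_succ u hD1).le
  have h3 : k * u ≤ (t + 1) * (k * D) := by
    calc k * u ≤ k * ((t + 1) * D) := Nat.mul_le_mul_left _ h2
      _ = _ := by ring
  omega

theorem RankFn.complete (hr : RankFn r) {k N u : ℕ} (hk : Fintype.card ι = k)
    (hrow : ∀ i, (univ.filter fun e => row e = i).card = k) (hcov : ∀ X, X.card ≤ k * r X)
    {W0 R Z : Finset P} (hNC : NC r row u N W0) (hR : Res r row R)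
    (hZ : 4 * Z.card ≤ k) (hN : 4 * N ≤ k * u) (D : ℕ) :
    ∀ W, W0 ⊆ W → DD r row W ≤ D →
      ∃ Q ⊆ R \ Z, (Q.card : ℝ) ≤ u * (harmonic D : ℝ) ∧ DD r row (W ∪ Q) ≤ 0 := by
  induction D with
  | zero => exact fun W _ h => ⟨∅, empty_subset _, by simp, by simpa using h⟩
  | succ D ih =>
    intro W hW h
    have hh : (harmonic (D + 1) : ℝ) = harmonic D + ((D : ℝ) + 1)⁻¹ := by
      rw [harmonic_succ]; push_cast; ring
    have hpos : (0 : ℝ) ≤ u * ((D : ℝ) + 1)⁻¹ := by positivity
    by_cases h' : DD r row W ≤ D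
    · obtain ⟨Q, hQ, hc, hD⟩ := ih W hW h'
      exact ⟨Q, hQ, by rw [hh, mul_add]; linarith, hD⟩
    · obtain ⟨Q, hQ, hc, hD⟩ := hr.augment hk hrow hcov hW hNC hR hZ hN (D := D + 1)
        (by push_cast at h ⊢; omega) (by omega)
      obtain ⟨Q', hQ', hc', hD'⟩ := ih (W ∪ Q) (hW.trans subset_union_left)
        (by push_cast at hD; omega)
      refine ⟨Q ∪ Q', union_subset hQ hQ', ?_, by rwa [← union_assoc]⟩
      have h1 : ((Q ∪ Q').card : ℝ) ≤ Q.card + Q'.card := by exact_mod_cast card_union_le Q Q'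
      have h2 : (Q.card : ℝ) ≤ u * ((D : ℝ) + 1)⁻¹ := by
        have h3 : (Q.card : ℝ) ≤ ((u / (D + 1) : ℕ) : ℝ) := by exact_mod_cast hc
        have h4 := Nat.cast_div_le (α := ℝ) (m := u) (n := D + 1)
        push_cast at h4
        rw [div_eq_mul_inv] at h4
        linarith
      rw [hh, mul_add]
      linarith

theorem RankFn.complete_all (hr : RankFn r) {k N u m : ℕ} (hk : Fintype.card ι = k)
    (hrow : ∀ i, (univ.filter fun e => row e = i).card = k) (hcov : ∀ X, X.card ≤ k * r X)
    {W : ℕ → Finset P} {R : Finset P} (hNC : ∀ j < m, NC r row u N (W j)) (hR : Res r row R)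
    (hN : 4 * N ≤ k * u) (hm : 4 * (m : ℝ) * (u * (1 + Real.log k)) ≤ k) :
    ∃ Q : ℕ → Finset P, (∀ j < m, Q j ⊆ R ∧ DD r row (W j ∪ Q j) ≤ 0) ∧
      ∀ a < m, ∀ b < m, a ≠ b → Disjoint (Q a) (Q b) := by
  have hlog : (0 : ℝ) ≤ u * (1 + Real.log k) := by
    have := Real.log_natCast_nonneg k
    positivity
  have main : ∀ n ≤ m, ∃ Q : ℕ → Finset P,
      (∀ j < n, Q j ⊆ R ∧ DD r row (W j ∪ Q j) ≤ 0 ∧ ((Q j).card : ℝ) ≤ u * (1 + Real.log k)) ∧
      ∀ a < n, ∀ b < n, a ≠ b → Disjoint (Q a) (Q b) := by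
    intro n
    induction n with
    | zero => exact fun _ => ⟨fun _ => ∅, by simp, by simp⟩
    | succ n ih =>
      intro hn
      obtain ⟨Q, hQ, hdis⟩ := ih (by omega)
      have hZ : 4 * ((range n).biUnion Q).card ≤ k := by
        have h1 : (((range n).biUnion Q).card : ℝ) ≤ ∑ j ∈ range n, ((Q j).card : ℝ) := by
          exact_mod_cast card_biUnion_le
        have h2 : ∑ j ∈ range n, ((Q j).card : ℝ) ≤ ∑ _j ∈ range n, u * (1 + Real.log k) :=
          sum_le_sum fun j hj => (hQ j (mem_range.1 hj)).2.2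
        have h3 : (n : ℝ) ≤ m := by exact_mod_cast (by omega : n ≤ m)
        simp only [sum_const, card_range, nsmul_eq_mul] at h2
        have h4 := mul_le_mul_of_nonneg_right h3 hlog
        have h5 : (4 : ℝ) * ((range n).biUnion Q).card ≤ k := by linarith
        exact_mod_cast h5
      obtain ⟨Q', hQ', hc, hD⟩ := hr.complete hk hrow hcov (hNC n (by omega)) hR hZ hN k (W n)
        subset_rfl (hk ▸ DD_le_card _)
      have hc' : (Q'.card : ℝ) ≤ u * (1 + Real.log k) :=
        hc.trans (mul_le_mul_of_nonneg_left (harmonic_le_one_add_log k) (Nat.cast_nonneg _))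
      have hd : ∀ a < n, Disjoint (Q a) Q' := fun a ha =>
        disjoint_left.2 fun x hx hx' =>
          (mem_sdiff.1 (hQ' hx')).2 (mem_biUnion.2 ⟨a, mem_range.2 ha, hx⟩)
      refine ⟨Function.update Q n Q', fun j hj => ?_, fun a ha b hb hab => ?_⟩
      · by_cases hjn : j = n
        · subst hjn
          rw [Function.update_self]
          exact ⟨hQ'.trans sdiff_subset, hD, hc'⟩
        · rw [Function.update_of_ne hjn]
          exact hQ j (by omega)
      · by_cases han : a = n
        · subst han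
          rw [Function.update_self, Function.update_of_ne hab.symm]
          exact (hd b (by omega)).symm
        · by_cases hbn : b = n
          · subst hbn
            rw [Function.update_self, Function.update_of_ne han]
            exact hd a (by omega)
          · rw [Function.update_of_ne han, Function.update_of_ne hbn]
            exact hdis a (by omega) b (by omega) hab
  obtain ⟨Q, hQ, hdis⟩ := main m le_rfl
  exact ⟨Q, fun j hj => ⟨(hQ j hj).1, (hQ j hj).2.1⟩, hdis⟩

end Pool.Agent.P.MP_5f88fa_co
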