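import Mathlib
import Pool.Agent.P.MP_5f88fa_co.Rank

/-! A weighted form of Rado's theorem. -/

namespace Pool.Agent.P.MP_5f88fa_co

open Finset

set_option linter.unusedSectionVars false

variable {P ι : Type} [Fintype P] [DecidableEq P] [Fintype ι] [DecidableEq ι]
variable {r : Finset P → ℕ} {row : P → ι}

/-- The elements of `U` that enter before time `t`. -/
def VV (row : P → ι) (U : Finset P) (π : P → ℕ) (q : ι → ℕ) (t : ℕ) : Finset P :=
  U.filter fun y => π y + q (row y) < t

theorem mem_VV {U : Finset P} {π : P → ℕ} {q : ι → ℕ} {t : ℕ} {y : P} :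
    y ∈ VV row U π q t ↔ y ∈ U ∧ π y + q (row y) < t := by simp [VV]

theorem VV_mono (U : Finset P) (π : P → ℕ) (q : ι → ℕ) {t t' : ℕ} (h : t ≤ t') :
    VV row U π q t ⊆ VV row U π q t' := fun _ hy =>
  mem_VV.2 ⟨(mem_VV.1 hy).1, lt_of_lt_of_le (mem_VV.1 hy).2 h⟩

theorem VV_zero (U : Finset P) (π : P → ℕ) (q : ι → ℕ) : VV row U π q 0 = ∅ := by
  simp [VV]

/-- The rank function of the direct sum of the minors along a chain. -/
def rq (r : Finset P → ℕ) (V : ℕ → Finset P) (S : ℕ) (A : Finset P) : ℕ :=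
  ∑ t ∈ range S, (r (V t ∪ (A ∩ V (t + 1))) - r (V t))

theorem RankFn.step_le (hr : RankFn r) (X Y A : Finset P) :
    r (X ∪ (A ∩ Y)) - r X ≤ (A ∩ (Y \ X)).card := by
  have h1 := hr.submod X (A ∩ (Y \ X))
  have h2 := hr.le_card (A ∩ (Y \ X))
  have h3 : X ∪ (A ∩ (Y \ X)) = X ∪ (A ∩ Y) := by
    ext x; simp only [mem_union, mem_inter, mem_sdiff]; tauto
  rw [h3] at h1
  omega

theorem sum_card_step (V : ℕ → Finset P) (hV : Monotone V) (A : Finset P) (S : ℕ) :
    ∑ t ∈ range S, (A ∩ (V (t + 1) \ V t)).card + (A ∩ V 0).card = (A ∩ V S).card := by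
  induction S with
  | zero => simp
  | succ S ih =>
    rw [sum_range_succ]
    have h1 : A ∩ V (S + 1) = (A ∩ V S) ∪ (A ∩ (V (S + 1) \ V S)) := by
      ext x
      have := @hV S (S + 1) (Nat.le_succ S) x
      simp only [mem_union, mem_inter, mem_sdiff]; tauto
    have h2 : Disjoint (A ∩ V S) (A ∩ (V (S + 1) \ V S)) :=
      disjoint_left.2 fun x hx hx' => (mem_sdiff.1 (mem_inter.1 hx').2).2 (mem_inter.1 hx).2
    rw [h1, card_union_of_disjoint h2]
    omega

theorem RankFn.rq_rankFn (hr : RankFn r) (V : ℕ → Finset P) (hV : Monotone V) (S : ℕ) :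
    RankFn (rq r V S) where
  mono A B h := sum_le_sum fun t _ => Nat.sub_le_sub_right
    (hr.mono _ _ (union_subset_union_right (inter_subset_inter_right h))) _
  submod A B := by
    unfold rq
    rw [← sum_add_distrib, ← sum_add_distrib]
    refine sum_le_sum fun t _ => ?_
    have h1 := hr.submod (V t ∪ (A ∩ V (t + 1))) (V t ∪ (B ∩ V (t + 1)))
    have h2 : (V t ∪ (A ∩ V (t + 1))) ∪ (V t ∪ (B ∩ V (t + 1))) =
        V t ∪ ((A ∪ B) ∩ V (t + 1)) := by
      ext x; simp only [mem_union, mem_inter]; tauto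
    have h3 : (V t ∪ (A ∩ V (t + 1))) ∩ (V t ∪ (B ∩ V (t + 1))) =
        V t ∪ ((A ∩ B) ∩ V (t + 1)) := by
      ext x; simp only [mem_union, mem_inter]; tauto
    rw [h2, h3] at h1
    have h4 := hr.mono (V t) (V t ∪ (A ∩ V (t + 1))) subset_union_left
    have h5 := hr.mono (V t) (V t ∪ (B ∩ V (t + 1))) subset_union_left
    have h6 := hr.mono (V t) (V t ∪ ((A ∪ B) ∩ V (t + 1))) subset_union_left
    have h7 := hr.mono (V t) (V t ∪ ((A ∩ B) ∩ V (t + 1))) subset_union_left
    omega
  le_card A := by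
    have h1 := sum_card_step V hV A S
    have h2 : rq r V S A ≤ ∑ t ∈ range S, (A ∩ (V (t + 1) \ V t)).card :=
      sum_le_sum fun t _ => hr.step_le _ _ _
    have h3 := card_le_card (inter_subset_left (s₁ := A) (s₂ := V S))
    omega

theorem RankFn.rq_le (hr : RankFn r) (V : ℕ → Finset P) (hV : Monotone V) (S : ℕ)
    (A : Finset P) : rq r V S A ≤ r (A ∩ V S) := by
  induction S with
  | zero => simp [rq]
  | succ S ih =>
    unfold rq at ih ⊢
    rw [sum_range_succ]
    have h1 := hr.submod (V S) (A ∩ V (S + 1))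
    have h2 : V S ∩ (A ∩ V (S + 1)) = A ∩ V S := by
      ext x
      have := @hV S (S + 1) (Nat.le_succ S) x
      simp only [mem_inter]; tauto
    rw [h2] at h1
    have h4 := hr.mono (V S) (V S ∪ (A ∩ V (S + 1))) subset_union_left
    omega

/-- If the rank along the chain is full, the set meets every member of the chain in at least as
many elements as its rank. -/
theorem RankFn.rank_le_card (hr : RankFn r) (V : ℕ → Finset P) (hV : Monotone V)
    (A : Finset P) (S : ℕ) (h : r (V S) ≤ rq r V S A) : ∀ t ≤ S, r (V t) ≤ (A ∩ V t).card := by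
  have h1 : ∀ t, r (V t) ≤ rq r V t A → r (V t) ≤ (A ∩ V t).card := fun t ht =>
    ht.trans ((hr.rq_le V hV t A).trans (hr.le_card _))
  have h2 : ∀ t, r (V (t + 1)) ≤ rq r V (t + 1) A → r (V t) ≤ rq r V t A := by
    intro t ht
    unfold rq at ht ⊢
    rw [sum_range_succ] at ht
    have h3 := hr.mono (V t ∪ (A ∩ V (t + 1))) (V (t + 1))
      (union_subset (hV (Nat.le_succ t)) inter_subset_right)
    have h4 := hr.mono (V t) (V t ∪ (A ∩ V (t + 1))) subset_union_left
    omega
  have h3 : ∀ d t, t + d = S → r (V t) ≤ rq r V t A := by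
    intro d
    induction d with
    | zero => intro t ht; rw [add_zero] at ht; rw [ht]; exact h
    | succ d ih => intro t ht; exact h2 t (ih (t + 1) (by omega))
  intro t ht
  exact h1 t (h3 (S - t) t (by omega))

theorem sum_eq_sum_card_lt (w : ι → ℕ) (S : ℕ) (h : ∀ i, w i ≤ S) :
    ∑ i, w i = ∑ t ∈ range S, (univ.filter fun i => t < w i).card := by
  simp only [card_filter]
  rw [sum_comm]
  refine sum_congr rfl fun i _ => ?_
  rw [← card_filter]
  have : (range S).filter (fun t => t < w i) = range (w i) := by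
    ext t
    have := h i
    simp only [mem_filter, mem_range]
    omega
  rw [this, card_range]

/-- Weighted form of Rado's theorem. -/
theorem RankFn.weighted (hr : RankFn r) (hle : ∀ A, r A ≤ Fintype.card ι) (U : Finset P)
    (π : P → ℕ) (G : ℕ)
    (h : ∀ (q : ι → ℕ) (S : ℕ),
      ∑ t ∈ range S, (Fintype.card ι - r (VV row U π q (t + 1))) ≤ G + ∑ i, q i) :
    ∃ s : ι → P, (∀ i, row (s i) = i ∧ s i ∈ U) ∧ Fintype.card ι ≤ r (univ.image s) ∧
      ∑ i, π (s i) ≤ G := by
  set n := Fintype.card ι with hn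
  let Φ : (ι → ℕ) → ℕ → ℤ := fun q S =>
    ∑ t ∈ range S, ((n : ℤ) - r (VV row U π q (t + 1))) - ∑ i, (q i : ℤ)
  have hΦ : ∀ q S, Φ q S ≤ G := by
    intro q S
    have h1 : ((∑ t ∈ range S, (n - r (VV row U π q (t + 1))) : ℕ) : ℤ) ≤
        ((G + ∑ i, q i : ℕ) : ℤ) := by exact_mod_cast h q S
    rw [Nat.cast_sum, sum_congr rfl fun t _ => Nat.cast_sub (hle _)] at h1
    push_cast at h1
    simp only [Φ]
    linarith
  obtain ⟨ub, ⟨q, S, hq⟩, hmax⟩ := Int.exists_greatest_of_bdd (P := fun z => ∃ q S, Φ q S = z)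
    ⟨G, by rintro _ ⟨q, S, rfl⟩; exact hΦ q S⟩ ⟨_, fun _ => 0, 0, rfl⟩
  set V := VV row U π q with hV
  have hVm : Monotone V := fun _ _ h => VV_mono U π q h
  have hr' := hr.rq_rankFn V hVm (S + 1)
  have hD : DD (rq r V (S + 1)) row U ≤ 0 := by
    refine sup'_le _ _ fun I _ => ?_
    let q' : ι → ℕ := fun i => if i ∈ I then q i else q i + 1
    have h1 := hmax _ ⟨q', S + 1, rfl⟩
    rw [← hq] at h1
    have h2 : ∀ t, VV row U π q' (t + 1) = V t ∪ (rs row U I ∩ V (t + 1)) := by
      intro t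
      ext y
      simp only [hV, mem_union, mem_inter, mem_VV, mem_rs, q']
      by_cases hy : row y ∈ I
      · simp only [hy, if_true, and_true]
        constructor
        · exact fun h => Or.inr ⟨h.1, h⟩
        · rintro (h | h)
          · exact ⟨h.1, by omega⟩
          · exact h.2
      · simp only [hy, if_false, and_false, false_and, or_false]
        constructor
        · exact fun h => ⟨h.1, by omega⟩
        · exact fun h => ⟨h.1, by omega⟩
    have h3 : ∑ i, (q' i : ℤ) = ∑ i, (q i : ℤ) + (n - I.card) := by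
      have : ∀ i, (q' i : ℤ) = q i + (1 - if i ∈ I then 1 else 0) := by
        intro i
        simp only [q']
        split_ifs <;> simp
      simp only [this, sum_add_distrib, sum_sub_distrib, sum_const, card_univ, nsmul_eq_mul,
        mul_one, sum_boole, filter_mem_eq_inter, univ_inter, hn]
    have h4 : ((rq r V (S + 1) (rs row U I) : ℕ) : ℤ) =
        ∑ t ∈ range (S + 1), ((r (V t ∪ (rs row U I ∩ V (t + 1))) : ℤ) - r (V t)) := by
      unfold rq
      rw [Nat.cast_sum]
      exact sum_congr rfl fun t _ => Nat.cast_sub (hr.mono _ _ subset_union_left)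
    have h5 : ∑ t ∈ range (S + 1), (r (V t) : ℤ) = ∑ t ∈ range S, (r (V (t + 1)) : ℤ) := by
      rw [sum_range_succ', hV, VV_zero, hr.empty]
      simp
    simp only [Φ, h2, h3, sum_sub_distrib, sum_const, card_range, nsmul_eq_mul, ← hV] at h1
    unfold df
    rw [h4, sum_sub_distrib, h5]
    push_cast at h1
    linarith
  obtain ⟨s, hs, hs'⟩ := hr'.rado U hD
  have hT := hr.rq_le V hVm (S + 1) (univ.image s)
  refine ⟨s, hs, hs'.trans (hT.trans (hr.mono _ _ inter_subset_left)), ?_⟩
  have hc := hr.rank_le_card V hVm (univ.image s) (S + 1) ((hle _).trans hs')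
  have hc2 : ∀ t, (univ.image s ∩ V t).card ≤ (univ.filter fun i => π (s i) + q i < t).card := by
    intro t
    refine le_trans (card_le_card fun y hy => ?_) (card_image_le (f := s))
    obtain ⟨h1, h2⟩ := mem_inter.1 hy
    obtain ⟨i, -, rfl⟩ := mem_image.1 h1
    have h3 := (mem_VV.1 h2).2
    rw [(hs i).1] at h3
    exact mem_image_of_mem _ (mem_filter.2 ⟨mem_univ _, h3⟩)
  have hw : ∀ i, π (s i) + q i ≤ S := by
    have h1 := hs'.trans (hT.trans ((hr.le_card _).trans (hc2 (S + 1))))
    have h2 := eq_of_subset_of_card_le (filter_subset (fun i => π (s i) + q i < S + 1) univ) h1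
    intro i
    have h3 := mem_univ i
    rw [← h2] at h3
    exact Nat.lt_succ_iff.1 (mem_filter.1 h3).2
  have h1 := sum_eq_sum_card_lt _ S hw
  have h2 : ∑ t ∈ range S, (univ.filter fun i => t < π (s i) + q i).card ≤
      ∑ t ∈ range S, (n - r (V (t + 1))) := by
    refine sum_le_sum fun t ht => ?_
    have h3 := (hc (t + 1) (by have := mem_range.1 ht; omega)).trans (hc2 (t + 1))
    have h4 := card_filter_add_card_filter_not (s := (univ : Finset ι))
      (fun i => π (s i) + q i < t + 1)
    have h5 : (univ.filter fun i => ¬ π (s i) + q i < t + 1) =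
        univ.filter fun i => t < π (s i) + q i := filter_congr fun i _ => by omega
    rw [h5, card_univ] at h4
    omega
  have h3 := h q S
  rw [sum_add_distrib] at h1
  rw [← hV] at h3
  omega

end Pool.Agent.P.MP_5f88fa_co
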