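import Mathlib
import Pool.Agent.P.MP_5f88fa_co.Aug
import Pool.Agent.P.MP_5f88fa_co.Wt

/-! With good prices there is always a cheap system of representatives of unused elements. -/

namespace Pool.Agent.P.MP_5f88fa_co

open Finset

set_option linter.unusedSectionVars false

variable {P ι : Type} [Fintype P] [DecidableEq P] [Fintype ι] [DecidableEq ι]
variable {r : Finset P → ℕ} {row : P → ι}

/-- The elements missed by `W` along the weak order `q` of the rows. -/
def ms (r : Finset P → ℕ) (row : P → ι) (q : ι → ℕ) (W : Finset P) : Finset P :=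
  univ.filter fun y => y ∉ cl r (rs row W (univ.filter fun i => q i ≤ q (row y)))

/-- Large subsets of `R` miss few elements. -/
def Thin (r : Finset P → ℕ) (row : P → ι) (R : Finset P) (N b Λ : ℕ) : Prop :=
  ∀ (q : ι → ℕ) (W : Finset P), W ⊆ R → b * (ms r row q W).card ≤ 2 * N * ((R \ W).card + Λ)

/-- The elements of a given level. -/
def sl (lvl : P → ℕ) (l : ℕ) : Finset P := univ.filter fun y => lvl y = l

theorem mem_sl {lvl : P → ℕ} {l : ℕ} {y : P} : y ∈ sl lvl l ↔ lvl y = l := by simp [sl]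

/-- The cut at time `t`. -/
def YY (r : Finset P → ℕ) (row : P → ι) (U : Finset P) (π : P → ℕ) (q : ι → ℕ) (t : ℕ) :
    Finset P :=
  cut r row (VV row U π q (t + 1)) (univ.filter fun i => q i ≤ t)

theorem rs_VV (U : Finset P) (π : P → ℕ) (q : ι → ℕ) (t : ℕ) :
    rs row (VV row U π q (t + 1)) (univ.filter fun i => q i ≤ t) = VV row U π q (t + 1) := by
  ext y
  simp only [mem_rs, mem_filter, mem_univ, true_and, and_iff_left_iff_imp]
  intro hy
  have := (mem_VV.1 hy).2
  omega

theorem RankFn.term_le (hr : RankFn r) {k : ℕ} (hk : Fintype.card ι = k)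
    (hrow : ∀ i, (univ.filter fun e => row e = i).card = k) (hcov : ∀ X, X.card ≤ k * r X)
    {R Z : Finset P} (hR : Res r row R) (hZ : 4 * (R ∩ Z).card ≤ k) (U : Finset P) (π : P → ℕ)
    (q : ι → ℕ) (t : ℕ) :
    k * (k - r (VV row U π q (t + 1))) ≤ k * (univ.filter fun i => t < q i).card +
      4 * (YY r row U π q t ∩ (R \ Z)).card := by
  have h1 := card_filter_add_card_filter_not (s := (univ : Finset ι)) (fun i => q i ≤ t)
  have h2 : (univ.filter fun i => ¬ q i ≤ t) = univ.filter fun i => t < q i :=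
    filter_congr fun i _ => by omega
  rw [h2, card_univ, hk] at h1
  have h3 := hr.cut_card hrow hcov (VV row U π q (t + 1)) (univ.filter fun i => q i ≤ t)
  have h4 := hR (VV row U π q (t + 1)) (univ.filter fun i => q i ≤ t)
  unfold df at h3 h4
  rw [rs_VV] at h3 h4
  set a := (univ.filter fun i => q i ≤ t).card
  set b := (univ.filter fun i => t < q i).card
  set x := r (VV row U π q (t + 1))
  by_cases hx : a ≤ x
  · have : k * (k - x) ≤ k * b := Nat.mul_le_mul_left _ (by omega)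
    omega
  obtain ⟨D, hD⟩ : ∃ D, a = x + (D + 1) := ⟨a - x - 1, by omega⟩
  have h5 := h4 (by omega)
  have h6 : k * (D + 1) ≤ (YY r row U π q t).card := by
    have : ((a : ℤ) - x) = ((D + 1 : ℕ) : ℤ) := by omega
    rw [this] at h3
    exact_mod_cast h3
  have h7 : YY r row U π q t ∩ R ⊆ (YY r row U π q t ∩ (R \ Z)) ∪ (R ∩ Z) := by
    intro x hx
    simp only [mem_union, mem_inter, mem_sdiff] at hx ⊢
    tauto
  have h8 := (card_le_card h7).trans (card_union_le _ _)
  have h9 : k - x = b + (D + 1) := by omega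
  have h10 : k ≤ k * (D + 1) := Nat.le_mul_of_pos_right _ (by omega)
  rw [h9, mul_add]
  change (YY r row U π q t).card ≤ 2 * (YY r row U π q t ∩ R).card at h5
  omega

theorem RankFn.len_le (hr : RankFn r) (U : Finset P) (π : P → ℕ) (q : ι → ℕ) (S : ℕ) {y : P}
    {p : ℕ} (h : y ∈ cl r (VV row U π q (p + q (row y) + 1))) :
    ((range S).filter fun t => y ∈ YY r row U π q t).card ≤ p := by
  have h1 : ((range S).filter fun t => y ∈ YY r row U π q t) ⊆
      Ico (q (row y)) (p + q (row y)) := by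
    intro t ht
    have h2 := (mem_filter.1 ht).2
    unfold YY cut at h2
    rw [rs_VV] at h2
    obtain ⟨h3, h4⟩ := mem_sdiff.1 h2
    have h5 : q (row y) ≤ t := by simpa using (mem_rs.1 h3).2
    refine mem_Ico.2 ⟨h5, ?_⟩
    by_contra hn
    exact h4 (hr.cl_mono (VV_mono U π q (by omega)) h)
  simpa using card_le_card h1

theorem RankFn.len_le_sum (hr : RankFn r) (Z : Finset P) (lvl : P → ℕ) (pr b : ℕ → ℕ) (L : ℕ)
    (hpr : ∀ l ≤ L, pr (l + 1) = pr l + b l * pr l) (q : ι → ℕ) (S : ℕ) {y : P}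
    (hy : y ∈ sl lvl (L + 1) \ Z) :
    ((range S).filter fun t => y ∈ YY r row (univ \ Z) (pr ∘ lvl) q t).card ≤
      pr 0 + ∑ l ∈ range (L + 1), if y ∈ ms r row q (sl lvl l \ Z) then b l * pr l else 0 := by
  set len := ((range S).filter fun t => y ∈ YY r row (univ \ Z) (pr ∘ lvl) q t).card
  have h1 : len ≤ pr (L + 1) := by
    refine hr.len_le _ _ q S (hr.subset_cl _ (mem_VV.2 ⟨?_, ?_⟩))
    · exact mem_sdiff.2 ⟨mem_univ _, (mem_sdiff.1 hy).2⟩
    · simp [mem_sl.1 (mem_sdiff.1 hy).1]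
  have h2 : ∀ l, y ∉ ms r row q (sl lvl l \ Z) → len ≤ pr l := by
    intro l hl
    simp only [ms, mem_filter, mem_univ, true_and, not_not] at hl
    refine hr.len_le _ _ q S (hr.cl_mono (fun x hx => ?_) hl)
    obtain ⟨h3, h4⟩ := mem_rs.1 hx
    have h5 : q (row x) ≤ q (row y) := by simpa using h4
    refine mem_VV.2 ⟨mem_sdiff.2 ⟨mem_univ _, (mem_sdiff.1 h3).2⟩, ?_⟩
    simp only [Function.comp, mem_sl.1 (mem_sdiff.1 h3).1]
    omega
  have h3 : ∀ j ≤ L + 1, min len (pr j) ≤
      pr 0 + ∑ l ∈ range j, if y ∈ ms r row q (sl lvl l \ Z) then b l * pr l else 0 := by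
    intro j
    induction j with
    | zero => simp
    | succ j ih =>
      intro hj
      have h4 := ih (by omega)
      have h5 := hpr j (by omega)
      rw [sum_range_succ]
      split_ifs with h
      · omega
      · have := h2 j h
        omega
  have := h3 (L + 1) le_rfl
  omega

theorem sum_level_le (Z : Finset P) (lvl : P → ℕ) (pr : ℕ → ℕ) (T : Finset ℕ) :
    ∑ l ∈ T, pr l * (sl lvl l ∩ Z).card ≤ ∑ y ∈ Z, (pr ∘ lvl) y := by
  have h1 : ∀ l, pr l * (sl lvl l ∩ Z).card = ∑ y ∈ Z, if lvl y = l then pr (lvl y) else 0 := by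
    intro l
    rw [← sum_filter, sum_congr rfl (g := fun _ => pr l) fun y hy => by rw [(mem_filter.1 hy).2],
      sum_const, smul_eq_mul, mul_comm]
    congr 2
    ext y
    simp only [mem_inter, mem_sl, mem_filter]
    tauto
  simp only [h1]
  rw [sum_comm]
  refine sum_le_sum fun y _ => ?_
  rw [sum_ite_eq]
  split_ifs <;> simp

/-- One step of the greedy algorithm. -/
theorem RankFn.step (hr : RankFn r) {k C G L N Λ : ℕ} (hk : Fintype.card ι = k) (hk1 : 1 ≤ k)
    (hle : ∀ A, r A ≤ k)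
    (hrow : ∀ i, (univ.filter fun e => row e = i).card = k) (hcov : ∀ X, X.card ≤ k * r X)
    (lvl : P → ℕ) (pr b : ℕ → ℕ) (hpr0 : pr 0 = 1)
    (hpr : ∀ l ≤ L, pr (l + 1) = pr l + b l * pr l)
    (hthin : ∀ l ≤ L, Thin r row (sl lvl l) N (b l) Λ) (hres : Res r row (sl lvl (L + 1)))
    (h1 : 4 * C < pr (L + 1) * (k + 1))
    (h2 : 4 * (k * k + 2 * N * (C + Λ * ∑ l ∈ range (L + 1), pr l)) ≤ k * G)
    (Z : Finset P) (hZ : ∑ y ∈ Z, (pr ∘ lvl) y ≤ C) :
    ∃ s : ι → P, (∀ i, row (s i) = i ∧ s i ∉ Z) ∧ k ≤ r (univ.image s) ∧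
      ∑ i, (pr ∘ lvl) (s i) ≤ G := by
  have hZ1 : 4 * (sl lvl (L + 1) ∩ Z).card ≤ k := by
    have h3 := (sum_level_le Z lvl pr {L + 1}).trans hZ
    rw [sum_singleton] at h3
    have h4 : pr (L + 1) * (4 * (sl lvl (L + 1) ∩ Z).card) < pr (L + 1) * (k + 1) := by
      nlinarith
    exact Nat.lt_succ_iff.1 (lt_of_mul_lt_mul_left h4 (Nat.zero_le _))
  have hZ2 := (sum_level_le Z lvl pr (range (L + 1))).trans hZ
  have hP : Fintype.card P = k * k := by
    have := card_rs_univ hrow univ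
    rw [card_univ, hk] at this
    rw [← this, ← card_univ]
    congr 1
    ext e
    simp [mem_rs]
  obtain ⟨s, hs, hs'⟩ := hr.weighted (row := row) (hk ▸ hle) (univ \ Z) (pr ∘ lvl) G (by
    intro q S
    rw [hk]
    refine Nat.le_of_mul_le_mul_left ?_ hk1
    have h3 := sum_le_sum fun t (_ : t ∈ range S) =>
      hr.term_le hk hrow hcov hres hZ1 (univ \ Z) (pr ∘ lvl) q t
    rw [← mul_sum, sum_add_distrib, ← mul_sum, ← mul_sum] at h3
    have h4 : ∑ t ∈ range S, (univ.filter fun i => t < q i).card ≤ ∑ i, q i := by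
      simp only [card_filter]
      rw [sum_comm]
      refine sum_le_sum fun i _ => ?_
      rw [← card_filter]
      refine (card_le_card (t := range (q i)) fun t ht => ?_).trans (card_range _).le
      exact mem_range.2 (mem_filter.1 ht).2
    have h5 : ∑ t ∈ range S, (YY r row (univ \ Z) (pr ∘ lvl) q t ∩ (sl lvl (L + 1) \ Z)).card =
        ∑ y ∈ sl lvl (L + 1) \ Z,
          ((range S).filter fun t => y ∈ YY r row (univ \ Z) (pr ∘ lvl) q t).card := by
      simp only [card_filter]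
      rw [sum_comm]
      refine sum_congr rfl fun t _ => ?_
      rw [← card_filter, filter_mem_eq_inter, inter_comm]
    have h6 := sum_le_sum fun y (hy : y ∈ sl lvl (L + 1) \ Z) =>
      hr.len_le_sum (row := row) Z lvl pr b L hpr q S hy
    have h7 : ∑ y ∈ sl lvl (L + 1) \ Z, (pr 0 + ∑ l ∈ range (L + 1),
        if y ∈ ms r row q (sl lvl l \ Z) then b l * pr l else 0) ≤
        k * k + ∑ l ∈ range (L + 1), pr l * (b l * (ms r row q (sl lvl l \ Z)).card) := by
      refine (sum_le_sum_of_subset (subset_univ _)).trans (le_of_eq ?_)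
      rw [sum_add_distrib, sum_comm, hpr0, sum_const, card_univ, hP, smul_eq_mul, mul_one]
      congr 1
      refine sum_congr rfl fun l _ => ?_
      rw [sum_ite_mem, univ_inter, sum_const, smul_eq_mul]
      ring
    have h8 : ∑ l ∈ range (L + 1), pr l * (b l * (ms r row q (sl lvl l \ Z)).card) ≤
        ∑ l ∈ range (L + 1), 2 * N * (pr l * (sl lvl l ∩ Z).card + Λ * pr l) := by
      refine sum_le_sum fun l hl => ?_
      have h9 := hthin l (Nat.lt_succ_iff.1 (mem_range.1 hl)) q (sl lvl l \ Z) sdiff_subset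
      rw [sdiff_sdiff_right_self] at h9
      refine (Nat.mul_le_mul_left _ h9).trans (le_of_eq ?_)
      rw [inf_eq_inter]
      ring
    rw [← mul_sum, sum_add_distrib, ← mul_sum] at h8
    have h9 : 2 * N * (∑ l ∈ range (L + 1), pr l * (sl lvl l ∩ Z).card +
        Λ * ∑ l ∈ range (L + 1), pr l) ≤ 2 * N * (C + Λ * ∑ l ∈ range (L + 1), pr l) :=
      Nat.mul_le_mul_left _ (Nat.add_le_add_right hZ2 _)
    have h10 := Nat.mul_le_mul_left k h4
    rw [mul_add]
    omega)
  exact ⟨s, fun i => ⟨(hs i).1, (mem_sdiff.1 (hs i).2).2⟩, hk ▸ hs'.1, hs'.2⟩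

/-- The greedy algorithm. -/
theorem greedy (π : P → ℕ) (Q : (ι → P) → Prop) {m G : ℕ}
    (h : ∀ Z : Finset P, ∑ y ∈ Z, π y ≤ m * G →
      ∃ s : ι → P, (∀ i, s i ∉ Z) ∧ Q s ∧ ∑ i, π (s i) ≤ G) :
    ∃ f : Fin m → ι → P, (∀ t, Q (f t)) ∧ ∀ t t' i, f t i = f t' i → t = t' := by
  have main : ∀ j ≤ m, ∃ f : Fin j → ι → P, (∀ t, Q (f t) ∧ ∑ i, π (f t i) ≤ G) ∧
      ∀ t t' i, f t i = f t' i → t = t' := by
    intro j
    induction j with
    | zero => exact fun _ => ⟨fun t => t.elim0, fun t => t.elim0, fun t => t.elim0⟩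
    | succ j ih =>
      intro hj
      obtain ⟨f, hf, hf'⟩ := ih (by omega)
      obtain ⟨s, hs1, hs2, hs3⟩ := h (univ.image fun p : Fin j × ι => f p.1 p.2) (by
        refine (sum_image_le_of_nonneg fun _ _ => Nat.zero_le _).trans ?_
        rw [Fintype.sum_prod_type]
        refine (sum_le_card_nsmul _ _ G fun t _ => (hf t).2).trans ?_
        simpa using Nat.mul_le_mul_right G (by omega : j ≤ m))
      have hs4 : ∀ t i, s i ≠ f t i := fun t i h =>
        hs1 i (mem_image.2 ⟨(t, i), mem_univ _, h.symm⟩)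
      refine ⟨Fin.cons s f, fun t => Fin.cases ⟨hs2, hs3⟩ (fun t => hf t) t, fun t t' i => ?_⟩
      refine Fin.cases (Fin.cases (fun _ => rfl) (fun t' h => ?_) t')
        (fun t => Fin.cases (fun h => ?_) (fun t' h => ?_) t') t
      · exact absurd h (hs4 t' i)
      · exact absurd h.symm (hs4 t i)
      · exact congrArg Fin.succ (hf' t t' i h)
  obtain ⟨f, hf, hf'⟩ := main m le_rfl
  exact ⟨f, fun t => (hf t).1, hf'⟩

end Pool.Agent.P.MP_5f88fa_co
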