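import Mathlib
import Pool.Agent.P.MP_5f88fa_co.Aug

/-! A random colouring gives parts without long chains and a good reservoir. -/

namespace Pool.Agent.P.MP_5f88fa_co

open Finset Function

set_option linter.unusedSectionVars false

variable {P ι : Type} [Fintype P] [DecidableEq P] [Fintype ι] [DecidableEq ι]
variable {r : Finset P → ℕ} {row : P → ι}

theorem sum_update_eq {α : Type} [Fintype α] (F : (P → α) → ℝ) (e : P) :
    ∑ c : P → α, ∑ a : α, F (update c e a) = (∑ c, F c) * Fintype.card α := by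
  have hinv : Involutive fun p : (P → α) × α => (update p.1 e p.2, p.1 e) := by
    rintro ⟨c, a⟩
    simp
  have h := Equiv.sum_comp hinv.toPerm fun p : (P → α) × α => F p.1
  rw [Fintype.sum_prod_type, Fintype.sum_prod_type] at h
  simp only [Involutive.coe_toPerm, sum_const, card_univ, nsmul_eq_mul] at h
  rw [h, sum_mul]
  exact sum_congr rfl fun c _ => mul_comm _ _

theorem sum_prod_le {α : Type} [Fintype α] [Nonempty α] (ord : P → ℕ) (hord : Injective ord)
    (g : P → (P → α) → ℝ) (B : ℝ) (hB : 0 ≤ B) (h0 : ∀ e c, 0 ≤ g e c)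
    (hdep : ∀ e e' c a, ord e < ord e' → g e (update c e' a) = g e c)
    (havg : ∀ e c, ∑ a, g e (update c e a) ≤ B) :
    ∑ c, ∏ e, g e c ≤ B ^ Fintype.card P := by
  have hα : (0 : ℝ) < Fintype.card α := by exact_mod_cast Fintype.card_pos
  have main : ∀ S : Finset P, (∑ c, ∏ e ∈ S, g e c) * (Fintype.card α : ℝ) ^ S.card ≤
      B ^ S.card * (Fintype.card α : ℝ) ^ Fintype.card P := by
    intro S
    induction S using Finset.induction_on_max_value ord with
    | empty => simp
    | insert a0 s ha0 hmax ih =>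
      rw [card_insert_of_notMem ha0, pow_succ', ← mul_assoc,
        ← sum_update_eq (fun c => ∏ e ∈ insert a0 s, g e c) a0]
      have h1 : ∀ c : P → α, ∑ a, ∏ e ∈ insert a0 s, g e (update c a0 a) ≤
          B * ∏ e ∈ s, g e c := by
        intro c
        have h2 : ∀ a, ∏ e ∈ insert a0 s, g e (update c a0 a) =
            g a0 (update c a0 a) * ∏ e ∈ s, g e c := by
          intro a
          rw [prod_insert ha0]
          congr 1
          refine prod_congr rfl fun e he => hdep _ _ _ _ (lt_of_le_of_ne (hmax e he) ?_)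
          intro h
          exact ha0 (hord h ▸ he)
        simp only [h2]
        rw [← sum_mul]
        exact mul_le_mul_of_nonneg_right (havg _ _) (prod_nonneg fun e _ => h0 e c)
      have h3 := sum_le_sum fun c (_ : c ∈ (univ : Finset (P → α))) => h1 c
      rw [← mul_sum] at h3
      calc _ ≤ (B * ∑ c, ∏ e ∈ s, g e c) * (Fintype.card α : ℝ) ^ s.card :=
            mul_le_mul_of_nonneg_right h3 (by positivity)
        _ = B * ((∑ c, ∏ e ∈ s, g e c) * (Fintype.card α : ℝ) ^ s.card) := by ring
        _ ≤ B * (B ^ s.card * (Fintype.card α : ℝ) ^ Fintype.card P) :=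
            mul_le_mul_of_nonneg_left ih hB
        _ = _ := by ring
  have h := main univ
  rw [card_univ] at h
  exact le_of_mul_le_mul_right h (by positivity)

/-- The elements taken by the greedy algorithm. -/
def hits (r : Finset P → ℕ) (ord : P → ℕ) (W : Finset P) : Finset P :=
  W.filter fun e => e ∉ cl r (W.filter fun x => ord x < ord e)

theorem RankFn.hits_le (hr : RankFn r) (ord : P → ℕ) (hord : Injective ord) (W : Finset P) :
    (hits r ord W).card ≤ r W := by
  induction W using Finset.induction_on_max_value ord with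
  | empty => simp [hits]
  | insert a s ha hmax ih =>
    have h1 : ∀ e, ord e ≤ ord a →
        ((insert a s).filter fun x => ord x < ord e) = s.filter fun x => ord x < ord e := by
      intro e he
      rw [filter_insert, if_neg (by omega)]
    have h2 : (s.filter fun x => ord x < ord a) = s := by
      refine filter_true_of_mem fun x hx => lt_of_le_of_ne (hmax x hx) fun h => ?_
      exact ha (hord h ▸ hx)
    have h3 : (s.filter fun e => e ∉ cl r ((insert a s).filter fun x => ord x < ord e)) =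
        hits r ord s := filter_congr fun e he => by rw [h1 e (hmax e he)]
    have h4 := hr.mono s (insert a s) (subset_insert _ _)
    unfold hits
    rw [filter_insert, h3, h1 a le_rfl, h2]
    split_ifs with h
    · omega
    · have h5 := card_insert_le a (hits r ord s)
      rw [mem_cl] at h
      omega

theorem prod_ite_pow (S : Finset P) (x : ℝ) :
    ∏ e, (if e ∈ S then x else 1) = x ^ S.card := by
  rw [prod_ite_mem, univ_inter, prod_const]

/-- An order refining the levels. -/
noncomputable def ordL (row : P → ι) (lv : ι → ℕ) (e : P) : ℕ :=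
  lv (row e) * Fintype.card P + Fintype.equivFin P e

theorem ordL_inj (lv : ι → ℕ) : Injective (ordL row lv) := by
  intro a b h
  have h1 := congrArg (· % Fintype.card P) h
  simp only [ordL, Nat.mul_add_mod_self_right, Nat.mod_eq_of_lt (Fin.is_lt _)] at h1
  exact (Fintype.equivFin P).injective (Fin.ext h1)

theorem ordL_le (lv : ι → ℕ) {a b : P} (h : ordL row lv a < ordL row lv b) :
    lv (row a) ≤ lv (row b) := by
  by_contra hn
  have h1 : (lv (row b) + 1) * Fintype.card P ≤ lv (row a) * Fintype.card P :=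
    Nat.mul_le_mul_right _ (by omega)
  have h2 := (Fintype.equivFin P b).is_lt
  unfold ordL at h
  rw [add_mul] at h1
  omega

/-- The colour class `j`. -/
def cls {n : ℕ} (c : P → Fin n) (j : ℕ) : Finset P := univ.filter fun e => (c e : ℕ) = j

/-- The weight of an element in the exposure of a colour class. -/
noncomputable def gA (r : Finset P → ℕ) (row : P → ι) (T : ℕ) (lv : ι → ℕ) {n : ℕ} (j : ℕ)
    (e : P) (c : P → Fin n) : ℝ :=
  if lv (row e) ≤ T ∧ e ∉ cl r ((cls c j).filter fun x => ordL row lv x < ordL row lv e) then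
    (if (c e : ℕ) = j then 1 / 2 else 1 + 1 / (2 * n)) else 1

theorem gA_nonneg (T : ℕ) (lv : ι → ℕ) {n : ℕ} (j : ℕ) (e : P) (c : P → Fin n) :
    0 ≤ gA r row T lv j e c := by
  unfold gA
  split_ifs <;> positivity

theorem cls_update {n : ℕ} (ord : P → ℕ) (c : P → Fin n) (j : ℕ) {e e' : P} (a : Fin n)
    (h : ord e ≤ ord e') :
    ((cls (update c e' a) j).filter fun x => ord x < ord e) =
      (cls c j).filter fun x => ord x < ord e := by
  ext x
  simp only [cls, mem_filter, mem_univ, true_and]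
  constructor
  · rintro ⟨h1, h2⟩
    rw [update_of_ne (by rintro rfl; omega)] at h1
    exact ⟨h1, h2⟩
  · rintro ⟨h1, h2⟩
    rw [update_of_ne (by rintro rfl; omega)]
    exact ⟨h1, h2⟩

theorem sum_gA (T : ℕ) (lv : ι → ℕ) {n : ℕ} {j : ℕ} (hj : j < n) :
    ∑ c : P → Fin n, ∏ e, gA r row T lv j e c ≤ (n : ℝ) ^ Fintype.card P := by
  have : Nonempty (Fin n) := ⟨⟨j, hj⟩⟩
  have hn : (0 : ℝ) < n := by exact_mod_cast (by omega : 0 < n)
  refine sum_prod_le (ordL row lv) (ordL_inj lv) _ _ hn.le (gA_nonneg T lv j) ?_ ?_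
  · intro e e' c a h
    unfold gA
    rw [cls_update _ c j a h.le, update_of_ne (by rintro rfl; omega)]
  · intro e c
    unfold gA
    simp only [cls_update _ c j _ le_rfl, update_self]
    split_ifs with h
    · have h1 : ∀ a : Fin n, (if (a : ℕ) = j then (1 / 2 : ℝ) else 1 + 1 / (2 * n)) =
          (1 + 1 / (2 * n)) - if a = ⟨j, hj⟩ then 1 / 2 + 1 / (2 * (n : ℝ)) else 0 := by
        intro a
        by_cases ha : a = ⟨j, hj⟩
        · subst ha; simp; ring
        · rw [if_neg ha, if_neg fun h => ha (Fin.ext h)]; simp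
      simp only [h1, sum_sub_distrib, sum_const, card_univ, Fintype.card_fin, nsmul_eq_mul,
        sum_ite_eq', mem_univ, if_true]
      have h2 : (n : ℝ) * (1 + 1 / (2 * n)) = n + 1 / 2 := by field_simp
      have h3 : (0 : ℝ) ≤ 1 / (2 * n) := by positivity
      linarith
    · simp

theorem RankFn.le_prod_gA (hr : RankFn r) {T N k : ℕ} (lv : ι → ℕ) {n : ℕ} (j : ℕ)
    (c : P → Fin n) (h1 : r (rs row (cls c j) (univ.filter fun i => lv i ≤ T)) ≤ k)
    (h2 : N ≤ (miss r row T lv (cls c j)).card) :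
    (1 / 2 : ℝ) ^ k * (1 + 1 / (2 * n)) ^ N ≤ ∏ e, gA r row T lv j e c := by
  set W' := rs row (cls c j) (univ.filter fun i => lv i ≤ T) with hW'
  have hy : (1 : ℝ) ≤ 1 + 1 / (2 * n) := by
    have : (0 : ℝ) ≤ 1 / (2 * n) := by positivity
    linarith
  have hH := (hr.hits_le (ordL row lv) (ordL_inj lv) W').trans h1
  calc (1 / 2 : ℝ) ^ k * (1 + 1 / (2 * n)) ^ N
      ≤ (1 / 2 : ℝ) ^ (hits r (ordL row lv) W').card *
          (1 + 1 / (2 * n)) ^ (miss r row T lv (cls c j)).card :=
        mul_le_mul (pow_le_pow_of_le_one (by norm_num) (by norm_num) hH)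
          (pow_le_pow_right₀ hy h2) (by positivity) (by positivity)
    _ = ∏ e, (if e ∈ hits r (ordL row lv) W' then (1 / 2 : ℝ) else 1) *
          (if e ∈ miss r row T lv (cls c j) then 1 + 1 / (2 * (n : ℝ)) else 1) := by
        rw [prod_mul_distrib, prod_ite_pow, prod_ite_pow]
    _ ≤ _ := by
        refine prod_le_prod (fun e _ => by split_ifs <;> positivity) fun e _ => ?_
        by_cases hm : e ∈ miss r row T lv (cls c j)
        · have hm' := hm
          simp only [miss, mem_filter, mem_univ, true_and] at hm'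
          have he : e ∉ cls c j := fun he =>
            hm'.2 (hr.subset_cl _ (mem_rs.2 ⟨he, by simp⟩))
          have hfree : e ∉ cl r ((cls c j).filter fun x => ordL row lv x < ordL row lv e) := by
            refine fun h => hm'.2 (hr.cl_mono (fun x hx => ?_) h)
            exact mem_rs.2 ⟨(mem_filter.1 hx).1, by simpa using ordL_le lv (mem_filter.1 hx).2⟩
          have hnh : e ∉ hits r (ordL row lv) W' := fun h =>
            he (mem_rs.1 (mem_filter.1 h).1).1
          unfold gA
          rw [if_neg hnh, if_pos hm, if_pos ⟨hm'.1, hfree⟩, if_neg (by simpa [cls] using he),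
            one_mul]
        · rw [if_neg hm, mul_one]
          unfold gA
          by_cases hc : lv (row e) ≤ T ∧
              e ∉ cl r ((cls c j).filter fun x => ordL row lv x < ordL row lv e)
          · rw [if_pos hc]
            by_cases hj : (c e : ℕ) = j
            · have hh : e ∈ hits r (ordL row lv) W' := by
                refine mem_filter.2 ⟨mem_rs.2 ⟨by simpa [cls] using hj, by simpa using hc.1⟩,
                  fun h => hc.2 (hr.cl_mono (fun x hx => ?_) h)⟩
                exact mem_filter.2 ⟨(mem_rs.1 (mem_filter.1 hx).1).1, (mem_filter.1 hx).2⟩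
              rw [if_pos hh, if_pos hj]
            · rw [if_neg hj]
              split_ifs <;> linarith
          · rw [if_neg hc]
            split_ifs <;> norm_num

/-- The weight of an element in the coding of a closed set. -/
noncomputable def gB (r : Finset P → ℕ) (row : P → ι) (I : Finset ι) (e : P) (b : P → Fin 2) : ℝ :=
  if row e ∈ I then
    (if e ∈ cl r ((cls b 1).filter fun x => ordL row 0 x < ordL row 0 e) then
      (if (b e : ℕ) = 1 then 1 else 0) else 1 / 2)
  else (if (b e : ℕ) = 1 then 0 else 1)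

theorem gB_nonneg (I : Finset ι) (e : P) (b : P → Fin 2) : 0 ≤ gB r row I e b := by
  unfold gB
  split_ifs <;> positivity

theorem sum_gB (I : Finset ι) : ∑ b : P → Fin 2, ∏ e, gB r row I e b ≤ 1 := by
  have h := sum_prod_le (ordL row 0) (ordL_inj 0) (gB r row I) 1 zero_le_one (gB_nonneg I) ?_ ?_
  · simpa using h
  · intro e e' c a h
    unfold gB
    rw [cls_update _ c 1 a h.le, update_of_ne (by rintro rfl; omega)]
  · intro e c
    unfold gB
    simp only [cls_update _ c 1 _ le_rfl, update_self]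
    split_ifs with h h' <;> rw [Fin.sum_univ_two] <;> norm_num

theorem RankFn.exists_gB (hr : RankFn r) {k : ℕ} (hk : Fintype.card ι = k) (W : Finset P)
    (I : Finset ι) (h : 1 ≤ df r row W I) :
    ∃ b : P → Fin 2, rs row univ I \ cls b 1 = cut r row W I ∧
      (1 / 2 : ℝ) ^ k * (1 / 2) ^ (cut r row W I).card ≤ ∏ e, gB r row I e b := by
  let b : P → Fin 2 := fun e => if row e ∈ I ∧ e ∈ cl r (rs row W I) then 1 else 0
  have hb : ∀ e, (b e : ℕ) = 1 ↔ row e ∈ I ∧ e ∈ cl r (rs row W I) := by
    intro e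
    simp only [b]
    split_ifs with h <;> simp [h]
  have hb' : ∀ e, e ∈ cls b 1 ↔ row e ∈ I ∧ e ∈ cl r (rs row W I) := by
    intro e
    rw [← hb]
    simp only [cls, mem_filter, mem_univ, true_and]
  have hsub : cls b 1 ⊆ cl r (rs row W I) := fun e he => ((hb' e).1 he).2
  refine ⟨b, ?_, ?_⟩
  · ext e
    simp only [cut, mem_sdiff, mem_rs, mem_univ, true_and, hb']
    tauto
  have hH : (hits r (ordL row 0) (cls b 1)).card ≤ k := by
    have h1 := hr.hits_le (ordL row 0) (ordL_inj 0) (cls b 1)
    have h2 := hr.le_of_subset_cl hsub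
    have h3 := card_le_univ I
    unfold df at h
    omega
  calc (1 / 2 : ℝ) ^ k * (1 / 2) ^ (cut r row W I).card
      ≤ (1 / 2 : ℝ) ^ (hits r (ordL row 0) (cls b 1)).card * (1 / 2) ^ (cut r row W I).card :=
        mul_le_mul_of_nonneg_right (pow_le_pow_of_le_one (by norm_num) (by norm_num) hH)
          (by positivity)
    _ = ∏ e, (if e ∈ hits r (ordL row 0) (cls b 1) then (1 / 2 : ℝ) else 1) *
          (if e ∈ cut r row W I then (1 / 2 : ℝ) else 1) := by
        rw [prod_mul_distrib, prod_ite_pow, prod_ite_pow]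
    _ ≤ _ := by
        refine prod_le_prod (fun e _ => by split_ifs <;> positivity) fun e _ => ?_
        unfold gB
        by_cases hI : row e ∈ I
        · rw [if_pos hI]
          by_cases hc : e ∈ cl r ((cls b 1).filter fun x => ordL row 0 x < ordL row 0 e)
          · rw [if_pos hc, if_pos ((hb e).2
              ⟨hI, hr.cl_subset_cl ((filter_subset _ _).trans hsub) hc⟩)]
            split_ifs <;> norm_num
          · rw [if_neg hc]
            by_cases he : e ∈ cls b 1
            · rw [if_pos (show e ∈ hits r (ordL row 0) (cls b 1) from mem_filter.2 ⟨he, hc⟩)]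
              split_ifs <;> norm_num
            · have : e ∈ cut r row W I :=
                mem_sdiff.2 ⟨mem_rs.2 ⟨mem_univ _, hI⟩, fun h => he ((hb' e).2 ⟨hI, h⟩)⟩
              rw [if_pos this]
              split_ifs <;> norm_num
        · rw [if_neg hI, if_neg fun h => hI ((hb e).1 h).1]
          split_ifs <;> norm_num

/-- The reservoir. -/
def rsv {n : ℕ} (c : P → Fin n) (m : ℕ) : Finset P := univ.filter fun e => m ≤ (c e : ℕ)

/-- The weight of an element of a cut. -/
noncomputable def gC (Y : Finset P) (m : ℕ) {n : ℕ} (e : P) (c : P → Fin n) : ℝ :=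
  if e ∈ Y then (if (c e : ℕ) < m then 512 else 1 / 2) else 1

theorem gC_nonneg (Y : Finset P) (m : ℕ) {n : ℕ} (e : P) (c : P → Fin n) : 0 ≤ gC Y m e c := by
  unfold gC
  split_ifs <;> positivity

theorem sum_gC (Y : Finset P) {m : ℕ} (hm : 1 ≤ m) :
    ∑ c : P → Fin (1024 * m), ∏ e, gC Y m e c ≤ ((1024 * m : ℕ) : ℝ) ^ Fintype.card P := by
  have : Nonempty (Fin (1024 * m)) := ⟨⟨0, by omega⟩⟩
  refine sum_prod_le (fun e => Fintype.equivFin P e)
    (fun a b h => (Fintype.equivFin P).injective (Fin.ext h)) _ _ (Nat.cast_nonneg _)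
    (gC_nonneg Y m) ?_ ?_
  · intro e e' c a h
    unfold gC
    rw [update_of_ne (by rintro rfl; omega)]
  · intro e c
    unfold gC
    simp only [update_self]
    split_ifs with h
    · have h1 : ∀ a : Fin (1024 * m), (if (a : ℕ) < m then (512 : ℝ) else 1 / 2) ≤
          1 / 2 + if (a : ℕ) < m then 512 else 0 := by
        intro a
        split_ifs <;> norm_num
      refine (sum_le_sum fun a _ => h1 a).trans ?_
      rw [sum_add_distrib, ← sum_filter]
      have h2 : (univ.filter fun a : Fin (1024 * m) => (a : ℕ) < m).card ≤ m := by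
        rw [Fin.card_filter_val_lt]
        exact min_le_right _ _
      have h3 : ((univ.filter fun a : Fin (1024 * m) => (a : ℕ) < m).card : ℝ) ≤ m := by
        exact_mod_cast h2
      simp only [sum_const, card_univ, Fintype.card_fin, nsmul_eq_mul]
      push_cast
      linarith
    · simp

theorem le_prod_gC (Y : Finset P) (m : ℕ) {n : ℕ} (c : P → Fin n)
    (h : 2 * (Y ∩ rsv c m).card < Y.card) : (16 : ℝ) ^ Y.card ≤ ∏ e, gC Y m e c := by
  have h1 : ∏ e, gC Y m e c = 1024 ^ (Y \ rsv c m).card * (1 / 2) ^ Y.card := by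
    rw [← prod_ite_pow, ← prod_ite_pow, ← prod_mul_distrib]
    refine prod_congr rfl fun e _ => ?_
    unfold gC
    by_cases he : e ∈ Y
    · by_cases hc : (c e : ℕ) < m
      · rw [if_pos he, if_pos hc, if_pos he, if_pos (mem_sdiff.2 ⟨he, by simpa [rsv] using hc⟩)]
        norm_num
      · rw [if_pos he, if_neg hc, if_pos he, if_neg, one_mul]
        exact fun h => (mem_sdiff.1 h).2 (by simpa [rsv] using hc)
    · rw [if_neg he, if_neg he, if_neg fun h => he (mem_sdiff.1 h).1, one_mul]
  have h2 := card_sdiff_add_card_inter Y (rsv c m)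
  have h3 : (2 : ℝ) ^ (5 * Y.card) ≤ 2 ^ (10 * (Y \ rsv c m).card) :=
    pow_le_pow_right₀ one_le_two (by omega)
  rw [pow_mul, pow_mul] at h3
  rw [h1]
  calc (16 : ℝ) ^ Y.card = (2 ^ 5) ^ Y.card * (1 / 2) ^ Y.card := by
        rw [← mul_pow]; norm_num
    _ ≤ (2 ^ 10) ^ (Y \ rsv c m).card * (1 / 2) ^ Y.card :=
        mul_le_mul_of_nonneg_right h3 (by positivity)
    _ = _ := by norm_num

theorem RankFn.exists_colouring (hr : RankFn r) {k m T s : ℕ} (hk : Fintype.card ι = k)
    (hk1 : 1 ≤ k) (hrow : ∀ i, (univ.filter fun e => row e = i).card = k)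
    (hcov : ∀ X, X.card ≤ k * r X) (hm : 1 ≤ m) (hmk : m ≤ k) (hs : 16 * (T + 2) ≤ 2 ^ s) :
    ∃ c : P → Fin (1024 * m), (∀ j < m, NC r row T (2 * (1024 * m) * (k * s)) (cls c j)) ∧
      Res r row (rsv c m) := by
  set n := 1024 * m with hn
  set N := 2 * n * (k * s) with hN
  have hn0 : (0 : ℝ) < n := by exact_mod_cast (by omega : 0 < n)
  set y : ℝ := 1 + 1 / (2 * n) with hy
  have hy0 : 0 < y := by positivity
  let L : Finset (ι → ℕ) := Fintype.piFinset fun _ => range (T + 2)
  let ΦA : (P → Fin n) → ℝ := fun c =>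
    ∑ j ∈ range m, ∑ lv ∈ L, ((1 / 2 : ℝ) ^ k * y ^ N)⁻¹ * ∏ e, gA r row T lv j e c
  let κ : Finset ι → (P → Fin 2) → ℝ := fun I b =>
    if k ≤ (rs row univ I \ cls b 1).card then
      (∏ e, gB r row I e b) * ((1 / 2 : ℝ) ^ k * 8 ^ (rs row univ I \ cls b 1).card)⁻¹ else 0
  have hκ : ∀ I b, 0 ≤ κ I b := by
    intro I b
    have := prod_nonneg fun e (_ : e ∈ univ) => gB_nonneg (r := r) (row := row) I e b
    simp only [κ]
    split_ifs <;> positivity
  let ΦB : (P → Fin n) → ℝ := fun c =>
    ∑ I : Finset ι, ∑ b : P → Fin 2, κ I b * ∏ e, gC (rs row univ I \ cls b 1) m e c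
  have tA : ∀ (c : P → Fin n) j lv,
      0 ≤ ((1 / 2 : ℝ) ^ k * y ^ N)⁻¹ * ∏ e, gA r row T lv j e c := fun c j lv =>
    mul_nonneg (by positivity) (prod_nonneg fun e _ => gA_nonneg T lv j e c)
  have tB : ∀ (c : P → Fin n) I b,
      0 ≤ κ I b * ∏ e, gC (rs row univ I \ cls b 1) m e c := fun c I b =>
    mul_nonneg (hκ I b) (prod_nonneg fun e _ => gC_nonneg _ m e c)
  have hA0 : ∀ c, 0 ≤ ΦA c := fun c => sum_nonneg fun j _ => sum_nonneg fun lv _ => tA c j lv
  have hB0 : ∀ c, 0 ≤ ΦB c := fun c => sum_nonneg fun I _ => sum_nonneg fun b _ => tB c I b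
  have hM : (0 : ℝ) < (n : ℝ) ^ Fintype.card P := by positivity
  have hyN : (2 : ℝ) ^ (k * s) ≤ y ^ N := by
    rw [hN, pow_mul y]
    refine pow_le_pow_left₀ (by norm_num) ?_ _
    have h := one_add_mul_le_pow (a := 1 / (2 * (n : ℝ)))
      (le_trans (by norm_num) (by positivity : (0 : ℝ) ≤ 1 / (2 * (n : ℝ)))) (2 * n)
    have h2 : ((2 * n : ℕ) : ℝ) * (1 / (2 * (n : ℝ))) = 1 := by push_cast; field_simp
    rw [h2] at h
    linarith
  have hA : ∑ c, ΦA c ≤ 1 / 4 * (n : ℝ) ^ Fintype.card P := by
    have h1 : ∑ c, ΦA c ≤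
        ∑ j ∈ range m, ∑ lv ∈ L, ((1 / 2 : ℝ) ^ k * y ^ N)⁻¹ * (n : ℝ) ^ Fintype.card P := by
      simp only [ΦA]
      rw [sum_comm]
      refine sum_le_sum fun j hj => ?_
      rw [sum_comm]
      refine sum_le_sum fun lv _ => ?_
      rw [← mul_sum]
      exact mul_le_mul_of_nonneg_left (sum_gA T lv (by have := mem_range.1 hj; omega))
        (by positivity)
    refine h1.trans ?_
    simp only [sum_const, card_range, nsmul_eq_mul, L, Fintype.card_piFinset, prod_const,
      card_univ, hk]
    rw [← mul_assoc, ← mul_assoc]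
    refine mul_le_mul_of_nonneg_right ?_ hM.le
    rw [← div_eq_mul_inv, div_le_iff₀ (by positivity)]
    have h2 : (m : ℝ) ≤ 2 ^ k := by
      exact_mod_cast hmk.trans (Nat.lt_two_pow_self).le
    have h3 : ((16 * (T + 2) : ℕ) : ℝ) ^ k ≤ y ^ N := by
      refine le_trans ?_ hyN
      rw [mul_comm k s, pow_mul]
      exact pow_le_pow_left₀ (Nat.cast_nonneg _) (by exact_mod_cast hs) _
    have h4 : (4 : ℝ) ≤ 4 ^ k := le_self_pow₀ (by norm_num) (by omega)
    have h5 : (0 : ℝ) < ((T : ℝ) + 2) ^ k := by positivity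
    have h6 : (1 / 2 : ℝ) ^ k * 16 ^ k = 2 ^ k * 4 ^ k := by
      rw [← mul_pow, ← mul_pow]; norm_num
    push_cast at h3 ⊢
    rw [mul_pow] at h3
    calc (m : ℝ) * ((T : ℝ) + 2) ^ k ≤ 2 ^ k * ((T : ℝ) + 2) ^ k :=
          mul_le_mul_of_nonneg_right h2 h5.le
      _ = 1 / 4 * (2 ^ k * 4 * ((T : ℝ) + 2) ^ k) := by ring
      _ ≤ 1 / 4 * (2 ^ k * 4 ^ k * ((T : ℝ) + 2) ^ k) := by gcongr
      _ = 1 / 4 * ((1 / 2 : ℝ) ^ k * (16 ^ k * ((T : ℝ) + 2) ^ k)) := by rw [← h6]; ring
      _ ≤ _ := by gcongr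
  have hB : ∑ c, ΦB c ≤ 1 / 2 * (n : ℝ) ^ Fintype.card P := by
    have h1 : ∑ c, ΦB c ≤ ∑ I : Finset ι, (1 / 4 : ℝ) ^ k * (n : ℝ) ^ Fintype.card P := by
      simp only [ΦB]
      rw [sum_comm]
      refine sum_le_sum fun I _ => ?_
      rw [sum_comm]
      have h2 : ∀ b : P → Fin 2,
          ∑ c : P → Fin n, κ I b * ∏ e, gC (rs row univ I \ cls b 1) m e c ≤
            (∏ e, gB r row I e b) * ((1 / 4 : ℝ) ^ k * (n : ℝ) ^ Fintype.card P) := by
        intro b
        have hp := prod_nonneg fun e (_ : e ∈ univ) => gB_nonneg (r := r) (row := row) I e b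
        rw [← mul_sum, ← mul_assoc]
        refine mul_le_mul ?_ (sum_gC _ hm) (sum_nonneg fun c _ =>
          prod_nonneg fun e _ => gC_nonneg _ m e c) (by positivity)
        simp only [κ]
        split_ifs with h
        · refine mul_le_mul_of_nonneg_left ?_ hp
          rw [inv_le_comm₀ (by positivity) (by positivity)]
          calc ((1 / 4 : ℝ) ^ k)⁻¹ = (1 / 2) ^ k * 8 ^ k := by
                rw [← inv_pow, ← mul_pow]; norm_num
            _ ≤ _ := mul_le_mul_of_nonneg_left (pow_le_pow_right₀ (by norm_num) h)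
                (by positivity)
        · positivity
      refine (sum_le_sum fun b _ => h2 b).trans ?_
      rw [← sum_mul]
      exact mul_le_of_le_one_left (by positivity) (sum_gB I)
    refine h1.trans ?_
    simp only [sum_const, card_univ, Fintype.card_finset, hk, nsmul_eq_mul]
    rw [← mul_assoc]
    refine mul_le_mul_of_nonneg_right ?_ hM.le
    push_cast
    rw [← mul_pow]
    calc ((2 : ℝ) * (1 / 4)) ^ k = (1 / 2) ^ k := by norm_num
      _ ≤ (1 / 2) ^ 1 := pow_le_pow_of_le_one (by norm_num) (by norm_num) hk1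
      _ = _ := by norm_num
  obtain ⟨c, -, hc⟩ := exists_lt_of_sum_lt (s := (univ : Finset (P → Fin n)))
    (f := fun c => ΦA c + ΦB c) (g := fun _ => (1 : ℝ)) (by
      rw [sum_add_distrib]
      simp only [sum_const, card_univ, Fintype.card_fun, Fintype.card_fin, nsmul_eq_mul, mul_one]
      push_cast
      linarith)
  refine ⟨c, fun j hj lv hlv hr' => ?_, fun W I hI => ?_⟩
  · by_contra hcon
    have h1 := hr.le_prod_gA lv j c (hk ▸ hr') (not_lt.1 hcon)
    have h2 : 1 ≤ ((1 / 2 : ℝ) ^ k * y ^ N)⁻¹ * ∏ e, gA r row T lv j e c := by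
      rw [← div_eq_inv_mul, le_div_iff₀ (by positivity), one_mul]
      exact h1
    have h3 : lv ∈ L := Fintype.mem_piFinset.2 fun i => mem_range.2 (by have := hlv i; omega)
    have h4 := single_le_sum (fun lv _ => tA c j lv) h3
    have h5 := single_le_sum (fun j _ => sum_nonneg fun lv (_ : lv ∈ L) => tA c j lv)
      (mem_range.2 hj)
    have h6 := hB0 c
    simp only [ΦA] at hc
    linarith
  · by_contra hcon
    obtain ⟨b, hb, h1⟩ := hr.exists_gB hk W I hI
    have h2 := le_prod_gC (cut r row W I) m c (not_le.1 hcon)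
    have h3 : k ≤ (cut r row W I).card := by
      have h := hr.cut_card hrow hcov W I
      have h' : (k : ℤ) * 1 ≤ k * df r row W I := mul_le_mul_of_nonneg_left hI (by positivity)
      omega
    have h4 : 1 ≤ κ I b * ∏ e, gC (rs row univ I \ cls b 1) m e c := by
      simp only [κ]
      rw [hb, if_pos h3]
      calc (1 : ℝ) = (1 / 2 : ℝ) ^ k * (1 / 2) ^ (cut r row W I).card *
            ((1 / 2 : ℝ) ^ k * 8 ^ (cut r row W I).card)⁻¹ * 16 ^ (cut r row W I).card := by
            have h8 : (16 : ℝ) ^ (cut r row W I).card =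
                2 ^ (cut r row W I).card * 8 ^ (cut r row W I).card := by
              rw [← mul_pow]; norm_num
            rw [h8, one_div, inv_pow, inv_pow]
            field_simp
        _ ≤ _ := by
            refine mul_le_mul (mul_le_mul_of_nonneg_right h1 (by positivity)) h2 (by positivity) ?_
            exact mul_nonneg (le_trans (by positivity) h1) (by positivity)
    have h5 := single_le_sum (fun b _ => tB c I b) (mem_univ b)
    have h6 := single_le_sum (fun I _ => sum_nonneg fun b (_ : b ∈ univ) => tB c I b)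
      (mem_univ I)
    have h7 := hA0 c
    simp only [ΦB] at hc
    linarith

/-- Many disjoint systems of representatives, abstract form. -/
theorem RankFn.many (hr : RankFn r) {k m : ℕ} (hk : Fintype.card ι = k) (hk2 : 2 ≤ k)
    (hrow : ∀ i, (univ.filter fun e => row e = i).card = k) (hcov : ∀ X, X.card ≤ k * r X)
    (hm : (m : ℝ) ≤ 1 / 1100 * (Real.sqrt k / Real.log k)) :
    ∃ f : Fin m → ι → P, (∀ t i, row (f t i) = i) ∧ (∀ t, k ≤ r (univ.image (f t))) ∧
      ∀ t t' i, f t i = f t' i → t = t' := by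
  rcases Nat.eq_zero_or_pos m with rfl | hm1
  · exact ⟨fun t => t.elim0, fun t => t.elim0, fun t => t.elim0, fun t => t.elim0⟩
  set s := Nat.log 2 k + 6 with hs
  set u := 8 * (1024 * m) * s with hu
  have hk0 : (2 : ℝ) ≤ k := by exact_mod_cast hk2
  have hl2 : (2 / 3 : ℝ) ≤ Real.log 2 := by have := Real.log_two_gt_d9; linarith
  have hl : (2 / 3 : ℝ) ≤ Real.log k := hl2.trans (Real.log_le_log two_pos hk0)
  have hs1 : (s : ℝ) ≤ 11 * Real.log k := by
    have h1 : ((2 ^ Nat.log 2 k : ℕ) : ℝ) ≤ k := by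
      exact_mod_cast Nat.pow_log_le_self 2 (by omega)
    have h2 := Real.log_le_log (by positivity) h1
    push_cast at h2
    rw [Real.log_pow] at h2
    have h3 : (Nat.log 2 k : ℝ) * (2 / 3) ≤ Nat.log 2 k * Real.log 2 :=
      mul_le_mul_of_nonneg_left hl2 (Nat.cast_nonneg _)
    rw [hs]
    push_cast
    linarith
  have hm2 : (m : ℝ) * Real.log k ≤ 1 / 1100 * Real.sqrt k := by
    rw [← mul_div_assoc, le_div_iff₀ (by linarith)] at hm
    exact hm
  have hm3 : ((m : ℝ) * Real.log k) ^ 2 ≤ (1 / 1100) ^ 2 * k := by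
    have := pow_le_pow_left₀ (by positivity) hm2 2
    rwa [mul_pow (1 / 1100 : ℝ), Real.sq_sqrt (by positivity)] at this
  have hmain : 4 * (m : ℝ) * (u * (1 + Real.log k)) ≤ k := by
    have h1 : 1 + Real.log k ≤ 3 * Real.log k := by linarith
    have hm0 : (0 : ℝ) ≤ m := Nat.cast_nonneg _
    calc 4 * (m : ℝ) * (u * (1 + Real.log k))
        = 4 * (m : ℝ) * (8 * (1024 * m) * s * (1 + Real.log k)) := by rw [hu]; push_cast; ring
      _ ≤ 4 * (m : ℝ) * (8 * (1024 * m) * (11 * Real.log k) * (3 * Real.log k)) := by gcongr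
      _ = 1081344 * ((m : ℝ) * Real.log k) ^ 2 := by ring
      _ ≤ 1081344 * ((1 / 1100) ^ 2 * k) := by gcongr
      _ ≤ k := by nlinarith
  have huk : u ≤ k := by
    have h1 : (1 : ℝ) ≤ m := by exact_mod_cast hm1
    have h2 : (0 : ℝ) ≤ u := Nat.cast_nonneg _
    have h3 : (u : ℝ) ≤ u * (1 + Real.log k) := le_mul_of_one_le_right h2 (by linarith)
    have h4 : (u : ℝ) * (1 + Real.log k) ≤ 4 * (m : ℝ) * (u * (1 + Real.log k)) :=
      le_mul_of_one_le_left (h2.trans h3) (by linarith)
    exact_mod_cast h3.trans (h4.trans hmain)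
  have hmk : m ≤ k := by
    refine le_trans ?_ huk
    calc m ≤ 8 * (1024 * m) * 1 := by omega
      _ ≤ u := Nat.mul_le_mul_left _ (by omega)
  have h2s : 16 * (u + 2) ≤ 2 ^ s := by
    have h1 := Nat.lt_pow_succ_log_self (b := 2) (by norm_num) k
    rw [hs, pow_add]
    rw [pow_succ] at h1
    omega
  obtain ⟨c, hNC, hR⟩ := hr.exists_colouring (T := u) hk (by omega) hrow hcov hm1 hmk h2s
  obtain ⟨Q, hQ, hdis⟩ := hr.complete_all (W := cls c) hk hrow hcov hNC hR
    (le_of_eq (by rw [hu]; ring)) hmain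
  choose f hf hf' using fun t : Fin m => hr.rado (row := row) _ (hQ t t.is_lt).2
  refine ⟨f, fun t i => (hf t i).1, fun t => hk ▸ hf' t, fun t t' i h => ?_⟩
  by_contra hne
  have hne' : (t : ℕ) ≠ t' := fun h => hne (Fin.ext h)
  have h1 := (hf t i).2
  have h2 := (hf t' i).2
  rw [← h] at h2
  have hq : ∀ a : Fin m, f t i ∈ Q a → m ≤ (c (f t i) : ℕ) := fun a ha => by
    simpa [rsv] using (hQ a a.is_lt).1 ha
  have hc : ∀ a : Fin m, f t i ∈ cls c a → (c (f t i) : ℕ) = a := fun a ha => by
    simpa [cls] using ha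
  rcases mem_union.1 h1 with h1 | h1 <;> rcases mem_union.1 h2 with h2 | h2
  · exact hne' ((hc t h1).symm.trans (hc t' h2))
  · have := hc t h1; have := hq t' h2; omega
  · have := hc t' h2; have := hq t h1; omega
  · exact disjoint_left.1 (hdis t t.is_lt t' t'.is_lt hne') h1 h2

end Pool.Agent.P.MP_5f88fa_co
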