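import Mathlib
import Pool.Agent.P.MP_5f88fa_co.Prob
import Pool.Agent.P.MP_5f88fa_co.Est

/-! Random levels are good. -/

namespace Pool.Agent.P.MP_5f88fa_co

open Finset Function

set_option linter.unusedSectionVars false

variable {P ι : Type} [Fintype P] [DecidableEq P] [Fintype ι] [DecidableEq ι]
variable {r : Finset P → ℕ} {row : P → ι}

/-- A potential that controls the reservoir. -/
theorem RankFn.exists_pot (hr : RankFn r) {k m : ℕ} (hk : Fintype.card ι = k)
    (hk1 : 1 ≤ k) (hrow : ∀ i, (univ.filter fun e => row e = i).card = k)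
    (hcov : ∀ X, X.card ≤ k * r X) (hm : 1 ≤ m) :
    ∃ Φ : (P → Fin (1024 * m)) → ℝ, (∀ c, 0 ≤ Φ c) ∧
      ∑ c, Φ c ≤ 1 / 2 * ((1024 * m : ℕ) : ℝ) ^ Fintype.card P ∧
      ∀ c, Φ c < 1 → Res r row (rsv c m) := by
  set n := 1024 * m with hn
  have hn0 : (0 : ℝ) < n := by exact_mod_cast (by omega : 0 < n)
  let κ : Finset ι → (P → Fin 2) → ℝ := fun I b =>
    if k ≤ (rs row univ I \ cls b 1).card then
      (∏ e, gB r row I e b) * ((1 / 2 : ℝ) ^ k * 8 ^ (rs row univ I \ cls b 1).card)⁻¹ else 0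
  have hκ : ∀ I b, 0 ≤ κ I b := by
    intro I b
    have := prod_nonneg fun e (_ : e ∈ univ) => gB_nonneg (r := r) (row := row) I e b
    simp only [κ]
    split_ifs <;> positivity
  let ΦB : (P → Fin n) → ℝ := fun c =>
    ∑ I : Finset ι, ∑ b : P → Fin 2, κ I b * ∏ e, gC (rs row univ I \ cls b 1) m e c
  have tB : ∀ (c : P → Fin n) I b,
      0 ≤ κ I b * ∏ e, gC (rs row univ I \ cls b 1) m e c := fun c I b =>
    mul_nonneg (hκ I b) (prod_nonneg fun e _ => gC_nonneg _ m e c)
  have hM : (0 : ℝ) < (n : ℝ) ^ Fintype.card P := by positivity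
  refine ⟨ΦB, fun c => sum_nonneg fun I _ => sum_nonneg fun b _ => tB c I b, ?_,
    fun c hc W I hI => ?_⟩
  · have h1 : ∑ c, ΦB c ≤ ∑ I : Finset ι, (1 / 4 : ℝ) ^ k * (n : ℝ) ^ Fintype.card P := by
      simp only [ΦB]
      rw [sum_comm]
      refine sum_le_sum fun I _ => ?_
      rw [sum_comm]
      have h2 : ∀ b : P → Fin 2,
          ∑ c : P → Fin n, κ I b * ∏ e, gC (rs row univ I \ cls b 1) m e c ≤
            (∏ e, gB r row I e b) * ((1 / 4 : ℝ) ^ k * (n : ℝ) ^ Fintype.card P) := by
        intro b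
        have hp := prod_nonneg fun e (_ : e ∈ univ) => gB_nonneg (r := r) (row := row) I e b
        rw [← mul_sum, ← mul_assoc]
        refine mul_le_mul ?_ (sum_gC _ hm) (sum_nonneg fun c _ =>
          prod_nonneg fun e _ => gC_nonneg _ m e c) (by positivity)
        simp only [κ]
        split_ifs with h
        · refine mul_le_mul_of_nonneg_left ?_ hp
          rw [inv_le_comm₀ (by positivity) (by positivity)]
          calc ((1 / 4 : ℝ) ^ k)⁻¹ = (1 / 2) ^ k * 8 ^ k := by
                rw [← inv_pow, ← mul_pow]; norm_num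
            _ ≤ _ := mul_le_mul_of_nonneg_left (pow_le_pow_right₀ (by norm_num) h)
                (by positivity)
        · positivity
      refine (sum_le_sum fun b _ => h2 b).trans ?_
      rw [← sum_mul]
      exact mul_le_of_le_one_left (by positivity) (sum_gB I)
    refine h1.trans ?_
    simp only [sum_const, card_univ, Fintype.card_finset, hk, nsmul_eq_mul]
    rw [← mul_assoc]
    refine mul_le_mul_of_nonneg_right ?_ hM.le
    push_cast
    rw [← mul_pow]
    calc ((2 : ℝ) * (1 / 4)) ^ k = (1 / 2) ^ k := by norm_num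
      _ ≤ (1 / 2) ^ 1 := pow_le_pow_of_le_one (by norm_num) (by norm_num) hk1
      _ = _ := by norm_num
  · by_contra hcon
    obtain ⟨b, hb, h1⟩ := hr.exists_gB hk W I hI
    have h2 := le_prod_gC (cut r row W I) m c (not_le.1 hcon)
    have h3 : k ≤ (cut r row W I).card := by
      have h := hr.cut_card hrow hcov W I
      have h' : (k : ℤ) * 1 ≤ k * df r row W I := mul_le_mul_of_nonneg_left hI (by positivity)
      omega
    have h4 : 1 ≤ κ I b * ∏ e, gC (rs row univ I \ cls b 1) m e c := by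
      simp only [κ]
      rw [hb, if_pos h3]
      calc (1 : ℝ) = (1 / 2 : ℝ) ^ k * (1 / 2) ^ (cut r row W I).card *
            ((1 / 2 : ℝ) ^ k * 8 ^ (cut r row W I).card)⁻¹ * 16 ^ (cut r row W I).card := by
            have h8 : (16 : ℝ) ^ (cut r row W I).card =
                2 ^ (cut r row W I).card * 8 ^ (cut r row W I).card := by
              rw [← mul_pow]; norm_num
            rw [h8, one_div, inv_pow, inv_pow]
            field_simp
        _ ≤ _ := by
            refine mul_le_mul (mul_le_mul_of_nonneg_right h1 (by positivity)) h2 (by positivity) ?_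
            exact mul_nonneg (le_trans (by positivity) h1) (by positivity)
    have h5 := single_le_sum (fun b _ => tB c I b) (mem_univ b)
    have h6 := single_le_sum (fun I _ => sum_nonneg fun b (_ : b ∈ univ) => tB c I b)
      (mem_univ I)
    simp only [ΦB] at hc
    linarith

/-- The lower tail for the number of elements of `B` with a colour in `A`. -/
theorem sum_exp_le {n b : ℕ} (hn : 0 < n) (A : Finset (Fin n)) (hb : b ≤ A.card) (B : Finset P) :
    ∑ c : P → Fin n, Real.exp (b / (2 * n) * B.card - (B.filter fun e => c e ∈ A).card) ≤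
      (n : ℝ) ^ Fintype.card P := by
  have hn0 : (0 : ℝ) < n := by exact_mod_cast hn
  set x : ℝ := b / (2 * n) with hx
  let g : P → Fin n → ℝ := fun e a =>
    Real.exp (if e ∈ B then x - (if a ∈ A then 1 else 0) else 0)
  have h1 : ∀ c : P → Fin n,
      Real.exp (x * B.card - (B.filter fun e => c e ∈ A).card) = ∏ e, g e (c e) := by
    intro c
    simp only [g]
    rw [← Real.exp_sum, sum_ite_mem, univ_inter, sum_sub_distrib, sum_const, nsmul_eq_mul,
      sum_boole, mul_comm]
  simp only [h1]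
  rw [← Fintype.piFinset_univ, ← prod_univ_sum, ← card_univ, ← prod_const]
  refine prod_le_prod (fun e _ => sum_nonneg fun a _ => (Real.exp_pos _).le) fun e _ => ?_
  simp only [g]
  split_ifs with he
  · have h2 : ∀ a : Fin n, Real.exp (x - (if a ∈ A then 1 else 0)) ≤
        Real.exp x * (1 - if a ∈ A then 1 / 2 else 0) := by
      intro a
      split_ifs
      · rw [Real.exp_sub, div_eq_mul_inv]
        refine mul_le_mul_of_nonneg_left ?_ (Real.exp_pos _).le
        rw [inv_le_comm₀ (Real.exp_pos _) (by norm_num)]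
        have := Real.add_one_le_exp 1
        norm_num at this ⊢
        exact this
      · simp
    refine (sum_le_sum fun a _ => h2 a).trans ?_
    rw [← mul_sum, sum_sub_distrib, sum_ite_mem, univ_inter]
    simp only [sum_const, card_univ, Fintype.card_fin, nsmul_eq_mul, mul_one]
    have h3 : (b : ℝ) ≤ A.card := by exact_mod_cast hb
    have h4 : (n : ℝ) - A.card * (1 / 2) ≤ n * Real.exp (-x) := by
      have h5 := mul_le_mul_of_nonneg_left (Real.add_one_le_exp (-x)) hn0.le
      have h6 : (n : ℝ) * (-x + 1) = n - b / 2 := by rw [hx]; field_simp; ring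
      linarith
    calc _ ≤ Real.exp x * (n * Real.exp (-x)) :=
          mul_le_mul_of_nonneg_left h4 (Real.exp_pos _).le
      _ = n := by rw [Real.exp_neg]; field_simp
  · simp

theorem RankFn.mem_cl_hits (hr : RankFn r) (ord : P → ℕ) (W : Finset P) :
    ∀ e ∈ W, e ∈ cl r ((hits r ord W).filter fun x => ord x ≤ ord e) := by
  have main : ∀ j, ∀ e ∈ W, ord e = j →
      e ∈ cl r ((hits r ord W).filter fun x => ord x ≤ ord e) := by
    intro j
    induction j using Nat.strong_induction_on with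
    | _ j ih =>
    intro e he hj
    by_cases h : e ∈ hits r ord W
    · exact hr.subset_cl _ (mem_filter.2 ⟨h, le_rfl⟩)
    · have h1 : e ∈ cl r (W.filter fun x => ord x < ord e) := by
        by_contra hn
        exact h (mem_filter.2 ⟨he, hn⟩)
      refine hr.cl_subset_cl (fun x hx => ?_) h1
      obtain ⟨h2, h3⟩ := mem_filter.1 hx
      refine hr.cl_mono (fun y hy => ?_) (ih _ (hj ▸ h3) x h2 rfl)
      exact mem_filter.2 ⟨(mem_filter.1 hy).1, (mem_filter.1 hy).2.trans h3.le⟩
  exact fun e he => main _ e he rfl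

theorem ordL_le' (lv : ι → ℕ) {a b : P} (h : ordL row lv a ≤ ordL row lv b) :
    lv (row a) ≤ lv (row b) := by
  rcases h.lt_or_eq with h | h
  · exact ordL_le lv h
  · rw [ordL_inj lv h]

/-- The missed set lies in a member of a small family that avoids `W`. -/
theorem RankFn.exists_code (hr : RankFn r) {k : ℕ} (hk : Fintype.card ι = k)
    (hle : ∀ A, r A ≤ k) (q : ι → ℕ) (W : Finset P) :
    ∃ lv ∈ Fintype.piFinset fun _ : ι => range k,
      ∃ H ∈ (range (k + 1)).biUnion fun j => powersetCard j (univ : Finset P),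
        ms r row q W ⊆ ms r row lv H ∧ Disjoint (ms r row lv H) W := by
  let lv : ι → ℕ := fun i => (univ.filter fun j => q j < q i).card
  have h1 : ∀ i j, lv i ≤ lv j → q i ≤ q j := by
    intro i j h
    by_contra hn
    refine absurd h (not_le.2 (card_lt_card ⟨fun x hx => ?_, fun h => ?_⟩))
    · exact mem_filter.2 ⟨mem_univ _, (mem_filter.1 hx).2.trans (not_le.1 hn)⟩
    · exact lt_irrefl _ (mem_filter.1 (h (mem_filter.2 ⟨mem_univ j, not_le.1 hn⟩))).2
  refine ⟨lv, Fintype.mem_piFinset.2 fun i => mem_range.2 ?_, hits r (ordL row lv) W,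
    mem_biUnion.2 ⟨_, mem_range.2 (Nat.lt_succ_of_le
      ((hr.hits_le _ (ordL_inj lv) W).trans (hle W))), mem_powersetCard.2 ⟨subset_univ _, rfl⟩⟩,
    fun y hy => ?_, disjoint_left.2 fun y hy hW => ?_⟩
  · rw [← hk, ← card_univ]
    exact card_lt_card ⟨subset_univ _, fun h => lt_irrefl _ (mem_filter.1 (h (mem_univ i))).2⟩
  · refine mem_filter.2 ⟨mem_univ _, fun h => (mem_filter.1 hy).2 (hr.cl_mono ?_ h)⟩
    exact rs_mono (filter_subset _ _) fun i hi =>
      mem_filter.2 ⟨mem_univ _, h1 _ _ (mem_filter.1 hi).2⟩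
  · refine (mem_filter.1 hy).2 (hr.cl_mono (fun x hx => ?_) (hr.mem_cl_hits (ordL row lv) W y hW))
    exact mem_rs.2 ⟨(mem_filter.1 hx).1,
      mem_filter.2 ⟨mem_univ _, ordL_le' lv (mem_filter.1 hx).2⟩⟩

theorem card_codes {k : ℕ} (hk1 : 1 ≤ k) (hP : Fintype.card P = k * k) :
    ((range (k + 1)).biUnion fun j => powersetCard j (univ : Finset P)).card ≤
      (k + 1) * (k * k) ^ k := by
  refine card_biUnion_le.trans ((sum_le_card_nsmul _ _ ((k * k) ^ k) fun j hj => ?_).trans
    (by simp))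
  rw [card_powersetCard, card_univ, hP]
  exact (Nat.choose_le_pow _ _).trans (Nat.pow_le_pow_right (Nat.mul_pos hk1 hk1)
    (Nat.lt_succ_iff.1 (mem_range.1 hj)))

theorem RankFn.exists_levels (hr : RankFn r) {k M L Λ n : ℕ} (hk : Fintype.card ι = k)
    (hk1 : 1 ≤ k) (hle : ∀ A, r A ≤ k)
    (hrow : ∀ i, (univ.filter fun e => row e = i).card = k) (hcov : ∀ X, X.card ≤ k * r X)
    (hM : 1 ≤ M) (hL : L ≤ k) (hn : n = 1024 * M) (lev : Fin n → ℕ) (b : ℕ → ℕ)
    (hb : ∀ l ≤ L, b l ≤ (univ.filter fun a => lev a = l).card)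
    (htop : ∀ a, lev a = L + 1 ↔ M ≤ (a : ℕ))
    (hΛ : ((4 * ((k + 1) * (k ^ k * ((k + 1) * (k * k) ^ k))) : ℕ) : ℝ) ≤ Real.exp Λ) :
    ∃ lvl : P → ℕ, (∀ l ≤ L, Thin r row (sl lvl l) n (b l) Λ) ∧
      Res r row (sl lvl (L + 1)) := by
  obtain ⟨ΦB, hB0, hB, hB'⟩ : ∃ Φ : (P → Fin n) → ℝ, (∀ c, 0 ≤ Φ c) ∧
      ∑ c, Φ c ≤ 1 / 2 * (n : ℝ) ^ Fintype.card P ∧ ∀ c, Φ c < 1 → Res r row (rsv c M) := by
    subst hn
    exact hr.exists_pot hk hk1 hrow hcov hM
  have hn1 : 0 < n := by omega
  have hn0 : (0 : ℝ) < n := by exact_mod_cast hn1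
  have hP : Fintype.card P = k * k := by
    have := card_rs_univ hrow univ
    rw [card_univ, hk] at this
    rw [← this, ← card_univ]
    congr 1
    ext e
    simp [mem_rs]
  set LV : Finset (ι → ℕ) := Fintype.piFinset fun _ : ι => range k with hLV
  set HH := (range (k + 1)).biUnion fun j => powersetCard j (univ : Finset P) with hHH
  obtain ⟨A, hA1, hA2⟩ : ∃ A : ℕ → Finset (Fin n), (∀ l ≤ L, b l ≤ (A l).card) ∧
      ∀ l, ∀ a ∈ A l, lev a = l :=
    ⟨fun l => univ.filter fun a => lev a = l, hb, fun l a ha => (mem_filter.1 ha).2⟩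
  let w : (P → Fin n) → ℕ → (ι → ℕ) → Finset P → ℝ := fun c l lv H =>
    Real.exp (-Λ) * Real.exp (b l / (2 * n) * (ms r row lv H).card -
      ((ms r row lv H).filter fun e => c e ∈ A l).card)
  have hw : ∀ c l lv H, 0 ≤ w c l lv H := fun c l lv H => by positivity
  let ΦA : (P → Fin n) → ℝ := fun c =>
    ∑ l ∈ range (L + 1), ∑ lv ∈ LV, ∑ H ∈ HH, w c l lv H
  have hA0 : ∀ c, 0 ≤ ΦA c := fun c =>
    sum_nonneg fun l _ => sum_nonneg fun lv _ => sum_nonneg fun H _ => hw c l lv H
  have hMM : (0 : ℝ) < (n : ℝ) ^ Fintype.card P := by positivity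
  have hA : ∑ c, ΦA c ≤ 1 / 4 * (n : ℝ) ^ Fintype.card P := by
    have h1 : ∑ c, ΦA c ≤ ∑ l ∈ range (L + 1), ∑ lv ∈ LV, ∑ H ∈ HH,
        Real.exp (-Λ) * (n : ℝ) ^ Fintype.card P := by
      simp only [ΦA]
      rw [sum_comm]
      refine sum_le_sum fun l hl => ?_
      rw [sum_comm]
      refine sum_le_sum fun lv _ => ?_
      rw [sum_comm]
      refine sum_le_sum fun H _ => ?_
      simp only [w]
      rw [← mul_sum]
      exact mul_le_mul_of_nonneg_left (sum_exp_le hn1 (A l)
        (hA1 l (Nat.lt_succ_iff.1 (mem_range.1 hl))) (ms r row lv H)) (Real.exp_pos _).le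
    refine h1.trans ?_
    simp only [sum_const, card_range, nsmul_eq_mul]
    rw [← mul_assoc, ← mul_assoc, ← mul_assoc]
    refine mul_le_mul_of_nonneg_right ?_ hMM.le
    rw [Real.exp_neg, ← div_eq_mul_inv, div_le_iff₀ (Real.exp_pos _)]
    have h2 : LV.card = k ^ k := by
      rw [hLV, Fintype.card_piFinset, prod_const, card_range, card_univ, hk]
    have h3 : HH.card ≤ (k + 1) * (k * k) ^ k := card_codes hk1 hP
    have h4 : 4 * ((L + 1) * (LV.card * HH.card)) ≤
        4 * ((k + 1) * (k ^ k * ((k + 1) * (k * k) ^ k))) :=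
      Nat.mul_le_mul_left _ (Nat.mul_le_mul (by omega) (Nat.mul_le_mul h2.le h3))
    have h5 := (Nat.cast_le (α := ℝ)).2 h4
    have h6 := h5.trans hΛ
    generalize LV.card = x at h6
    generalize HH.card = y at h6
    push_cast at h6 ⊢
    linarith
  obtain ⟨c, -, hc⟩ := exists_lt_of_sum_lt (s := (univ : Finset (P → Fin n)))
    (f := fun c => ΦA c + ΦB c) (g := fun _ => (1 : ℝ)) (by
      rw [sum_add_distrib]
      simp only [sum_const, card_univ, Fintype.card_fun, Fintype.card_fin, nsmul_eq_mul, mul_one]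
      push_cast
      linarith)
  refine ⟨lev ∘ c, fun l hl q W hW => ?_, ?_⟩
  · obtain ⟨lv, hlv, H, hH, h1, h2⟩ := hr.exists_code (row := row) hk hle q W
    rw [← hLV] at hlv
    rw [← hHH] at hH
    have h3 := single_le_sum (fun H _ => hw c l lv H) hH
    have h4 := single_le_sum (fun lv _ => sum_nonneg fun H (_ : H ∈ HH) => hw c l lv H) hlv
    have h5 := single_le_sum (fun l _ => sum_nonneg fun lv (_ : lv ∈ LV) =>
      sum_nonneg fun H (_ : H ∈ HH) => hw c l lv H) (mem_range.2 (Nat.lt_add_one_of_le hl))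
    have h6 : w c l lv H < 1 := by
      have := hB0 c
      simp only [ΦA] at hc
      linarith
    simp only [w] at h6
    rw [← Real.exp_add, Real.exp_lt_one_iff] at h6
    have h7 : (((ms r row lv H).filter fun e => c e ∈ A l).card : ℝ) ≤
        (sl (lev ∘ c) l \ W).card := by
      refine Nat.cast_le.2 (card_le_card fun y hy => ?_)
      obtain ⟨h8, h9⟩ := mem_filter.1 hy
      exact mem_sdiff.2 ⟨mem_sl.2 (hA2 l _ h9), disjoint_left.1 h2 h8⟩
    have h8 : ((ms r row q W).card : ℝ) ≤ (ms r row lv H).card :=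
      Nat.cast_le.2 (card_le_card h1)
    have h9 : (b l : ℝ) / (2 * n) * (ms r row q W).card ≤ (sl (lev ∘ c) l \ W).card + Λ := by
      have := mul_le_mul_of_nonneg_left h8 (by positivity : (0 : ℝ) ≤ b l / (2 * n))
      linarith
    rw [div_mul_eq_mul_div, div_le_iff₀ (by positivity)] at h9
    have h10 : ((b l * (ms r row q W).card : ℕ) : ℝ) ≤
        ((2 * n * ((sl (lev ∘ c) l \ W).card + Λ) : ℕ) : ℝ) := by
      push_cast
      linarith
    exact_mod_cast h10
  · have h1 := hB' c (by have := hA0 c; linarith)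
    have h2 : sl (lev ∘ c) (L + 1) = rsv c M := by
      ext y
      simp [sl, rsv, htop]
    rwa [h2]

end Pool.Agent.P.MP_5f88fa_co
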