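import Mathlib

/-! A counting lemma on ordered set pairs. -/

namespace Pool.Agent.P.MP_5f88fa_co.Girth

open Finset

theorem lemC {I α : Type} [DecidableEq I] [DecidableEq α] (key : I → ℕ) (b : ℕ) (h : I → α) :
    ∀ (a : ℕ) (J : Finset I) (S m : I → Finset α), Set.InjOn key J →
      (∀ q ∈ J, (S q).card ≤ a) → (∀ q ∈ J, (m q).card ≤ b) → (∀ q ∈ J, ¬ S q ⊆ m q) →
      (∀ q ∈ J, h q ∉ S q) → (∀ p ∈ J, ∀ q ∈ J, key p < key q → S p ⊆ m q ∨ h q ∈ S p) →
      J.card ≤ a * (b * b + 2) := by
  intro a
  induction a with
  | zero =>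
    intro J S m _ h1 _ h3 _ _
    rw [zero_mul, Nat.le_zero, card_eq_zero, eq_empty_iff_forall_notMem]
    intro q hq
    have := card_eq_zero.1 (Nat.le_zero.1 (h1 q hq))
    exact h3 q hq (this ▸ empty_subset _)
  | succ a ih =>
    intro J S m hk h1 h2 h3 h4 h5
    rcases J.eq_empty_or_nonempty with rfl | hne
    · simp
    obtain ⟨z, hz, hmax⟩ := exists_max_image J key hne
    have tri : ∀ p ∈ J, ∀ q ∈ J, p ≠ q → key p < key q ∨ key q < key p := fun p hp q hq hpq =>
      lt_or_gt_of_ne fun e => hpq (hk hp hq e)
    have hj : ∀ q, ∃ j, q ∈ J → j ∈ S q ∧ j ∉ m q := by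
      intro q
      by_cases hq : q ∈ J
      · obtain ⟨j, hj⟩ := not_subset.1 (h3 q hq)
        exact ⟨j, fun _ => hj⟩
      · exact ⟨h q, fun h' => absurd h' hq⟩
    choose j hj using hj
    set A := J.filter fun q => S q ⊆ m z with hA
    set B := J.filter fun q => h z ∈ S q ∧ S q ≠ {h z} with hB
    set C := J.filter fun q => S q = {h z} with hC
    have hAc : A.card ≤ b * b := by
      have aux : ∀ p ∈ A, ∀ q ∈ A, key p < key q →
          (j p, if h p ∈ m z then h p else j p) ≠ (j q, if h q ∈ m z then h q else j q) := by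
        intro p hp q hq hlt e
        obtain ⟨hp, hp'⟩ := mem_filter.1 hp
        obtain ⟨hq, hq'⟩ := mem_filter.1 hq
        obtain ⟨e1, e2⟩ := Prod.mk.inj e
        have e3 : h q ∈ S p := (h5 p hp q hq hlt).resolve_left fun hs =>
          (hj q hq).2 (e1 ▸ hs (hj p hp).1)
        rw [if_pos (hp' e3)] at e2
        split_ifs at e2 with e4
        · exact h4 p hp (e2 ▸ e3)
        · exact h4 q hq (e2 ▸ e1 ▸ (hj q hq).1)
      refine (card_le_card_of_injOn (t := m z ×ˢ m z)
        (fun q => (j q, if h q ∈ m z then h q else j q)) (fun q hq => ?_)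
        (fun p hp q hq e => ?_)).trans ?_
      · obtain ⟨hq, hq'⟩ := mem_filter.1 (mem_coe.1 hq)
        have := hq' (hj q hq).1
        refine mem_coe.2 (mem_product.2 ⟨this, ?_⟩)
        dsimp only
        split_ifs with e
        · exact e
        · exact this
      · by_contra hpq
        rcases tri p (mem_filter.1 hp).1 q (mem_filter.1 hq).1 hpq with hlt | hlt
        · exact aux p hp q hq hlt e
        · exact aux q hq p hp hlt e.symm
      · rw [card_product]
        exact Nat.mul_le_mul (h2 z hz) (h2 z hz)
    have hCc : C.card ≤ 1 := by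
      have aux : ∀ p ∈ C, ∀ q ∈ C, ¬ key p < key q := by
        intro p hp q hq hlt
        obtain ⟨hp, hp'⟩ := mem_filter.1 hp
        obtain ⟨hq, hq'⟩ := mem_filter.1 hq
        rcases h5 p hp q hq hlt with e | e
        · exact h3 q hq (by rw [hq', ← hp']; exact e)
        · exact h4 q hq (by rw [hq', ← hp']; exact e)
      refine card_le_one.2 fun p hp q hq => ?_
      by_contra hpq
      rcases tri p (mem_filter.1 hp).1 q (mem_filter.1 hq).1 hpq with hlt | hlt
      · exact aux p hp q hq hlt
      · exact aux q hq p hp hlt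
    have hBc : B.card ≤ a * (b * b + 2) := by
      refine ih B (fun q => (S q).erase (h z)) (fun q => if h z ∈ m q then m q else ∅)
        (hk.mono (coe_subset.2 (filter_subset _ _))) (fun q hq => ?_) (fun q hq => ?_)
        (fun q hq => ?_) (fun q hq => ?_) (fun p hp q hq hlt => ?_)
      · obtain ⟨hq, hq', -⟩ := mem_filter.1 hq
        have := card_erase_add_one hq'
        have := h1 q hq
        omega
      · split_ifs
        · exact h2 q (mem_filter.1 hq).1
        · simp
      · obtain ⟨hq, hq', hq''⟩ := mem_filter.1 hq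
        split_ifs with e
        · intro hs
          refine (hj q hq).2 (hs (mem_erase.2 ⟨fun e' => (hj q hq).2 (e' ▸ e), (hj q hq).1⟩))
        · intro hs
          rw [subset_empty, erase_eq_empty_iff] at hs
          rcases hs with hs | hs
          · rw [hs] at hq'
            exact notMem_empty _ hq'
          · exact hq'' hs
      · exact fun e => h4 q (mem_filter.1 hq).1 (mem_of_mem_erase e)
      · obtain ⟨hp, hp', -⟩ := mem_filter.1 hp
        obtain ⟨hq, hq', -⟩ := mem_filter.1 hq
        rcases h5 p hp q hq hlt with e | e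
        · left
          rw [if_pos (e hp')]
          exact (erase_subset _ _).trans e
        · exact Or.inr (mem_erase.2 ⟨fun e' => h4 q hq (e' ▸ hq'), e⟩)
    have hsub : J ⊆ insert z (A ∪ (B ∪ C)) := by
      intro q hq
      by_cases hqz : q = z
      · exact hqz ▸ mem_insert_self _ _
      refine mem_insert_of_mem ?_
      have hlt : key q < key z := (tri q hq z hz hqz).resolve_right (not_lt.2 (hmax q hq))
      rcases h5 q hq z hz hlt with e | e
      · exact mem_union_left _ (mem_filter.2 ⟨hq, e⟩)
      · refine mem_union_right _ ?_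
        by_cases e' : S q = {h z}
        · exact mem_union_right _ (mem_filter.2 ⟨hq, e'⟩)
        · exact mem_union_left _ (mem_filter.2 ⟨hq, e, e'⟩)
    have e1 := card_le_card hsub
    have e2 := card_insert_le z (A ∪ (B ∪ C))
    have e3 := card_union_le A (B ∪ C)
    have e4 := card_union_le B C
    rw [add_mul, one_mul]
    omega

end Pool.Agent.P.MP_5f88fa_co.Girth
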