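import Mathlib
import Pool.Agent.P.MP_5f88fa_co.Rank
import Pool.Agent.P.MP_5f88fa_co.GirthC

/-! Flats close to a fixed basis, for rank functions without circuits of middle size. -/

namespace Pool.Agent.P.MP_5f88fa_co.Girth

open Finset

set_option linter.unusedSectionVars false

variable {P : Type} [Fintype P] [DecidableEq P] {r : Finset P → ℕ}

theorem ind_sub (hr : RankFn r) {A B : Finset P} (hA : A.card ≤ r A) (h : B ⊆ A) :
    B.card ≤ r B := by
  have h1 := hr.submod B (A \ B)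
  have h2 := hr.le_card (A \ B)
  have h3 := card_sdiff_add_card_eq_card h
  rw [union_sdiff_of_subset h] at h1
  omega

theorem exists_basis (hr : RankFn r) {B0 Y : Finset P} (h0 : B0.card ≤ r B0) (hs : B0 ⊆ Y) :
    ∃ B, B0 ⊆ B ∧ B ⊆ Y ∧ B.card ≤ r B ∧ Y ⊆ cl r B := by
  obtain ⟨B, hB, hmax⟩ := exists_max_image
    (univ.filter fun B : Finset P => B0 ⊆ B ∧ B ⊆ Y ∧ B.card ≤ r B) card
    ⟨B0, mem_filter.2 ⟨mem_univ _, subset_rfl, hs, h0⟩⟩
  obtain ⟨-, h1, h2, h3⟩ := mem_filter.1 hB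
  refine ⟨B, h1, h2, h3, fun e he => ?_⟩
  by_cases heB : e ∈ B
  · exact hr.subset_cl B heB
  rw [mem_cl]
  by_contra hc
  have h4 := card_insert_of_notMem heB
  have h5 := hmax (insert e B) (mem_filter.2 ⟨mem_univ _, h1.trans (subset_insert _ _),
    insert_subset he h2, by omega⟩)
  omega

theorem cl_inter (hr : RankFn r) {A B : Finset P} (h : (A ∪ B).card ≤ r (A ∪ B)) {t : P}
    (hA : t ∈ cl r A) (hB : t ∈ cl r B) : t ∈ cl r (A ∩ B) := by
  rw [mem_cl] at hA hB ⊢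
  have h1 := hr.submod (insert t A) (insert t B)
  rw [← insert_union_distrib, ← insert_inter_distrib] at h1
  have h2 := hr.mono _ _ (subset_insert t (A ∪ B))
  have h3 := ind_sub hr h (inter_subset_union (s := A) (t := B))
  have h4 := card_union_add_card_inter A B
  have h5 := hr.le_card A
  have h6 := hr.le_card B
  omega

theorem rank_cl_single (hr : RankFn r) {A : Finset P} {b : P} (h : A ⊆ cl r {b}) : r A ≤ 1 :=
  (hr.le_of_subset_cl h).trans (by simpa using hr.le_card {b})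

/-- Flats of the restriction to `U`. -/
def Flat (r : Finset P → ℕ) (U X : Finset P) : Prop := X ⊆ U ∧ ∀ e ∈ U, e ∈ cl r X → e ∈ X

/-- The slack of a set. -/
def sl (r : Finset P → ℕ) (l : ℕ) (X : Finset P) : ℕ := l * r X - X.card

/-- Elements of `U` parallel to no element of `T`. -/
def New (r : Finset P → ℕ) (U T : Finset P) : Finset P := U.filter fun e => ∀ j ∈ T, e ∉ cl r {j}

/-- The elements of `T` not needed to span `t`. -/
def mm (r : Finset P → ℕ) (T : Finset P) (t : P) : Finset P :=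
  T.filter fun j => t ∈ cl r (T.erase j)

/-- The standing hypotheses. -/
structure Ctx (r : Finset P → ℕ) (U : Finset P) (k l b : ℕ) : Prop where
  hr : RankFn r
  hle : ∀ A, r A ≤ k
  card : U.card = l * k
  cov : ∀ X ⊆ U, X.card ≤ l * r X
  girth : ∀ B : Finset P, B.card ≤ r B → B.card + b < k → ∀ e ∈ cl r B, 1 ≤ r {e} →
    ∃ j ∈ B, e ∈ cl r {j}

/-- Bases inside `U`. -/
structure Bas (r : Finset P → ℕ) (U : Finset P) (k : ℕ) (T : Finset P) : Prop where
  sub : T ⊆ U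
  card : T.card = k
  ind : k ≤ r T

variable {U T T0 : Finset P} {k l b : ℕ}

theorem Bas.ind' (hT : Bas r U k T) (hr : RankFn r) {A : Finset P} (h : A ⊆ T) : A.card ≤ r A :=
  ind_sub hr (hT.card.trans_le hT.ind) h

theorem Ctx.nonloop (h : Ctx r U k l b) {e : P} (he : e ∈ U) : 1 ≤ r {e} := by
  have := h.cov {e} (singleton_subset_iff.2 he)
  rw [card_singleton] at this
  by_contra hc
  rw [show r {e} = 0 by omega] at this
  omega

theorem Ctx.sl_add (h : Ctx r U k l b) {X : Finset P} (hX : X ⊆ U) :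
    sl r l X + X.card = l * r X := Nat.sub_add_cancel (h.cov X hX)

theorem Ctx.class_le (h : Ctx r U k l b) (j : P) : (U ∩ cl r {j}).card ≤ l :=
  (h.cov _ inter_subset_left).trans
    ((Nat.mul_le_mul_left _ (rank_cl_single h.hr inter_subset_right)).trans (mul_one _).le)

theorem Flat.inter (hr : RankFn r) {X Y : Finset P} (hX : Flat r U X) (hY : Flat r U Y) :
    Flat r U (X ∩ Y) :=
  ⟨inter_subset_left.trans hX.1, fun e he h => mem_inter.2
    ⟨hX.2 e he (hr.cl_mono inter_subset_left h), hY.2 e he (hr.cl_mono inter_subset_right h)⟩⟩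

theorem Flat.of_par (hr : RankFn r) {X : Finset P} (hX : Flat r U X) {e j : P} (he : e ∈ U)
    (hj : j ∈ X) (h : e ∈ cl r {j}) : e ∈ X :=
  hX.2 e he (hr.cl_mono (singleton_subset_iff.2 hj) h)

/-- A set of small rank has few new elements. -/
theorem Ctx.new_small (h : Ctx r U k l b) (hT : Bas r U k T0) {Z : Finset P} (hZ : Z ⊆ U)
    (hk : r Z + b < k) : (New r U T0 ∩ Z).card ≤ l * (T0 \ Z).card := by
  obtain ⟨B, h1, h2, h3, h4⟩ := exists_basis h.hr (B0 := T0 ∩ Z) (Y := Z)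
    (hT.ind' h.hr inter_subset_left) inter_subset_right
  have h5 := h.hr.mono _ _ h2
  have h6 : New r U T0 ∩ Z ⊆ (B \ (T0 ∩ Z)).biUnion fun j => U ∩ cl r {j} := by
    intro e he
    obtain ⟨he1, he2⟩ := mem_inter.1 he
    obtain ⟨j, hj, hj'⟩ := h.girth B h3 (by omega) e (h4 he2) (h.nonloop (hZ he2))
    exact mem_biUnion.2 ⟨j, mem_sdiff.2 ⟨hj, fun hc => (mem_filter.1 he1).2 j
      (mem_inter.1 hc).1 hj'⟩, mem_inter.2 ⟨hZ he2, hj'⟩⟩
  have h7 := (card_le_card h6).trans (card_biUnion_le_card_mul _ _ l fun j _ => h.class_le j)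
  have h8 := card_sdiff_add_card_eq_card h1
  have h9 := card_sdiff_add_card_inter T0 Z
  have h10 := hT.card
  rw [mul_comm] at h7
  exact h7.trans (Nat.mul_le_mul_left _ (by omega))

/-- Prices on the new elements, by peeling flats. -/
theorem Ctx.sens (h : Ctx r U k l b) (hT : Bas r U k T0) (F : Finset (Finset P)) (x y : ℕ)
    (hF : ∀ X ∈ F, Flat r U X ∧ 0 < sl r l X ∧ (U \ X).card ≤ x * sl r l X ∧
      l * (T0 \ X).card ≤ y * sl r l X) :
    ∀ (c : ℕ) (Z : Finset P) (q σ : ℕ), Flat r U Z → r Z + b < k + c → 0 < σ →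
      l * (T0 \ Z).card ≤ q * y * σ → (∀ X ∈ F, ¬ New r U T0 ∩ Z ⊆ X → σ ≤ sl r l X) →
      ∃ v : P → ℝ, (∀ e, 0 ≤ v e) ∧ ∑ e ∈ New r U T0 ∩ Z, v e ≤ c * x + (q + c) * y ∧
        ∀ X ∈ F, ∀ e ∈ New r U T0 ∩ Z, e ∉ X → 1 ≤ sl r l X * v e := by
  have key : ∀ σ s : ℕ, 0 < σ → σ ≤ s → (1 : ℝ) ≤ s * (σ : ℝ)⁻¹ := by
    intro σ s h1 h2
    rw [← div_eq_mul_inv, one_le_div (by exact_mod_cast h1)]
    exact_mod_cast h2
  have key2 : ∀ σ n z : ℕ, 0 < σ → n ≤ z * σ → (n : ℝ) * (σ : ℝ)⁻¹ ≤ z := by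
    intro σ n z h1 h2
    rw [← div_eq_mul_inv, div_le_iff₀ (by exact_mod_cast h1)]
    exact_mod_cast h2
  intro c
  induction c with
  | zero =>
    intro Z q σ hZ hk hσ h1 h2
    refine ⟨fun _ => (σ : ℝ)⁻¹, fun _ => by positivity, ?_, fun X hX e he he' =>
      key _ _ hσ (h2 X hX fun hc => he' (hc he))⟩
    have := key2 σ _ _ hσ ((h.new_small hT hZ.1 hk).trans h1)
    rw [sum_const, nsmul_eq_mul]
    push_cast at this ⊢
    linarith
  | succ c ih =>
    intro Z q σ hZ hk hσ h1 h2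
    rcases (F.filter fun X => ¬ New r U T0 ∩ Z ⊆ X).eq_empty_or_nonempty with h0 | h0
    · refine ⟨fun _ => 0, fun _ => le_rfl, by rw [sum_const_zero]; positivity,
        fun X hX e he he' => ?_⟩
      have : X ∈ F.filter fun X => ¬ New r U T0 ∩ Z ⊆ X := mem_filter.2 ⟨hX, fun hc => he' (hc he)⟩
      rw [h0] at this
      exact absurd this (notMem_empty _)
    obtain ⟨Y, hY, hmin⟩ := exists_min_image _ (sl r l) h0
    obtain ⟨hY, hY'⟩ := mem_filter.1 hY
    obtain ⟨f1, f2, f3, f4⟩ := hF Y hY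
    have hsub : New r U T0 ∩ (Z ∩ Y) ⊆ New r U T0 ∩ Z :=
      inter_subset_inter_left inter_subset_left
    obtain ⟨v, v1, v2, v3⟩ := ih (Z ∩ Y) (q + 1) (sl r l Y) (hZ.inter h.hr f1) (by
        obtain ⟨e, he, he'⟩ := not_subset.1 hY'
        have e1 := (mem_inter.1 he).2
        have e2 : e ∉ cl r (Z ∩ Y) := fun hc =>
          he' (f1.2 e (hZ.1 e1) (h.hr.cl_mono inter_subset_right hc))
        rw [mem_cl] at e2
        have e3 := h.hr.mono _ _ (insert_subset e1 (inter_subset_left (s₂ := Y)))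
        omega) f2 (by
        have e1 := card_union_le (T0 \ Z) (T0 \ Y)
        rw [← sdiff_inter_distrib_right] at e1
        have e2 := Nat.mul_le_mul_left l e1
        have e3 := Nat.mul_le_mul_left (q * y) (h2 Y hY hY')
        rw [mul_add] at e2
        rw [add_mul, add_mul, one_mul]
        omega) fun X hX hc => hmin X (mem_filter.2 ⟨hX, fun hc' => hc (hsub.trans hc')⟩)
    refine ⟨fun e => if e ∈ Y then v e else (sl r l Y : ℝ)⁻¹, fun e => ?_, ?_,
      fun X hX e he he' => ?_⟩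
    · dsimp only
      split_ifs
      · exact v1 e
      · positivity
    · rw [sum_ite, sum_const, nsmul_eq_mul, filter_mem_eq_inter, inter_assoc]
      have e1 : ((New r U T0 ∩ Z).filter fun e => e ∉ Y) ⊆ U \ Y := fun e he =>
        mem_sdiff.2 ⟨hZ.1 (mem_inter.1 (mem_filter.1 he).1).2, (mem_filter.1 he).2⟩
      have e2 := key2 _ _ _ f2 ((card_le_card e1).trans f3)
      push_cast at v2 ⊢
      linarith
    · dsimp only
      split_ifs with e1
      · exact v3 X hX e (by rw [← inter_assoc]; exact mem_inter.2 ⟨he, e1⟩) he'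
      · exact key _ _ f2 (hmin X (mem_filter.2 ⟨hX, fun hc => he' (hc he)⟩))

/-- Old elements of a basis outside a flat. -/
theorem Ctx.old_le (h : Ctx r U k l b) (hT : Bas r U k T) {X : Finset P} (hX : Flat r U X) :
    (T \ X).card ≤ ((T ∩ New r U T0) \ X).card + (T0 \ X).card := by
  have h1 : T \ X ⊆ ((T ∩ New r U T0) \ X) ∪ (T0 \ X).biUnion fun j => T ∩ cl r {j} := by
    intro e he
    obtain ⟨e1, e2⟩ := mem_sdiff.1 he
    by_cases e3 : e ∈ New r U T0
    · exact mem_union_left _ (mem_sdiff.2 ⟨mem_inter.2 ⟨e1, e3⟩, e2⟩)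
    · refine mem_union_right _ ?_
      rw [New, mem_filter, not_and] at e3
      have e4 := e3 (hT.sub e1)
      push Not at e4
      obtain ⟨j, hj, hj'⟩ := e4
      exact mem_biUnion.2 ⟨j, mem_sdiff.2 ⟨hj, fun hc => e2 (hX.of_par h.hr (hT.sub e1) hc hj')⟩,
        mem_inter.2 ⟨e1, hj'⟩⟩
  have h2 := card_biUnion_le_card_mul (T0 \ X) (fun j => T ∩ cl r {j}) 1 fun j _ =>
    (hT.ind' h.hr inter_subset_left).trans (rank_cl_single h.hr inter_subset_right)
  have h3 := (card_le_card h1).trans (card_union_le _ _)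
  omega

theorem Ctx.mem_cl_sdiff (h : Ctx r U k l b) (hT : Bas r U k T0) (t : P) (S : Finset P)
    (hS : S ⊆ mm r T0 t) : t ∈ cl r (T0 \ S) := by
  induction S using Finset.induction_on with
  | empty => rw [sdiff_empty, mem_cl]; exact (h.hle _).trans hT.ind
  | insert j S _ ih =>
    have h1 := ih ((subset_insert _ _).trans hS)
    have h2 := (mem_filter.1 (hS (mem_insert_self _ _))).2
    have h3 := cl_inter h.hr (hT.ind' h.hr (union_subset sdiff_subset (erase_subset _ _))) h1 h2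
    refine h.hr.cl_mono (fun e he => ?_) h3
    simp only [mem_inter, mem_sdiff, mem_erase, mem_insert] at he ⊢
    tauto

/-- Membership in a flat spanned by a part of the basis. -/
theorem Ctx.mem_iff (h : Ctx r U k l b) (hT : Bas r U k T0) {X : Finset P} (hX : Flat r U X)
    (hs : r X ≤ (T0 ∩ X).card) {t : P} (ht : t ∈ U) : t ∈ X ↔ T0 \ X ⊆ mm r T0 t := by
  constructor
  · intro h1 j hj
    refine mem_filter.2 ⟨(mem_sdiff.1 hj).1, h.hr.cl_mono (A := T0 ∩ X) (fun e he => ?_) ?_⟩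
    · exact mem_erase.2 ⟨fun hc => (mem_sdiff.1 hj).2 (hc ▸ (mem_inter.1 he).2), (mem_inter.1 he).1⟩
    · rw [mem_cl]
      exact (h.hr.mono _ _ (insert_subset h1 inter_subset_right)).trans
        (hs.trans (hT.ind' h.hr inter_subset_left))
  · intro h1
    refine hX.2 t ht (h.hr.cl_mono (fun e he => ?_) (h.mem_cl_sdiff hT t _ h1))
    simp only [mem_sdiff] at he
    tauto

theorem Ctx.mm_card (h : Ctx r U k l b) (hT : Bas r U k T0) {X : Finset P} (hX : Flat r U X)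
    {t j : P} (ht : t ∈ U) (hj : j ∈ T0 \ mm r T0 t) (h1 : t ∉ X) (h2 : j ∈ X) :
    (mm r T0 t).card ≤ b := by
  by_contra hc
  have e1 := card_sdiff_add_card_eq_card (s := mm r T0 t) (t := T0) (filter_subset _ _)
  have e2 := hT.card
  obtain ⟨i, hi, hi'⟩ := h.girth (T0 \ mm r T0 t) (hT.ind' h.hr sdiff_subset) (by omega) t
    (h.mem_cl_sdiff hT t _ subset_rfl) (h.nonloop ht)
  by_cases hij : i = j
  · exact h1 (hX.of_par h.hr ht (hij ▸ h2) hi')
  · exact (mem_sdiff.1 hj).2 (mem_filter.2 ⟨(mem_sdiff.1 hj).1, h.hr.cl_mono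
      (singleton_subset_iff.2 (mem_erase.2 ⟨hij, (mem_sdiff.1 hi).1⟩)) hi'⟩)

/-- A matching between two bases along fundamental circuits. -/
theorem Ctx.hall (h : Ctx r U k l b) (hT0 : Bas r U k T0) (hT : Bas r U k T) :
    ∃ g : P → P, (∀ t ∈ T, g t ∈ T0 \ mm r T0 t) ∧
      ∀ X : Finset P, (T.filter fun t => g t ∈ X).card = (T0 ∩ X).card := by
  obtain ⟨f, hf, hf'⟩ := (all_card_le_biUnion_card_iff_exists_injective
    (fun t : {x // x ∈ T} => T0 \ mm r T0 t.1)).1 (by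
      intro A
      have e1 : A.map (Function.Embedding.subtype _) ⊆ T := fun e he => by
        obtain ⟨t, -, rfl⟩ := mem_map.1 he
        exact t.2
      rw [← card_map (Function.Embedding.subtype _)]
      refine (hT.ind' h.hr e1).trans ((h.hr.le_of_subset_cl fun e he => ?_).trans (h.hr.le_card _))
      obtain ⟨t, ht, rfl⟩ := mem_map.1 he
      exact h.hr.cl_mono (subset_biUnion_of_mem (fun t : {x // x ∈ T} => T0 \ mm r T0 t.1) ht)
        (h.mem_cl_sdiff hT0 _ _ subset_rfl))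
  let g : P → P := fun t => if ht : t ∈ T then f ⟨t, ht⟩ else t
  have g1 : ∀ t ∈ T, g t ∈ T0 \ mm r T0 t := fun t ht => by
    simp only [g, dif_pos ht]
    exact hf' ⟨t, ht⟩
  have g2 : Set.InjOn g T := fun t ht t' ht' e => by
    simp only [g, dif_pos (mem_coe.1 ht), dif_pos (mem_coe.1 ht')] at e
    exact congrArg Subtype.val (hf e)
  have g3 : T.image g = T0 := eq_of_subset_of_card_le
    (image_subset_iff.2 fun t ht => (mem_sdiff.1 (g1 t ht)).1)
    (by rw [card_image_of_injOn g2, hT.card, hT0.card])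
  refine ⟨g, g1, fun X => ?_⟩
  rw [← card_image_of_injOn (g2.mono (coe_subset.2 (filter_subset _ _))), ← g3,
    ← filter_mem_eq_inter, filter_image]

/-- Few flats spanned by parts of the basis control all of them. -/
theorem Ctx.few (h : Ctx r U k l b) (hT0 : Bas r U k T0) (F : Finset (Finset P))
    (hF : ∀ X ∈ F, Flat r U X ∧ k ≤ r X + b ∧ r X ≤ (T0 ∩ X).card) :
    ∃ G ⊆ F, G.card ≤ b * (b * b + 2) ∧ ∀ X ∈ F, ∀ t ∈ U, ∀ j ∈ T0 \ mm r T0 t, t ∉ X → j ∈ X →
      ∃ Y ∈ G, t ∉ Y ∧ j ∈ Y ∧ sl r l Y ≤ sl r l X := by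
  classical
  let N := Fintype.card (Finset P)
  let key : Finset P → ℕ := fun X => (Fintype.equivFin (Finset P) X : ℕ) + N * sl r l X
  have k0 : ∀ X, key X / N = sl r l X ∧ key X % N = Fintype.equivFin (Finset P) X := by
    intro X
    have := (Fintype.equivFin (Finset P) X).2
    simp only [key]
    rw [Nat.add_mul_div_left _ _ (by omega), Nat.add_mul_mod_self_left, Nat.div_eq_of_lt this,
      Nat.mod_eq_of_lt this]
    simp
  have k1 : Function.Injective key := fun X Y e =>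
    (Fintype.equivFin (Finset P)).injective (Fin.ext (by rw [← (k0 X).2, ← (k0 Y).2, e]))
  let Q : Finset P → P × P → Prop := fun Y p => p.1 ∈ U ∧ p.2 ∈ T0 \ mm r T0 p.1 ∧ p.1 ∉ Y ∧
    p.2 ∈ Y ∧ ∀ X ∈ F, p.1 ∉ X → p.2 ∈ X → key Y ≤ key X
  refine ⟨F.filter fun Y => ∃ p, Q Y p, filter_subset _ _, ?_, fun X hX t ht j hj h1 h2 => ?_⟩
  · rcases (F.filter fun Y => ∃ p, Q Y p).eq_empty_or_nonempty with h0 | ⟨Y0, h0⟩
    · rw [h0]; simp
    obtain ⟨p0, -⟩ := (mem_filter.1 h0).2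
    have : ∀ Y, ∃ p, Y ∈ (F.filter fun Y => ∃ p, Q Y p) → Q Y p := fun Y => by
      by_cases hY : Y ∈ (F.filter fun Y => ∃ p, Q Y p)
      · obtain ⟨p, hp⟩ := (mem_filter.1 hY).2
        exact ⟨p, fun _ => hp⟩
      · exact ⟨p0, fun hc => absurd hc hY⟩
    choose p hp using this
    refine lemC key b (fun Y => (p Y).2) b _ (fun Y => T0 \ Y) (fun Y => mm r T0 (p Y).1)
      k1.injOn (fun Y hY => ?_) (fun Y hY => ?_) (fun Y hY => ?_) (fun Y hY => ?_)
      fun X hX Y hY hlt => ?_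
    · obtain ⟨-, e1, e2⟩ := hF Y (mem_filter.1 hY).1
      have e3 := card_sdiff_add_card_inter T0 Y
      have e4 := hT0.card
      omega
    · obtain ⟨e1, e2, e3, e4, -⟩ := hp Y hY
      exact h.mm_card hT0 (hF Y (mem_filter.1 hY).1).1 e1 e2 e3 e4
    · obtain ⟨e1, -, e3, -⟩ := hp Y hY
      obtain ⟨e4, -, e5⟩ := hF Y (mem_filter.1 hY).1
      exact fun hc => e3 ((h.mem_iff hT0 e4 e5 e1).2 hc)
    · exact fun hc => (mem_sdiff.1 hc).2 (hp Y hY).2.2.2.1
    · obtain ⟨e1, e2, -, -, e3⟩ := hp Y hY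
      obtain ⟨e4, -, e5⟩ := hF X (mem_filter.1 hX).1
      by_cases e6 : (p Y).1 ∈ X
      · exact Or.inl ((h.mem_iff hT0 e4 e5 e1).1 e6)
      · exact Or.inr (mem_sdiff.2 ⟨(mem_sdiff.1 e2).1, fun e7 =>
          absurd (e3 X (mem_filter.1 hX).1 e6 e7) (not_le.2 hlt)⟩)
  · obtain ⟨Y, hY, hmin⟩ := exists_min_image (F.filter fun X => t ∉ X ∧ j ∈ X) key
      ⟨X, mem_filter.2 ⟨hX, h1, h2⟩⟩
    obtain ⟨e1, e2, e3⟩ := mem_filter.1 hY
    refine ⟨Y, mem_filter.2 ⟨e1, (t, j), ht, hj, e2, e3, fun X' hX' a1 a2 =>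
      hmin X' (mem_filter.2 ⟨hX', a1, a2⟩)⟩, e2, e3, ?_⟩
    rw [← (k0 X).1, ← (k0 Y).1]
    exact Nat.div_le_div_right (hmin X (mem_filter.2 ⟨hX, h1, h2⟩))

end Pool.Agent.P.MP_5f88fa_co.Girth
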