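import Mathlib
import Pool.Agent.P.MP_5f88fa_co.Wt

/-! Fractional partitions into systems of representatives. -/

namespace Pool.Agent.P.MP_5f88fa_co.Girth

open Finset

set_option linter.unusedSectionVars false

variable {P ι : Type} [Fintype P] [DecidableEq P] [Fintype ι] [DecidableEq ι]
variable {r : Finset P → ℕ} {row : P → ι}

/-- Systems of representatives of full rank inside `U`. -/
def SR (r : Finset P → ℕ) (row : P → ι) (U : Finset P) (s : ι → P) : Prop :=
  (∀ i, row (s i) = i ∧ s i ∈ U) ∧ Fintype.card ι ≤ r (univ.image s)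

theorem SR.inj {U : Finset P} {s : ι → P} (h : SR r row U s) : Function.Injective s :=
  fun i j e => by rw [← (h.1 i).1, e, (h.1 j).1]

theorem sum_rows {U : Finset P} {l : ℕ} (hrow : ∀ i, (U.filter fun e => row e = i).card = l)
    (q : ι → ℕ) : ∑ e ∈ U, q (row e) = l * ∑ i, q i := by
  rw [← sum_fiberwise_of_maps_to' (s := U) (t := univ) (g := row) (fun _ _ => mem_univ _) q,
    mul_sum]
  exact sum_congr rfl fun i _ => by rw [sum_const, hrow, smul_eq_mul]

theorem card_rows {U : Finset P} {l : ℕ} (hrow : ∀ i, (U.filter fun e => row e = i).card = l) :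
    U.card = l * Fintype.card ι := by
  simpa using sum_rows hrow fun _ => 1

theorem cheap (hr : RankFn r) (hle : ∀ A, r A ≤ Fintype.card ι) {U : Finset P} {l : ℕ}
    (hl : 0 < l) (hrow : ∀ i, (U.filter fun e => row e = i).card = l)
    (hcov : ∀ X ⊆ U, X.card ≤ l * r X) (π : P → ℕ) :
    ∃ s, SR r row U s ∧ l * ∑ i, π (s i) ≤ ∑ e ∈ U, π e := by
  obtain ⟨s, h1, h2, h3⟩ := hr.weighted (row := row) hle U π ((∑ e ∈ U, π e) / l) (by
    intro q S
    rw [← Nat.add_mul_div_left _ _ hl, Nat.le_div_iff_mul_le hl, ← sum_rows hrow,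
      ← sum_add_distrib, sum_mul]
    have h1 : ∀ t, (Fintype.card ι - r (VV row U π q (t + 1))) * l ≤
        ∑ e ∈ U, if t < π e + q (row e) then 1 else 0 := by
      intro t
      rw [← card_filter]
      have h2 := hcov (VV row U π q (t + 1)) (filter_subset _ _)
      have h3 := card_filter_add_card_filter_not (s := U) fun e => π e + q (row e) < t + 1
      have h4 : (U.filter fun e => ¬ π e + q (row e) < t + 1) =
          U.filter fun e => t < π e + q (row e) := filter_congr fun _ _ => by omega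
      rw [h4, card_rows hrow] at h3
      rw [Nat.sub_mul, mul_comm _ l, mul_comm _ l]
      unfold VV at h2 ⊢
      omega
    refine (sum_le_sum fun t _ => h1 t).trans ?_
    rw [sum_comm]
    refine sum_le_sum fun e _ => ?_
    rw [← card_filter]
    refine (card_le_card (t := range (π e + q (row e))) fun t ht => ?_).trans (card_range _).le
    exact mem_range.2 (mem_filter.1 ht).2)
  exact ⟨s, ⟨h1, h2⟩, (Nat.mul_le_mul_left _ h3).trans (Nat.mul_div_le _ _)⟩

theorem cheap_real (hr : RankFn r) (hle : ∀ A, r A ≤ Fintype.card ι) {U : Finset P} {l : ℕ}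
    (hl : 0 < l) (hrow : ∀ i, (U.filter fun e => row e = i).card = l)
    (hcov : ∀ X ⊆ U, X.card ≤ l * r X) (c : P → ℝ) (u : ℝ) (hu : ∑ e ∈ U, c e < u) :
    ∃ s, SR r row U s ∧ l * ∑ i, c (s i) ≤ u := by
  set k := Fintype.card ι with hk
  obtain ⟨N, hN⟩ := exists_nat_gt (((l * k : ℕ) : ℝ) / (u - ∑ e ∈ U, c e))
  rw [div_lt_iff₀ (sub_pos.2 hu)] at hN
  have hN0 : (0 : ℝ) < N := by
    have : (0 : ℝ) ≤ ((l * k : ℕ) : ℝ) := Nat.cast_nonneg _
    exact (mul_pos_iff_of_pos_right (sub_pos.2 hu)).1 (this.trans_lt hN)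
  obtain ⟨B, hB⟩ := (Set.finite_range fun e => -(N * c e)).bddAbove
  have hB' : ∀ e, 0 ≤ N * c e + B := fun e => by
    have := hB ⟨e, rfl⟩
    dsimp only at this
    linarith
  obtain ⟨s, h1, h2⟩ := cheap hr hle hl hrow hcov fun e => ⌈N * c e + B⌉₊
  refine ⟨s, h1, ?_⟩
  have h3 : (l : ℝ) * ∑ i, (⌈N * c (s i) + B⌉₊ : ℝ) ≤ ∑ e ∈ U, (⌈N * c e + B⌉₊ : ℝ) := by
    exact_mod_cast h2
  have h4 : ∑ i, (N * c (s i) + B) ≤ ∑ i, (⌈N * c (s i) + B⌉₊ : ℝ) :=
    sum_le_sum fun i _ => Nat.le_ceil _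
  have h5 : ∑ e ∈ U, (⌈N * c e + B⌉₊ : ℝ) ≤ ∑ e ∈ U, (N * c e + (B + 1)) :=
    sum_le_sum fun e _ => by have := Nat.ceil_lt_add_one (hB' e); linarith
  rw [sum_add_distrib, ← mul_sum, sum_const, nsmul_eq_mul] at h4 h5
  rw [card_rows hrow, ← hk] at h5
  rw [card_univ, ← hk] at h4
  have h6 := mul_le_mul_of_nonneg_left h4 (Nat.cast_nonneg (α := ℝ) l)
  push_cast at h5 hN
  by_contra hc
  have h7 := mul_lt_mul_of_pos_left (not_le.1 hc) hN0
  nlinarith

theorem frac (hr : RankFn r) (hle : ∀ A, r A ≤ Fintype.card ι) {U : Finset P} {l : ℕ}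
    (hl : 0 < l) (hrow : ∀ i, (U.filter fun e => row e = i).card = l)
    (hcov : ∀ X ⊆ U, X.card ≤ l * r X) [Fintype {s // SR r row U s}] :
    ∃ w : {s // SR r row U s} → ℝ, (∀ ω, 0 ≤ w ω) ∧ ∑ ω, w ω = l ∧
      ∀ e ∈ U, ∑ ω, (if e ∈ univ.image ω.1 then w ω else 0) = 1 := by
  classical
  let A : Matrix P {s // SR r row U s} ℝ := fun e ω => if e ∈ univ.image ω.1 then l else 0
  have hx : (fun e => if e ∈ U then (1 : ℝ) else 0) ∈
      Matrix.toLin' A '' stdSimplex ℝ {s // SR r row U s} := by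
    by_contra hx
    obtain ⟨f, u, h1, h2⟩ := geometric_hahn_banach_point_closed
      ((convex_stdSimplex ℝ _).linear_image _)
      ((isCompact_stdSimplex ℝ _).image (LinearMap.continuous_of_finiteDimensional _)).isClosed hx
    have h3 : ∀ y : P → ℝ, f y = ∑ e, y e * f fun j => if e = j then 1 else 0 := fun y =>
      LinearMap.pi_apply_eq_sum_univ (f : (P → ℝ) →ₗ[ℝ] ℝ) y
    obtain ⟨s, hs, h4⟩ := cheap_real hr hle hl hrow hcov
      (fun e => f fun j => if e = j then 1 else 0) u (by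
        rw [h3] at h1
        simpa [ite_mul, sum_ite_mem] using h1)
    have h5 := h2 _ ⟨Pi.single ⟨s, hs⟩ 1, single_mem_stdSimplex ℝ _, rfl⟩
    rw [h3] at h5
    simp only [Matrix.toLin'_apply, Matrix.mulVec_single_one, Matrix.col_apply, A, ite_mul,
      zero_mul, sum_ite_mem, univ_inter] at h5
    rw [sum_image fun i _ j _ e => hs.inj e, ← mul_sum] at h5
    linarith
  obtain ⟨μ, ⟨h1, h2⟩, h3⟩ := hx
  refine ⟨fun ω => l * μ ω, fun ω => mul_nonneg (Nat.cast_nonneg _) (h1 ω), ?_, fun e he => ?_⟩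
  · rw [← mul_sum, h2, mul_one]
  · have := congrFun h3 e
    simp only [Matrix.toLin'_apply, Matrix.mulVec, dotProduct, A, ite_mul, zero_mul, he,
      if_true] at this
    exact this

end Pool.Agent.P.MP_5f88fa_co.Girth
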