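import Mathlib
import Pool.Agent.P.MP_5f88fa_co.GirthA
import Pool.Agent.P.MP_5f88fa_co.GirthF

/-! One basis of a fractional partition can be removed. -/

namespace Pool.Agent.P.MP_5f88fa_co.Girth

open Finset

set_option linter.unusedSectionVars false

variable {P : Type} [Fintype P] [DecidableEq P] {r : Finset P → ℕ}
variable {U T T0 : Finset P} {k l b : ℕ}

/-- The defect of a basis on a set. -/
def DX (r : Finset P → ℕ) (X T : Finset P) : ℕ := r X - (T ∩ X).card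

theorem Bas.DX_add (hT : Bas r U k T) (hr : RankFn r) (X : Finset P) :
    DX r X T + (T ∩ X).card = r X :=
  Nat.sub_add_cancel ((hT.ind' hr inter_subset_left).trans (hr.mono _ _ inter_subset_right))

theorem Ctx.bad1 (h : Ctx r U k l b) (hT0 : Bas r U k T0) (hT : Bas r U k T)
    {G : Finset (Finset P)} (hG : ∀ Y ∈ G, Flat r U Y ∧ r Y ≤ (T0 ∩ Y).card) {X : Finset P}
    (hX : Flat r U X) (hX' : r X ≤ (T0 ∩ X).card)
    (hc : ∀ t ∈ U, ∀ j ∈ T0 \ mm r T0 t, t ∉ X → j ∈ X →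
      ∃ Y ∈ G, t ∉ Y ∧ j ∈ Y ∧ sl r l Y ≤ sl r l X) (hb : sl r l X < DX r X T) :
    (1 : ℝ) ≤ ∑ Y ∈ G, (DX r Y T : ℝ) / (sl r l Y + 1) := by
  obtain ⟨g, g1, g2⟩ := h.hall hT0 hT
  let act : Finset P → Finset P := fun Y => (T.filter fun t => g t ∈ Y) \ Y
  have ha : ∀ Y, Flat r U Y → r Y ≤ (T0 ∩ Y).card → (act Y).card = DX r Y T := by
    intro Y h1 h2
    have e1 := card_sdiff_add_card_inter (T.filter fun t => g t ∈ Y) Y
    have e2 : (T.filter fun t => g t ∈ Y) ∩ Y = T ∩ Y := by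
      ext t
      simp only [mem_inter, mem_filter]
      refine ⟨fun h' => ⟨h'.1.1, h'.2⟩, fun h' => ⟨⟨h'.1, ?_⟩, h'.2⟩⟩
      by_contra hn
      obtain ⟨a1, a2⟩ := mem_sdiff.1 (g1 t h'.1)
      exact a2 ((h.mem_iff hT0 h1 h2 (hT.sub h'.1)).1 h'.2 (mem_sdiff.2 ⟨a1, hn⟩))
    have e3 := hT.DX_add h.hr Y
    have e4 := hT0.DX_add h.hr Y
    rw [e2, g2] at e1
    simp only [act]
    omega
  have h1 : act X ⊆ (G.filter fun Y => sl r l Y ≤ sl r l X).biUnion act := by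
    intro t ht
    obtain ⟨a1, a2⟩ := mem_sdiff.1 ht
    obtain ⟨a3, a4⟩ := mem_filter.1 a1
    obtain ⟨Y, b1, b2, b3, b4⟩ := hc t (hT.sub a3) _ (g1 t a3) a2 a4
    exact mem_biUnion.2 ⟨Y, mem_filter.2 ⟨b1, b4⟩, mem_sdiff.2 ⟨mem_filter.2 ⟨a3, b3⟩, b2⟩⟩
  have h2 := (card_le_card h1).trans card_biUnion_le
  rw [ha X hX hX', sum_congr rfl fun Y hY =>
    ha Y (hG Y (mem_filter.1 hY).1).1 (hG Y (mem_filter.1 hY).1).2] at h2
  have h3 : (sl r l X : ℝ) + 1 ≤ ∑ Y ∈ G.filter fun Y => sl r l Y ≤ sl r l X, (DX r Y T : ℝ) := by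
    exact_mod_cast (Nat.succ_le_of_lt hb).trans h2
  rw [← one_le_div (by positivity), sum_div] at h3
  refine h3.trans ((sum_le_sum fun Y hY => ?_).trans
    (sum_le_sum_of_subset_of_nonneg (filter_subset _ _) fun _ _ _ => by positivity))
  have : (sl r l Y : ℝ) ≤ sl r l X := by exact_mod_cast (mem_filter.1 hY).2
  gcongr

theorem Ctx.bad2 (h : Ctx r U k l b) (hT0 : Bas r U k T0) (hT : Bas r U k T) (hl : 4 ≤ l)
    {v : P → ℝ} (v0 : ∀ e, 0 ≤ v e) {X : Finset P} (hX : Flat r U X) (hs : 0 < sl r l X)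
    (hX' : l * DX r X T0 ≤ 2 * sl r l X) (hv : ∀ e ∈ New r U T0, e ∉ X → 1 ≤ sl r l X * v e)
    (hb : sl r l X < DX r X T) : (1 : ℝ) ≤ 2 * ∑ e ∈ T ∩ New r U T0, v e := by
  have e1 := h.old_le (T0 := T0) hT hX
  have e2 := card_sdiff_add_card_inter T X
  have e3 := card_sdiff_add_card_inter T0 X
  have e4 := hT.DX_add h.hr X
  have e5 := hT0.DX_add h.hr X
  have e6 := hT.card
  have e7 := hT0.card
  have e8 := Nat.mul_le_mul_right (DX r X T0) hl
  have e9 : (sl r l X : ℝ) ≤ 2 * ((T ∩ New r U T0) \ X).card := by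
    exact_mod_cast (by omega : sl r l X ≤ 2 * ((T ∩ New r U T0) \ X).card)
  have e10 : (((T ∩ New r U T0) \ X).card : ℝ) ≤ sl r l X * ∑ e ∈ T ∩ New r U T0, v e := by
    rw [card_eq_sum_ones, Nat.cast_sum, mul_sum]
    refine (sum_le_sum fun e he => ?_).trans (sum_le_sum_of_subset_of_nonneg sdiff_subset
      fun e _ _ => mul_nonneg (Nat.cast_nonneg _) (v0 e))
    rw [Nat.cast_one]
    exact hv e (mem_inter.1 (mem_sdiff.1 he).1).2 (mem_sdiff.1 he).2
  have e11 : (0 : ℝ) < sl r l X := by exact_mod_cast hs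
  refine le_of_mul_le_mul_left ?_ e11
  linarith

section weights

variable {Ω : Type} [Fintype Ω] {S : Ω → Finset P} {w : Ω → ℝ}

theorem marg (w2 : ∀ e ∈ U, ∑ ω, (if e ∈ S ω then w ω else 0) = 1) (v : P → ℝ) {X : Finset P}
    (hX : X ⊆ U) : ∑ ω, w ω * ∑ e ∈ S ω ∩ X, v e = ∑ e ∈ X, v e := by
  simp only [inter_comm _ X, ← sum_ite_mem, mul_sum]
  rw [sum_comm]
  refine sum_congr rfl fun e he => ?_
  refine Eq.trans ?_ (one_mul (v e))
  rw [← w2 e (hX he), sum_mul]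
  refine sum_congr rfl fun ω _ => ?_
  split_ifs <;> simp

theorem Ctx.avg (h : Ctx r U k l b) (hS : ∀ ω, Bas r U k (S ω)) (w1 : ∑ ω, w ω = l)
    (w2 : ∀ e ∈ U, ∑ ω, (if e ∈ S ω then w ω else 0) = 1) {X : Finset P} (hX : X ⊆ U) :
    ∑ ω, w ω * DX r X (S ω) = sl r l X := by
  have h1 := marg w2 (fun _ => 1) hX
  have h2 : (sl r l X : ℝ) + X.card = l * r X := by exact_mod_cast h.sl_add hX
  have h3 : ∀ ω, (DX r X (S ω) : ℝ) = r X - (S ω ∩ X).card := fun ω => by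
    rw [← (hS ω).DX_add h.hr X]
    push_cast
    ring
  simp only [sum_const, nsmul_eq_mul, mul_one] at h1
  simp only [h3, mul_sub, sum_sub_distrib, ← sum_mul, w1, h1]
  linarith

theorem Ctx.markov (h : Ctx r U k l b) (hS : ∀ ω, Bas r U k (S ω)) (w0 : ∀ ω, 0 ≤ w ω)
    (w1 : ∑ ω, w ω = l) (w2 : ∀ e ∈ U, ∑ ω, (if e ∈ S ω then w ω else 0) = 1) {X : Finset P}
    (hX : X ⊆ U) :
    (l : ℝ) ≤ 2 * ∑ ω, if l * DX r X (S ω) ≤ 2 * sl r l X then w ω else 0 := by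
  have h1 : ∑ ω, (2 * sl r l X + 1) * (w ω - if l * DX r X (S ω) ≤ 2 * sl r l X then w ω else 0) ≤
      ∑ ω, l * (w ω * DX r X (S ω)) := by
    refine sum_le_sum fun ω _ => ?_
    have := w0 ω
    split_ifs with hc
    · rw [sub_self, mul_zero]
      positivity
    · have e : (2 * sl r l X + 1 : ℝ) ≤ l * DX r X (S ω) := by
        exact_mod_cast Nat.succ_le_of_lt (not_le.1 hc)
      nlinarith
  rw [← mul_sum, ← mul_sum, sum_sub_distrib, w1, h.avg hS w1 w2 hX] at h1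
  have h2 : (0 : ℝ) ≤ sl r l X := Nat.cast_nonneg _
  have h3 : (0 : ℝ) ≤ l := Nat.cast_nonneg _
  by_contra hc
  nlinarith [mul_nonneg h2 (sub_nonneg.2 (not_le.1 hc).le)]

theorem Ctx.badflat (h : Ctx r U k l b) (hS : ∀ ω, Bas r U k (S ω)) (w0 : ∀ ω, 0 ≤ w ω)
    (w1 : ∑ ω, w ω = l) (w2 : ∀ e ∈ U, ∑ ω, (if e ∈ S ω then w ω else 0) = 1) (hl : 0 < l)
    {ω : Ω} (hω : 0 < w ω) {Y : Finset P} (hY : Y ⊆ U \ S ω) (hb : (l - 1) * r Y < Y.card) :
    ∃ X, Flat r U X ∧ k ≤ r X + b ∧ sl r l X < DX r X (S ω) := by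
  have hYU : Y ⊆ U := hY.trans sdiff_subset
  have e1 : Y ⊆ U ∩ cl r Y := subset_inter hYU (h.hr.subset_cl Y)
  have e2 : r (U ∩ cl r Y) = r Y :=
    le_antisymm (h.hr.le_of_subset_cl inter_subset_right) (h.hr.mono _ _ e1)
  refine ⟨U ∩ cl r Y, ⟨inter_subset_left, fun e he he' =>
    mem_inter.2 ⟨he, h.hr.cl_subset_cl inter_subset_right he'⟩⟩, ?_, ?_⟩
  · by_contra hc
    obtain ⟨B, -, h2, h3, h4⟩ := exists_basis h.hr (B0 := ∅) (Y := Y) (by simp) (empty_subset _)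
    have h5 := h.hr.mono _ _ h2
    have h6 : Y ⊆ B.biUnion fun j => (U ∩ cl r {j}) \ S ω := by
      intro e he
      obtain ⟨j, hj, hj'⟩ := h.girth B h3 (by omega) e (h4 he) (h.nonloop (hYU he))
      exact mem_biUnion.2 ⟨j, hj, mem_sdiff.2 ⟨mem_inter.2 ⟨hYU he, hj'⟩, (mem_sdiff.1 (hY he)).2⟩⟩
    have h7 := (card_le_card h6).trans (card_biUnion_le_card_mul _ _ (l - 1) fun j _ => by
      set C := U ∩ cl r {j} with hC
      have a1 : C.card ≤ l := h.class_le j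
      have a2 := card_sdiff_add_card_inter C (S ω)
      by_contra a3
      have a4 : r C ≤ 1 := rank_cl_single h.hr inter_subset_right
      have a5 := h.sl_add (X := C) inter_subset_left
      have a6 := Nat.mul_le_mul_left l a4
      have a7 := h.avg hS w1 w2 (X := C) inter_subset_left
      rw [show sl r l C = 0 by omega, Nat.cast_zero,
        sum_eq_zero_iff_of_nonneg fun ω _ => mul_nonneg (w0 ω) (Nat.cast_nonneg _)] at a7
      have a8 : DX r C (S ω) = 0 := by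
        exact_mod_cast (mul_eq_zero.1 (a7 ω (mem_univ _))).resolve_left hω.ne'
      have a9 := (hS ω).DX_add h.hr C
      rw [inter_comm] at a9
      rw [show r C = 0 by omega] at a5
      omega)
    rw [mul_comm] at h7
    exact absurd (h7.trans (Nat.mul_le_mul_left _ (h3.trans h5))) (not_le.2 hb)
  · have a1 := h.sl_add (X := U ∩ cl r Y) inter_subset_left
    have a2 := (hS ω).DX_add h.hr (U ∩ cl r Y)
    have a3 := card_sdiff_add_card_inter (U ∩ cl r Y) (S ω)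
    have a4 : Y.card ≤ ((U ∩ cl r Y) \ S ω).card := card_le_card fun e he =>
      mem_sdiff.2 ⟨e1 he, (mem_sdiff.1 (hY he)).2⟩
    rw [inter_comm (S ω)] at a2
    rw [e2] at a1 a2
    rw [Nat.sub_mul, one_mul] at hb
    have a5 := Nat.le_mul_of_pos_left (r Y) hl
    omega

theorem Ctx.captured (h : Ctx r U k l b) (hS : ∀ ω, Bas r U k (S ω)) (w0 : ∀ ω, 0 ≤ w ω)
    (w1 : ∑ ω, w ω = l) (w2 : ∀ e ∈ U, ∑ ω, (if e ∈ S ω then w ω else 0) = 1) (hl : 4 ≤ l)
    (hT0 : Bas r U k T0) (X : Ω → Finset P)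
    (hX : ∀ ω, 0 < w ω → Flat r U (X ω) ∧ k ≤ r (X ω) + b ∧ sl r l (X ω) < DX r (X ω) (S ω)) :
    ∑ ω, (if l * DX r (X ω) T0 ≤ 2 * sl r l (X ω) then w ω else 0) ≤
      (b * (b * b + 2) + 2 * ((b + 1) * (4 * b + 3)) : ℕ) := by
  classical
  obtain ⟨G, G1, G2, G3⟩ := h.few hT0
    (univ.filter fun X => Flat r U X ∧ k ≤ r X + b ∧ r X ≤ (T0 ∩ X).card)
    fun X hX => (mem_filter.1 hX).2
  have hpos : ∀ X, (T0 ∩ X).card < r X → l * DX r X T0 ≤ 2 * sl r l X → l ≤ 2 * sl r l X := by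
    intro X a1 a2
    have a3 := hT0.DX_add h.hr X
    exact (Nat.le_mul_of_pos_right _ (by omega)).trans a2
  obtain ⟨v, v1, v2, v3⟩ := h.sens hT0 (univ.filter fun X => Flat r U X ∧ k ≤ r X + b ∧
      (T0 ∩ X).card < r X ∧ l * DX r X T0 ≤ 2 * sl r l X) (2 * b + 1) (2 * b + 2) (by
      intro X hX
      obtain ⟨-, a1, a2, a3, a4⟩ := mem_filter.1 hX
      have a5 := hpos X a3 a4
      have a6 := Nat.mul_le_mul_left l a2
      have a7 := Nat.mul_le_mul_left b a5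
      refine ⟨a1, by omega, ?_, ?_⟩
      · have a8 := card_sdiff_add_card_eq_card a1.1
        have a9 := h.sl_add a1.1
        have a10 := h.card
        nlinarith
      · have a8 := card_sdiff_add_card_inter T0 X
        have a9 := hT0.DX_add h.hr X
        have a10 := hT0.card
        have a11 : (T0 \ X).card ≤ b + DX r X T0 := by omega
        have a12 := Nat.mul_le_mul_left l a11
        nlinarith)
    (b + 1) U 0 1 ⟨subset_rfl, fun _ he _ => he⟩ (by have := h.hle U; omega) one_pos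
    (by rw [sdiff_eq_empty_iff_subset.2 hT0.sub]; simp) (by
      intro X hX _
      obtain ⟨-, -, -, a3, a4⟩ := mem_filter.1 hX
      have a5 := hpos X a3 a4
      omega)
  have hN : New r U T0 ⊆ U := filter_subset _ _
  rw [inter_eq_left.2 hN] at v2 v3
  have hG : ∀ Y ∈ G, Flat r U Y ∧ r Y ≤ (T0 ∩ Y).card := fun Y hY =>
    ⟨(mem_filter.1 (G1 hY)).2.1, (mem_filter.1 (G1 hY)).2.2.2⟩
  have h1 : ∀ ω, (if l * DX r (X ω) T0 ≤ 2 * sl r l (X ω) then w ω else 0) ≤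
      w ω * (∑ Y ∈ G, (DX r Y (S ω) : ℝ) / (sl r l Y + 1) + 2 * ∑ e ∈ S ω ∩ New r U T0, v e) := by
    intro ω
    have a1 : 0 ≤ ∑ Y ∈ G, (DX r Y (S ω) : ℝ) / (sl r l Y + 1) := sum_nonneg fun _ _ => by positivity
    have a2 : 0 ≤ ∑ e ∈ S ω ∩ New r U T0, v e := sum_nonneg fun e _ => v1 e
    have a3 := w0 ω
    split_ifs with hc
    · rcases a3.eq_or_lt with a4 | a4
      · rw [← a4, zero_mul]
      obtain ⟨b1, b2, b3⟩ := hX ω a4
      refine le_mul_of_one_le_right a3 ?_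
      rcases le_or_gt (r (X ω)) (T0 ∩ X ω).card with b4 | b4
      · have := h.bad1 hT0 (hS ω) hG b1 b4 (G3 _ (mem_filter.2 ⟨mem_univ _, b1, b2, b4⟩)) b3
        linarith
      · have := h.bad2 hT0 (hS ω) hl v1 b1 (by have := hpos _ b4 hc; omega) hc
          (v3 _ (mem_filter.2 ⟨mem_univ _, b1, b2, b4, hc⟩)) b3
        linarith
    · positivity
  refine (sum_le_sum fun ω _ => h1 ω).trans ?_
  have h2 : ∑ ω, w ω * ∑ Y ∈ G, (DX r Y (S ω) : ℝ) / (sl r l Y + 1) ≤ G.card := by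
    simp only [mul_sum]
    rw [sum_comm, card_eq_sum_ones, Nat.cast_sum]
    refine sum_le_sum fun Y hY => ?_
    simp only [← mul_div_assoc]
    rw [← sum_div, h.avg hS w1 w2 (hG Y hY).1.1, div_le_iff₀ (by positivity)]
    simp
  have h3 := marg w2 v hN
  have h4 : (G.card : ℝ) ≤ (b * (b * b + 2) : ℕ) := by exact_mod_cast G2
  simp only [mul_add, sum_add_distrib, mul_left_comm _ (2 : ℝ), ← mul_sum]
  push_cast at v2 h4 ⊢
  linarith

/-- One basis of a fractional partition can be removed. -/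
theorem Ctx.step (h : Ctx r U k l b) (hS : ∀ ω, Bas r U k (S ω)) (w0 : ∀ ω, 0 ≤ w ω)
    (w1 : ∑ ω, w ω = l) (w2 : ∀ e ∈ U, ∑ ω, (if e ∈ S ω then w ω else 0) = 1)
    (hl : 2 * (b * (b * b + 2) + 2 * ((b + 1) * (4 * b + 3))) < l) :
    ∃ ω, ∀ Y ⊆ U \ S ω, Y.card ≤ (l - 1) * r Y := by
  by_contra hc
  push Not at hc
  have hl4 : 4 ≤ l := by nlinarith [Nat.zero_le (b * (b * b + 2)), Nat.zero_le (b * b)]
  have : ∀ ω, ∃ X, 0 < w ω → Flat r U X ∧ k ≤ r X + b ∧ sl r l X < DX r X (S ω) := by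
    intro ω
    by_cases hω : 0 < w ω
    · obtain ⟨Y, h1, h2⟩ := hc ω
      obtain ⟨X, hX⟩ := h.badflat hS w0 w1 w2 (by omega) hω h1 h2
      exact ⟨X, fun _ => hX⟩
    · exact ⟨∅, fun h' => absurd h' hω⟩
  choose X hX using this
  set C := b * (b * b + 2) + 2 * ((b + 1) * (4 * b + 3)) with hC
  have h1 : ∑ ω, w ω * l ≤ ∑ ω, w ω *
      (2 * ∑ ω0, if l * DX r (X ω) (S ω0) ≤ 2 * sl r l (X ω) then w ω0 else 0) := by
    refine sum_le_sum fun ω _ => ?_
    rcases (w0 ω).eq_or_lt with a | a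
    · rw [← a, zero_mul, zero_mul]
    · exact mul_le_mul_of_nonneg_left (h.markov hS w0 w1 w2 (hX ω a).1.1) (w0 ω)
  have h2 : ∑ ω0, w ω0 *
      (2 * ∑ ω, if l * DX r (X ω) (S ω0) ≤ 2 * sl r l (X ω) then w ω else 0) ≤
      ∑ ω0, w ω0 * (2 * C) := sum_le_sum fun ω0 _ => mul_le_mul_of_nonneg_left
        (mul_le_mul_of_nonneg_left (h.captured hS w0 w1 w2 hl4 (hS ω0) X hX) zero_le_two) (w0 ω0)
  have h3 : ∑ ω, w ω * (2 * ∑ ω0, if l * DX r (X ω) (S ω0) ≤ 2 * sl r l (X ω) then w ω0 else 0) =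
      ∑ ω0, w ω0 * (2 * ∑ ω, if l * DX r (X ω) (S ω0) ≤ 2 * sl r l (X ω) then w ω else 0) := by
    simp only [mul_sum]
    rw [sum_comm]
    refine sum_congr rfl fun _ _ => sum_congr rfl fun _ _ => ?_
    split_ifs <;> ring
  rw [h3] at h1
  have h4 := h1.trans h2
  rw [← sum_mul, ← sum_mul, w1] at h4
  have h5 : (2 * C : ℝ) < l := by exact_mod_cast hl
  have h6 : (0 : ℝ) < l := by exact_mod_cast (by omega : 0 < l)
  exact absurd (le_of_mul_le_mul_left h4 h6) (not_le.2 h5)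

end weights

variable {ι : Type} [Fintype ι] [DecidableEq ι] {row : P → ι}

/-- Many disjoint systems of representatives, abstract form. -/
theorem many (hr : RankFn r) (hle : ∀ A, r A ≤ Fintype.card ι)
    (hg : ∀ B : Finset P, B.card ≤ r B → B.card + b < Fintype.card ι → ∀ e ∈ cl r B, 1 ≤ r {e} →
      ∃ j ∈ B, e ∈ cl r {j}) :
    ∀ (m l : ℕ) (U : Finset P), (∀ i, (U.filter fun e => row e = i).card = l) →
      (∀ X ⊆ U, X.card ≤ l * r X) →
      m + 2 * (b * (b * b + 2) + 2 * ((b + 1) * (4 * b + 3))) ≤ l →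
      ∃ f : Fin m → ι → P, (∀ t, SR r row U (f t)) ∧ ∀ t t' i, f t i = f t' i → t = t' := by
  classical
  intro m
  induction m with
  | zero => exact fun _ _ _ _ _ => ⟨fun t => t.elim0, fun t => t.elim0, fun t => t.elim0⟩
  | succ m ih =>
    intro l U hrow hcov hl
    obtain ⟨w, w0, w1, w2⟩ := frac hr hle (by omega) hrow hcov
    obtain ⟨⟨s, hs⟩, hω⟩ := Ctx.step (b := b) ⟨hr, hle, card_rows hrow, hcov, hg⟩
      (S := fun ω : {s // SR r row U s} => univ.image ω.1) (fun ω =>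
        ⟨image_subset_iff.2 fun i _ => (ω.2.1 i).2, by
          rw [card_image_of_injective _ ω.2.inj, card_univ], ω.2.2⟩) w0 w1 w2 (by omega)
    obtain ⟨f, f1, f2⟩ := ih (l - 1) (U \ univ.image s) (fun i => by
      have e1 : ((U \ univ.image s).filter fun e => row e = i) =
          (U.filter fun e => row e = i).erase (s i) := by
        ext e
        simp only [mem_filter, mem_sdiff, mem_image, mem_univ, true_and, mem_erase, not_exists]
        constructor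
        · exact fun h => ⟨fun hc => h.1.2 i hc.symm, h.1.1, h.2⟩
        · refine fun h => ⟨⟨h.2.1, fun j hj => h.1 ?_⟩, h.2.2⟩
          rw [← h.2.2, ← hj, (hs.1 j).1]
      rw [e1, card_erase_of_mem (mem_filter.2 ⟨(hs.1 i).2, (hs.1 i).1⟩), hrow]) hω (by omega)
    have f3 : ∀ t i, f t i ≠ s i := fun t i e =>
      (mem_sdiff.1 ((f1 t).1 i).2).2 (e ▸ mem_image_of_mem _ (mem_univ i))
    refine ⟨Fin.cons s f, fun t => ?_, fun t t' i => ?_⟩
    · refine Fin.cases hs (fun t => ?_) t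
      exact ⟨fun i => ⟨((f1 t).1 i).1, (mem_sdiff.1 ((f1 t).1 i).2).1⟩, (f1 t).2⟩
    · refine Fin.cases ?_ (fun t => ?_) t <;> refine Fin.cases ?_ (fun t' => ?_) t'
      · exact fun _ => rfl
      · exact fun e => absurd e.symm (f3 t' i)
      · exact fun e => absurd e (f3 t i)
      · exact fun e => congrArg Fin.succ (f2 t t' i e)

end Pool.Agent.P.MP_5f88fa_co.Girth
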