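import Mathlib
import Pool.Agent.P.MP_5f88fa_co.Prob

/-! Transfer to Mathlib matroids. -/

namespace Pool.Agent.P.MP_5f88fa_co

open Finset

/-- The rank of the set of elements occurring in a set of occurrences. -/
noncomputable def occRank {n k : ℕ} (M : Matroid (Fin n)) (F : Fin k → Finset (Fin n))
    (A : Finset {p : Fin k × Fin n // p.2 ∈ F p.1}) : ℕ :=
  (M.eRk ((fun p => p.1.2) '' (A : Set {p : Fin k × Fin n // p.2 ∈ F p.1}))).toNat

theorem eRk_ne_top' {n : ℕ} (M : Matroid (Fin n)) (X : Set (Fin n)) : M.eRk X ≠ ⊤ :=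
  ((M.eRk_le_encard X).trans_lt (Set.toFinite X).encard_lt_top).ne

theorem occRank_cast {n k : ℕ} (M : Matroid (Fin n)) (F : Fin k → Finset (Fin n))
    (A : Finset {p : Fin k × Fin n // p.2 ∈ F p.1}) :
    (occRank M F A : ℕ∞) =
      M.eRk ((fun p => p.1.2) '' (A : Set {p : Fin k × Fin n // p.2 ∈ F p.1})) :=
  ENat.natCast_toNat (eRk_ne_top' M _)

theorem occRank_rankFn {n k : ℕ} (M : Matroid (Fin n)) (F : Fin k → Finset (Fin n)) :
    RankFn (occRank M F) where
  mono A B h := by
    rw [← Nat.cast_le (α := ℕ∞), occRank_cast, occRank_cast]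
    exact M.eRk_mono (Set.image_mono (by exact_mod_cast h))
  submod A B := by
    rw [← Nat.cast_le (α := ℕ∞)]
    push_cast
    simp only [occRank_cast]
    refine le_trans ?_ (M.eRk_inter_add_eRk_union_le _ _)
    rw [add_comm, coe_union, Set.image_union, coe_inter]
    gcongr
    exact M.eRk_mono (Set.image_inter_subset _ _ _)
  le_card A := by
    rw [← Nat.cast_le (α := ℕ∞), occRank_cast]
    refine (M.eRk_le_encard _).trans ((Set.encard_image_le _ _).trans ?_)
    rw [Set.encard_coe_eq_coe_finsetCard]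

theorem transfer {n k m : ℕ} (M : Matroid (Fin n)) (F : Fin k → Finset (Fin n))
    (hF : ∀ i, (F i).card = k)
    (hc : ∃ c : Fin k → Fin n → Fin k,
        (∀ j : Fin k, ∀ i i' : Fin k, ∀ x : Fin n,
          x ∈ F i → x ∈ F i' → c i x = j → c i' x = j → i = i') ∧
        (∀ j : Fin k, M.Indep {x : Fin n | ∃ i : Fin k, x ∈ F i ∧ c i x = j}))
    (H : ∀ (r : Finset {p : Fin k × Fin n // p.2 ∈ F p.1} → ℕ)
      (row : {p : Fin k × Fin n // p.2 ∈ F p.1} → Fin k), RankFn r →
      (∀ i, (univ.filter fun e => row e = i).card = k) → (∀ X, X.card ≤ k * r X) →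
      ∃ f : Fin m → Fin k → {p : Fin k × Fin n // p.2 ∈ F p.1}, (∀ t i, row (f t i) = i) ∧
        (∀ t, k ≤ r (univ.image (f t))) ∧ ∀ t t' i, f t i = f t' i → t = t') :
    ∃ f : Fin m → Fin k → Fin n,
      (∀ t i, f t i ∈ F i) ∧ (∀ t, Function.Injective (f t)) ∧
      (∀ t, M.Indep (Set.range (f t))) ∧ (∀ i t t', f t i = f t' i → t = t') := by
  obtain ⟨c, hc1, hc2⟩ := hc
  obtain ⟨f, h1, h2, h3⟩ := H (occRank M F) (fun p => p.1.1) (occRank_rankFn M F) (fun i => by
      refine Eq.trans ?_ (hF i)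
      refine card_bij (fun p _ => p.1.2) (fun p hp => ?_) (fun p hp q hq h => ?_) fun x hx => ?_
      · have := p.2
        rwa [(mem_filter.1 hp).2] at this
      · exact Subtype.ext (Prod.ext ((mem_filter.1 hp).2.trans (mem_filter.1 hq).2.symm) h)
      · exact ⟨⟨(i, x), hx⟩, by simp, rfl⟩) (fun X => by
      rw [card_eq_sum_card_fiberwise (s := X) (t := univ) (f := fun p => c p.1.1 p.1.2)
        (fun _ _ => by simp)]
      refine (sum_le_card_nsmul _ _ (occRank M F X) fun j _ => ?_).trans (by simp)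
      rw [← Nat.cast_le (α := ℕ∞), occRank_cast, ← Set.encard_coe_eq_coe_finsetCard,
        ← Set.InjOn.encard_image (f := fun p => p.1.2)]
      · refine Matroid.Indep.encard_le_eRk_of_subset ((hc2 j).subset ?_)
          (Set.image_mono (by exact_mod_cast filter_subset _ _))
        rintro _ ⟨p, hp, rfl⟩
        exact ⟨p.1.1, p.2, (mem_filter.1 hp).2⟩
      · intro p hp q hq h
        have h' : p.1.2 = q.1.2 := h
        refine Subtype.ext (Prod.ext (hc1 j _ _ p.1.2 p.2 (h' ▸ q.2) (mem_filter.1 hp).2 ?_) h')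
        rw [h']
        exact (mem_filter.1 hq).2)
  have h4 : ∀ t, (k : ℕ∞) ≤ M.eRk (Set.range fun i => (f t i).1.2) := by
    intro t
    have := h2 t
    rw [← Nat.cast_le (α := ℕ∞), occRank_cast, coe_image, coe_univ, Set.image_univ,
      ← Set.range_comp] at this
    exact this
  have h5 : ∀ t, (Set.range fun i => (f t i).1.2).encard ≤ k := by
    intro t
    rw [← Set.image_univ]
    refine (Set.encard_image_le _ _).trans ?_
    simp
  refine ⟨fun t i => (f t i).1.2, fun t i => ?_, fun t => ?_, fun t => ?_, fun i t t' h => ?_⟩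
  · have := (f t i).2
    rwa [h1 t i] at this
  · rw [← Set.injOn_univ]
    refine Set.Finite.injOn_of_encard_image_eq Set.finite_univ (le_antisymm
      (Set.encard_image_le _ _) ?_)
    rw [Set.image_univ]
    exact le_trans (by simp) ((h4 t).trans (M.eRk_le_encard _))
  · rw [Matroid.indep_iff_eRk_eq_encard_of_finite (Set.toFinite _)]
    exact le_antisymm (M.eRk_le_encard _) ((h5 t).trans (h4 t))
  · exact h3 t t' i (Subtype.ext (Prod.ext ((h1 t i).trans (h1 t' i).symm) h))

end Pool.Agent.P.MP_5f88fa_co
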