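import Mathlib
import Pool.Agent.P.MP_5f88fa_co.Col
import Pool.Agent.P.MP_5f88fa_co.Main

/-! The choice of the parameters. -/

namespace Pool.Agent.P.MP_5f88fa_co

open Finset

set_option linter.unusedSectionVars false

variable {P ι : Type} [Fintype P] [DecidableEq P] [Fintype ι] [DecidableEq ι]
variable {r : Finset P → ℕ} {row : P → ι}

theorem RankFn.trunc (hr : RankFn r) (k : ℕ) : RankFn fun A => min (r A) k where
  mono A B h := min_le_min_right _ (hr.mono A B h)
  submod A B := by
    have h1 := hr.submod A B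
    have h2 := hr.mono A (A ∪ B) subset_union_left
    have h3 := hr.mono B (A ∪ B) subset_union_right
    have h4 := hr.mono (A ∩ B) A inter_subset_left
    have h5 := hr.mono (A ∩ B) B inter_subset_right
    omega
  le_card A := (min_le_left _ _).trans (hr.le_card A)

theorem exists_L {m : ℕ} (hm : 1 ≤ m) :
    ∃ L : ℕ, 1 ≤ L ∧ 64 * m ≤ (L + 1) * 2 ^ L ∧ L * 2 ^ L ≤ 128 * m := by
  have hex : ∃ L : ℕ, 64 * m ≤ (L + 1) * 2 ^ L :=
    ⟨64 * m, (Nat.le_succ _).trans (Nat.le_mul_of_pos_right _ (by positivity))⟩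
  have h1 := Nat.find_spec hex
  obtain h0 | ⟨L, hL⟩ : Nat.find hex = 0 ∨ ∃ L, Nat.find hex = L + 1 := by
    rcases Nat.find hex with _ | L
    · exact Or.inl rfl
    · exact Or.inr ⟨L, rfl⟩
  · rw [h0] at h1
    omega
  · have h2 := Nat.find_min hex (m := L) (by omega)
    rw [hL] at h1
    refine ⟨L + 1, by omega, h1, ?_⟩
    rw [pow_succ, ← mul_assoc]
    omega

theorem count_le_exp {k s : ℕ} (hk : 2 ≤ k) (hs : 3 * Real.log k + 3 ≤ s) :
    ((4 * ((k + 1) * (k ^ k * ((k + 1) * (k * k) ^ k))) : ℕ) : ℝ) ≤ Real.exp (k * s : ℕ) := by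
  have hk0 : (2 : ℝ) ≤ k := by exact_mod_cast hk
  have h1 : (k : ℝ) + 1 ≤ Real.exp k := Real.add_one_le_exp k
  have h2 : (4 : ℝ) ≤ Real.exp k := by
    have h3 := Real.add_one_le_exp 1
    have h4 : Real.exp (1 + 1) ≤ Real.exp k := Real.exp_le_exp.2 (by linarith)
    rw [Real.exp_add] at h4
    nlinarith
  have h3 : (k : ℝ) ^ k = Real.exp (k * Real.log k) := by
    rw [Real.exp_nat_mul, Real.exp_log (by linarith)]
  push_cast
  rw [mul_pow, h3]
  calc _ ≤ Real.exp k * (Real.exp k * (Real.exp (k * Real.log k) * (Real.exp k *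
        (Real.exp (k * Real.log k) * Real.exp (k * Real.log k))))) := by gcongr
    _ = Real.exp (k * (3 * Real.log k + 3)) := by
        simp only [← Real.exp_add]; congr 1; ring
    _ ≤ _ := Real.exp_le_exp.2 (mul_le_mul_of_nonneg_left hs (by linarith))

/-- Many disjoint systems of representatives, abstract form, for a rank at most `k`. -/
theorem RankFn.many_aux (hr : RankFn r) {k m s L : ℕ} (hk : Fintype.card ι = k) (hk2 : 2 ≤ k)
    (hle : ∀ A, r A ≤ k)
    (hrow : ∀ i, (univ.filter fun e => row e = i).card = k) (hcov : ∀ X, X.card ≤ k * r X)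
    (hs : 3 * Real.log k + 3 ≤ s) (hL1 : 1 ≤ L) (hLk : L ≤ k) (hL2 : 64 * m ≤ (L + 1) * 2 ^ L)
    (hL3 : L * 2 ^ L ≤ 128 * m) (hm : m * (262144 * L + 4194304 * s) ≤ 12 * k) :
    ∃ f : Fin m → ι → P, (∀ t i, row (f t i) = i) ∧ (∀ t, k ≤ r (univ.image (f t))) ∧
      ∀ t t' i, f t i = f t' i → t = t' := by
  let lev : Fin (1024 * (2 * L)) → ℕ := fun a =>
    if (a : ℕ) < L then a else if (a : ℕ) < 2 * L then L else L + 1
  let b : ℕ → ℕ := fun l => if l < L then 1 else L
  let pr : ℕ → ℕ := fun l => if l ≤ L then 2 ^ l else (L + 1) * 2 ^ L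
  obtain ⟨lvl, hthin, hres⟩ := hr.exists_levels (row := row) (Λ := k * s) hk (by omega) hle hrow
    hcov (M := 2 * L) (by omega) hLk rfl lev b (by
      intro l hl
      simp only [b]
      split_ifs with h
      · exact card_pos.2 ⟨⟨l, by omega⟩, by simp [lev, h]⟩
      · have hl' : l = L := by omega
        subst hl'
        have h1 := card_le_card_of_injOn (s := (univ : Finset (Fin l)))
          (t := univ.filter fun a => lev a = l)
          (fun j => (⟨l + j, by omega⟩ : Fin (1024 * (2 * l)))) (fun j _ => by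
            have := j.is_lt
            simp only [coe_filter, mem_univ, true_and, Set.mem_ofPred_eq, lev]
            rw [if_neg (by omega), if_pos (by omega)])
          (fun j _ j' _ h => Fin.ext (by simpa using h))
        simpa using h1) (by
      intro a
      simp only [lev]
      split_ifs <;> omega) (count_le_exp hk2 hs)
  have hsum : ∑ l ∈ range (L + 1), pr l ≤ 2 * 2 ^ L := by
    rw [sum_congr rfl (g := fun l => 2 ^ l) fun l hl => by
      simp only [pr]; rw [if_pos (Nat.lt_succ_iff.1 (mem_range.1 hl))]]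
    have := Nat.geomSum_lt (le_refl 2) (s := range (L + 1)) (n := L + 1) fun _ h => mem_range.1 h
    rw [pow_succ] at this
    omega
  obtain ⟨f, hf, hf'⟩ := greedy (pr ∘ lvl)
    (fun s : ι → P => (∀ i, row (s i) = i) ∧ k ≤ r (univ.image s)) (m := m) (G := 16 * k) (by
      intro Z hZ
      obtain ⟨s, h1, h2, h3⟩ := hr.step hk (by omega) hle hrow hcov lvl pr b (by simp [pr]) (by
        intro l hl
        simp only [pr, b]
        rw [if_pos hl]
        split_ifs with h h' h'
        · ring
        · omega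
        · omega
        · obtain rfl : l = L := by omega
          ring) hthin hres (C := m * (16 * k)) (G := 16 * k) (by
        simp only [pr]
        rw [if_neg (by omega)]
        have h1 := Nat.mul_le_mul_right k hL2
        have h2 : 0 < (L + 1) * 2 ^ L := by positivity
        nlinarith) (by
        have h1 := Nat.mul_le_mul_left (L * (k * s)) hsum
        have h2 := Nat.mul_le_mul_left (k * s) hL3
        have h3 := Nat.mul_le_mul_left k hm
        nlinarith) Z hZ
      exact ⟨s, fun i => (h1 i).2, ⟨fun i => (h1 i).1, h2⟩, h3⟩)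
  exact ⟨f, fun t => (hf t).1, fun t => (hf t).2, hf'⟩

/-- Many disjoint systems of representatives, abstract form. -/
theorem RankFn.many' (hr : RankFn r) {k m : ℕ} (hk : Fintype.card ι = k) (hk2 : 2 ≤ k)
    (hrow : ∀ i, (univ.filter fun e => row e = i).card = k) (hcov : ∀ X, X.card ≤ k * r X)
    (hm : (m : ℝ) ≤ k / (1500000 * Real.log k)) :
    ∃ f : Fin m → ι → P, (∀ t i, row (f t i) = i) ∧ (∀ t, k ≤ r (univ.image (f t))) ∧
      ∀ t t' i, f t i = f t' i → t = t' := by
  rcases Nat.eq_zero_or_pos m with rfl | hm1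
  · exact ⟨fun t => t.elim0, fun t => t.elim0, fun t => t.elim0, fun t => t.elim0⟩
  have hk0 : (2 : ℝ) ≤ k := by exact_mod_cast hk2
  have hl2 : (2 / 3 : ℝ) ≤ Real.log 2 := by have := Real.log_two_gt_d9; linarith
  have hl : (2 / 3 : ℝ) ≤ Real.log k := hl2.trans (Real.log_le_log two_pos hk0)
  have hm0 : (1 : ℝ) ≤ m := by exact_mod_cast hm1
  rw [le_div_iff₀ (by linarith)] at hm
  have hm2 : (m : ℝ) * 1000000 ≤ k := by nlinarith
  have hl4 : (4 : ℝ) ≤ Real.log k := by
    have h1 := Real.log_le_log (by norm_num) (by linarith : (2 : ℝ) ^ 6 ≤ k)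
    rw [Real.log_pow] at h1
    push_cast at h1
    linarith
  obtain ⟨L, hL1, hL2, hL3⟩ := exists_L hm1
  have hL4 : 2 ^ L ≤ k := by
    have h1 : m * 1000000 ≤ k := by exact_mod_cast hm2
    have h2 : 2 ^ L ≤ L * 2 ^ L := Nat.le_mul_of_pos_left _ hL1
    omega
  have hL5 : (L : ℝ) ≤ 3 / 2 * Real.log k := by
    have h1 : (2 : ℝ) ^ L ≤ k := by exact_mod_cast hL4
    have h2 := Real.log_le_log (by positivity) h1
    rw [Real.log_pow] at h2
    have h3 := mul_le_mul_of_nonneg_left hl2 (Nat.cast_nonneg L)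
    linarith
  have hs := (Nat.ceil_lt_add_one (by linarith : 0 ≤ 3 * Real.log k + 3)).le
  have hP : Fintype.card P = k * k := by
    have := card_rs_univ hrow univ
    rw [card_univ, hk] at this
    rw [← this, ← card_univ]
    congr 1
    ext e
    simp [mem_rs]
  obtain ⟨f, h1, h2, h3⟩ := (hr.trunc k).many_aux (row := row) (m := m) hk hk2
    (fun A => min_le_right _ _) hrow (fun X => by
      rcases le_total (r X) k with h | h
      · rw [min_eq_left h]; exact hcov X
      · rw [min_eq_right h, ← hP]; exact card_le_univ X)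
    (Nat.le_ceil _) hL1 (Nat.lt_two_pow_self.le.trans hL4) hL2 hL3 (by
      have h4 : (262144 * L + 4194304 * (⌈3 * Real.log k + 3⌉₊ : ℝ)) ≤
          12 * (1500000 * Real.log k) := by linarith
      have h5 := mul_le_mul_of_nonneg_left h4 (Nat.cast_nonneg m)
      have h6 : ((m * (262144 * L + 4194304 * ⌈3 * Real.log k + 3⌉₊) : ℕ) : ℝ) ≤
          ((12 * k : ℕ) : ℝ) := by
        push_cast
        linarith
      exact_mod_cast h6)
  exact ⟨f, h1, fun t => (h2 t).trans (min_le_left _ _), h3⟩

end Pool.Agent.P.MP_5f88fa_co
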