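import Mathlib
import Pool.Agent.P.MP_5f88fa_co.GirthB
import Pool.Agent.P.MP_5f88fa_co.Top

/-! Transfer to Mathlib matroids. -/

namespace Pool.Agent.P.MP_5f88fa_co.Girth

open Finset

theorem mat_par {n : ℕ} (M : Matroid (Fin n)) {I : Set (Fin n)} {e : Fin n} (hI : M.Indep I)
    (heE : e ∈ M.E) (he : M.eRk (insert e I) ≤ M.eRk I) (h1 : 1 ≤ M.eRk {e})
    (hg : ∀ C, M.IsCircuit C → C ⊆ insert e I → C.ncard ≤ 2) :
    ∃ y ∈ I, M.eRk (insert e {y}) ≤ M.eRk {y} := by
  by_cases heI : e ∈ I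
  · exact ⟨e, heI, by simp⟩
  have hd : M.Dep (insert e I) := by
    rw [← Matroid.not_indep_iff (Set.insert_subset heE hI.subset_ground)]
    intro hc
    rw [hc.eRk_eq_encard, hI.eRk_eq_encard, Set.encard_insert_of_notMem heI] at he
    exact absurd he (not_le.2 ((ENat.lt_add_one_iff (Set.toFinite I).encard_lt_top.ne).2 le_rfl))
  obtain ⟨C, hC, hC'⟩ := hd.exists_isCircuit_subset
  have heC : e ∈ C := by
    by_contra hc
    exact hC'.dep.not_indep (hI.subset fun x hx =>
      (hC hx).resolve_left fun h => hc (h ▸ hx))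
  have h2 := hC'.mem_closure_sdiff_singleton_of_mem heC
  have h3 : (C \ {e}).ncard ≤ 1 := by
    have := Set.ncard_sdiff_singleton_add_one heC
    have := hg C hC' hC
    omega
  rcases (Set.ncard_le_one_iff_eq (Set.toFinite _)).1 h3 with h4 | ⟨y, h4⟩
  · rw [h4] at h2
    have h5 := M.eRk_mono (Set.singleton_subset_iff.2 h2)
    rw [M.eRk_closure_eq, M.eRk_empty] at h5
    exact absurd (h1.trans h5) (by simp)
  · have h5 : y ∈ C \ {e} := h4 ▸ Set.mem_singleton y
    rw [h4] at h2
    refine ⟨y, (hC h5.1).resolve_left h5.2, ?_⟩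
    rw [← M.eRk_insert_closure_eq, Set.insert_eq_of_mem h2, M.eRk_closure_eq]

theorem occ_girth {n k b : ℕ} (M : Matroid (Fin n)) (F : Fin k → Finset (Fin n))
    (hg : ∀ C : Set (Fin n), M.IsCircuit C → (∀ x ∈ C, ∃ i, x ∈ F i) →
      C.ncard ≤ 2 ∨ k < C.ncard + b) (hE : ∀ i, (↑(F i) : Set (Fin n)) ⊆ M.E)
    (B : Finset {p : Fin k × Fin n // p.2 ∈ F p.1}) (h1 : B.card ≤ occRank M F B)
    (h2 : B.card + b < k) (e : {p : Fin k × Fin n // p.2 ∈ F p.1})
    (h3 : occRank M F (insert e B) ≤ occRank M F B) (h4 : 1 ≤ occRank M F {e}) :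
    ∃ j ∈ B, occRank M F (insert e {j}) ≤ occRank M F {j} := by
  rw [← Nat.cast_le (α := ℕ∞), occRank_cast] at h1 h3 h4
  rw [occRank_cast, coe_insert, Set.image_insert_eq] at h3
  rw [coe_singleton, Set.image_singleton] at h4
  have h5 := Set.encard_image_le (fun p : {p : Fin k × Fin n // p.2 ∈ F p.1} => p.1.2) (B : Set _)
  rw [Set.encard_coe_eq_coe_finsetCard] at h5
  obtain ⟨_, ⟨j, hj, rfl⟩, h6⟩ := mat_par M
    ((Matroid.indep_iff_eRk_eq_encard_of_finite (Set.toFinite _)).2
      (le_antisymm (M.eRk_le_encard _) (h5.trans h1))) (hE _ e.2) h3 h4 (by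
      intro C hC hs
      refine (hg C hC fun x hx => ?_).resolve_right (not_lt.2 ?_)
      · rcases hs hx with rfl | ⟨p, -, rfl⟩
        · exact ⟨_, e.2⟩
        · exact ⟨_, p.2⟩
      · have a1 := (Set.ncard_le_ncard hs).trans (Set.ncard_insert_le _ _)
        have a2 := Set.ncard_image_le (f := fun p : {p : Fin k × Fin n // p.2 ∈ F p.1} => p.1.2)
          (s := (B : Set _))
        rw [Set.ncard_coe_finset] at a2
        omega)
  refine ⟨j, hj, ?_⟩
  rw [← Nat.cast_le (α := ℕ∞), occRank_cast, occRank_cast, coe_insert, Set.image_insert_eq,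
    coe_singleton, Set.image_singleton]
  exact h6

theorem main {n k m b : ℕ} (hm : m + (2 * b ^ 3 + 16 * b ^ 2 + 32 * b + 12) ≤ k)
    (M : Matroid (Fin n)) (F : Fin k → Finset (Fin n))
    (hg : ∀ C : Set (Fin n), M.IsCircuit C → (∀ x ∈ C, ∃ i, x ∈ F i) →
      C.ncard ≤ 2 ∨ k < C.ncard + b)
    (hF : ∀ i, (F i).card = k) (hE : ∀ i, (↑(F i) : Set (Fin n)) ⊆ M.E)
    (hc : ∃ c : Fin k → Fin n → Fin k,
        (∀ j : Fin k, ∀ i i' : Fin k, ∀ x : Fin n,
          x ∈ F i → x ∈ F i' → c i x = j → c i' x = j → i = i') ∧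
        (∀ j : Fin k, M.Indep {x : Fin n | ∃ i : Fin k, x ∈ F i ∧ c i x = j})) :
    ∃ f : Fin m → Fin k → Fin n,
      (∀ t i, f t i ∈ F i) ∧ (∀ t, Function.Injective (f t)) ∧
      (∀ t, M.Indep (Set.range (f t))) ∧ (∀ i t t', f t i = f t' i → t = t') := by
  obtain ⟨c, hc1, hc2⟩ := hc
  have hr := occRank_rankFn M F
  have hrow : ∀ i, (univ.filter fun p : {p : Fin k × Fin n // p.2 ∈ F p.1} => p.1.1 = i).card =
      k := fun i => by
    refine Eq.trans ?_ (hF i)
    refine card_bij (fun p _ => p.1.2) (fun p hp => ?_) (fun p hp q hq h => ?_) fun x hx => ?_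
    · have := p.2
      rwa [(mem_filter.1 hp).2] at this
    · exact Subtype.ext (Prod.ext ((mem_filter.1 hp).2.trans (mem_filter.1 hq).2.symm) h)
    · exact ⟨⟨(i, x), hx⟩, by simp, rfl⟩
  have hcov : ∀ X, X.card ≤ k * occRank M F X := fun X => by
    rw [card_eq_sum_card_fiberwise (s := X) (t := univ) (f := fun p => c p.1.1 p.1.2)
      (fun _ _ => by simp)]
    refine (sum_le_card_nsmul _ _ (occRank M F X) fun j _ => ?_).trans (by simp)
    rw [← Nat.cast_le (α := ℕ∞), occRank_cast, ← Set.encard_coe_eq_coe_finsetCard,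
      ← Set.InjOn.encard_image (f := fun p => p.1.2)]
    · refine Matroid.Indep.encard_le_eRk_of_subset ((hc2 j).subset ?_)
        (Set.image_mono (by exact_mod_cast filter_subset _ _))
      rintro _ ⟨p, hp, rfl⟩
      exact ⟨p.1.1, p.2, (mem_filter.1 hp).2⟩
    · intro p hp q hq h
      have h' : p.1.2 = q.1.2 := h
      refine Subtype.ext (Prod.ext (hc1 j _ _ p.1.2 p.2 (h' ▸ q.2) (mem_filter.1 hp).2 ?_) h')
      rw [h']
      exact (mem_filter.1 hq).2
  obtain ⟨f, h1, h3⟩ := many (b := b) (ι := Fin k) (row := fun p => p.1.1) (hr.trunc k)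
    (fun A => by rw [Fintype.card_fin]; exact min_le_right _ _) (by
      intro B a1 a2 e a3 a4
      rw [Fintype.card_fin] at a2
      rw [mem_cl] at a3
      have a5 := hr.le_card B
      obtain ⟨j, hj, hj'⟩ := occ_girth M F hg hE B (by omega) a2 e (by omega) (by omega)
      exact ⟨j, hj, mem_cl.2 (min_le_min_right _ hj')⟩) m k univ hrow (fun X hX => by
      rcases le_total (occRank M F X) k with h | h
      · rw [min_eq_left h]; exact hcov X
      · rw [min_eq_right h]
        exact (card_le_card hX).trans (by rw [card_rows hrow, Fintype.card_fin]))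
    (le_trans (le_of_eq (by ring)) hm)
  have h4 : ∀ t, (k : ℕ∞) ≤ M.eRk (Set.range fun i => (f t i).1.2) := by
    intro t
    have := (h1 t).2.trans (min_le_left _ _)
    rw [Fintype.card_fin, ← Nat.cast_le (α := ℕ∞), occRank_cast, coe_image, coe_univ,
      Set.image_univ, ← Set.range_comp] at this
    exact this
  have h5 : ∀ t, (Set.range fun i => (f t i).1.2).encard ≤ k := by
    intro t
    rw [← Set.image_univ]
    refine (Set.encard_image_le _ _).trans ?_
    simp
  refine ⟨fun t i => (f t i).1.2, fun t i => ?_, fun t => ?_, fun t => ?_, fun i t t' h => ?_⟩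
  · have := (f t i).2
    rwa [show (f t i).1.1 = i from ((h1 t).1 i).1] at this
  · rw [← Set.injOn_univ]
    refine Set.Finite.injOn_of_encard_image_eq Set.finite_univ (le_antisymm
      (Set.encard_image_le _ _) ?_)
    rw [Set.image_univ]
    exact le_trans (by simp) ((h4 t).trans (M.eRk_le_encard _))
  · rw [Matroid.indep_iff_eRk_eq_encard_of_finite (Set.toFinite _)]
    exact le_antisymm (M.eRk_le_encard _) ((h5 t).trans (h4 t))
  · exact h3 t t' i (Subtype.ext (Prod.ext (((h1 t).1 i).1.trans ((h1 t').1 i).1.symm) h))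

end Pool.Agent.P.MP_5f88fa_co.Girth
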