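import Pool.Agent.P.MP_e2f256_co.EC

set_option autoImplicit false

open Finset Function

namespace Pool.Agent.P.MP_5f88fa_co.Split

variable {ι α : Type} [DecidableEq ι] [DecidableEq α]

/-- The indicator of a finite set. -/
def ind (S : Finset α) (x : α) : ℕ := if x ∈ S then 1 else 0

theorem ind_le (S : Finset α) (x : α) : ind S x ≤ 1 := by
  unfold ind; split_ifs <;> omega

theorem ind_mem {S : Finset α} {x : α} (h : x ∈ S) : ind S x = 1 := if_pos h

theorem ind_not {S : Finset α} {x : α} (h : x ∉ S) : ind S x = 0 := if_neg h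

/-- One alternating path between two systems of distinct representatives. -/
theorem pair (H : Finset α) : ∀ (m : ℕ) (s : Finset ι) (a b : ι → α), s.card = m →
    Set.InjOn a s → Set.InjOn b s → ∑ i ∈ s, ind H (b i) < ∑ i ∈ s, ind H (a i) →
    ∃ R ⊆ s, ∃ x y, x ∈ H ∧ y ∉ H ∧ (∀ i ∈ s, a i ≠ y) ∧ (∀ i ∈ s, b i ≠ x) ∧
      ∀ w : α → ℕ, ∑ i ∈ R, w (a i) + w y = ∑ i ∈ R, w (b i) + w x := by
  intro m
  induction m with
  | zero =>
    intro s a b hs _ _ h
    rw [card_eq_zero.1 hs] at h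
    simp at h
  | succ m ih =>
    intro s a b hs ha hb h
    by_cases hc : ∃ i0 ∈ s, ∃ j0 ∈ s, a i0 = b j0
    · obtain ⟨i0, hi0, j0, hj0, e⟩ := hc
      have hb' : ∀ (R : Finset ι) (w : α → ℕ), j0 ∈ R → i0 ∉ R →
          ∑ i ∈ insert i0 R, w (b i) = ∑ i ∈ R, w (update b j0 (b i0) i) + w (a i0) := by
        intro R w h1 h2
        rw [sum_insert h2, ← add_sum_erase R _ h1, ← add_sum_erase R _ h1, update_self, e]
        have : ∑ i ∈ R.erase j0, w (update b j0 (b i0) i) = ∑ i ∈ R.erase j0, w (b i) :=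
          sum_congr rfl fun i hi => by rw [update_of_ne (ne_of_mem_erase hi)]
        rw [this]; ring
      have hb'' : ∀ (R : Finset ι) (w : α → ℕ), j0 ∉ R →
          ∑ i ∈ R, w (update b j0 (b i0) i) = ∑ i ∈ R, w (b i) := fun R w h1 =>
        sum_congr rfl fun i hi => by rw [update_of_ne (by rintro rfl; exact h1 hi)]
      have hall : ∀ w : α → ℕ, ∑ i ∈ s, w (b i) =
          ∑ i ∈ s.erase i0, w (update b j0 (b i0) i) + w (a i0) := by
        intro w
        by_cases hij : j0 = i0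
        · subst hij
          rw [hb'' _ _ (notMem_erase _ _), e, sum_erase_add _ _ hj0]
        · rw [← hb' _ w (mem_erase.2 ⟨hij, hj0⟩) (notMem_erase _ _), insert_erase hi0]
      have hval : ∀ i ∈ s.erase i0, ∃ l ∈ s, l ≠ j0 ∧ update b j0 (b i0) i = b l ∧
          (l = i ∨ (l = i0 ∧ i = j0)) := by
        intro i hi
        by_cases hij : i = j0
        · subst hij
          exact ⟨i0, hi0, (ne_of_mem_erase hi).symm, update_self .., Or.inr ⟨rfl, rfl⟩⟩
        · exact ⟨i, mem_of_mem_erase hi, hij, update_of_ne hij .., Or.inl rfl⟩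
      obtain ⟨R, hR, x, y, hx, hy, h1, h2, h3⟩ := ih (s.erase i0) a (update b j0 (b i0))
        (by rw [card_erase_of_mem hi0, hs]; rfl) (ha.mono (by simp))
        (by
          intro i hi i' hi' hii
          obtain ⟨l, hl, -, e1, c1⟩ := hval i hi
          obtain ⟨l', hl', -, e2, c2⟩ := hval i' hi'
          have : l = l' := hb hl hl' (by rw [← e1, ← e2, hii])
          have n1 := ne_of_mem_erase hi
          have n2 := ne_of_mem_erase hi'
          rcases c1 with c1 | c1 <;> rcases c2 with c2 | c2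
          · rw [← c1, ← c2, this]
          · exact absurd (c1.symm.trans (this.trans c2.1)) n1
          · exact absurd (c2.symm.trans (this.symm.trans c1.1)) n2
          · rw [c1.2, c2.2])
        (by
          have := hall (ind H)
          have h5 := sum_erase_add s (fun i => ind H (a i)) hi0
          omega)
      have hxy : x ≠ y := fun h => hy (h ▸ hx)
      have hyz : a i0 ≠ y := by
        intro hz
        have h4 := h3 (ind {y})
        rw [ind_mem (mem_singleton_self y), ind_not (by simpa using hxy)] at h4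
        have h5 : ∑ i ∈ R, ind {y} (update b j0 (b i0) i) = 0 := by
          refine sum_eq_zero fun i hi => ind_not ?_
          obtain ⟨l, hl, n1, e1, -⟩ := hval i (hR hi)
          rw [e1, mem_singleton, ← hz, e]
          exact fun hh => n1 (hb hl hj0 hh)
        omega
      have hxz : a i0 ≠ x := by
        intro hz
        have h4 := h3 (ind {x})
        rw [ind_mem (mem_singleton_self x), ind_not (by simpa using hxy.symm)] at h4
        have h5 : ∑ i ∈ R, ind {x} (a i) = 0 := by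
          refine sum_eq_zero fun i hi => ind_not ?_
          rw [mem_singleton, ← hz]
          exact fun hh => ne_of_mem_erase (hR hi) (ha (mem_of_mem_erase (hR hi)) hi0 hh)
        omega
      have g1 : ∀ i ∈ s, a i ≠ y := fun i hi => by
        by_cases hii : i = i0
        · rw [hii]; exact hyz
        · exact h1 i (mem_erase.2 ⟨hii, hi⟩)
      have g2 : ∀ i ∈ s, b i ≠ x := fun i hi hbx => by
        have h4 := hall (ind {x})
        have h5 : ∑ i ∈ s.erase i0, ind {x} (update b j0 (b i0) i) = 0 :=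
          sum_eq_zero fun l hl => ind_not (by simpa using h2 l hl)
        rw [h5, ind_not (by simpa using hxz)] at h4
        have h6 := (sum_eq_zero_iff.1 h4) i hi
        rw [ind_mem (by simpa using hbx)] at h6
        omega
      have hi0R : i0 ∉ R := fun hh => notMem_erase _ _ (hR hh)
      by_cases hj : j0 ∈ R
      · refine ⟨insert i0 R, insert_subset hi0 (hR.trans (erase_subset _ _)), x, y, hx, hy, g1, g2,
          fun w => ?_⟩
        have := h3 w
        rw [hb' R w hj hi0R, sum_insert hi0R]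
        omega
      · refine ⟨R, hR.trans (erase_subset _ _), x, y, hx, hy, g1, g2, fun w => ?_⟩
        rw [← hb'' R w hj]
        exact h3 w
    · push Not at hc
      obtain ⟨i, hi, hlt⟩ := exists_lt_of_sum_lt h
      have h1 : a i ∈ H := by
        by_contra hh
        rw [ind_not hh] at hlt
        omega
      have h2 : b i ∉ H := fun hh => by
        have := ind_le H (a i)
        rw [ind_mem hh] at hlt
        omega
      refine ⟨{i}, by simpa using hi, a i, b i, h1, h2, fun l hl => hc l hl i hi,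
        fun l hl => (hc i hi l hl).symm, fun w => ?_⟩
      simp [add_comm]

variable {k : ℕ}

/-- The occurrences are split into `k` systems of distinct representatives. -/
structure Lat {β : Type} (π : β → α) (F : Fin k → Finset β) (g : Fin k → Fin k → β) : Prop where
  mem : ∀ t i, g t i ∈ F i
  inj : ∀ t, Injective (π ∘ g t)
  dis : ∀ i t t', g t i = g t' i → t = t'

/-- The number of representatives in `S`. -/
def cnt (a : Fin k → α) (S : Finset α) : ℕ := ∑ i, ind S (a i)

theorem cnt_eq {a : Fin k → α} (ha : Injective a) (S : Finset α) :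
    cnt a S = (univ.image a ∩ S).card := by
  rw [cnt, ← filter_mem_eq_inter, filter_image, card_image_of_injective _ ha, card_filter]
  rfl

theorem inj_of_cnt {a : Fin k → α} (h : ∀ z, cnt a {z} ≤ 1) : Injective a := by
  intro i j e
  by_contra hij
  have h1 : ∑ l ∈ {i, j}, ind {a i} (a l) ≤ cnt a {a i} :=
    sum_le_sum_of_subset (subset_univ _)
  rw [sum_pair hij, ← e, ind_mem (mem_singleton_self _)] at h1
  have := h (a i)
  omega

theorem inj_of_swap {a a' : Fin k → α} (ha : Injective a) {x y : α} (hy : ∀ i, a i ≠ y)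
    (h : ∀ S, cnt a' S + ind S x = cnt a S + ind S y) : Injective a' := by
  refine inj_of_cnt fun z => ?_
  have h1 := h {z}
  by_cases hz : y = z
  · have : cnt a {z} = 0 := sum_eq_zero fun i _ => ind_not (by simpa [← hz] using hy i)
    have := ind_le {z} y
    omega
  · rw [ind_not (S := {z}) (x := y) (by simpa using hz), cnt_eq ha] at h1
    have : (univ.image a ∩ {z}).card ≤ 1 := (card_le_card inter_subset_right).trans (by simp)
    omega

variable {β : Type} {π : β → α}

theorem Lat.swap {F : Fin k → Finset β} {g : Fin k → Fin k → β} (hg : Lat π F g) {t t' : Fin k}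
    (H : Finset α) (h : cnt (π ∘ g t') H < cnt (π ∘ g t) H) :
    ∃ g', Lat π F g' ∧ (∀ s, s ≠ t → s ≠ t' → g' s = g s) ∧ cnt (π ∘ g' t) H + 1 = cnt (π ∘ g t) H ∧
      ∀ S, cnt (π ∘ g' t') S ≤ cnt (π ∘ g t') S + 1 := by
  obtain ⟨R, -, x, y, hx, hy, h1, h2, h3⟩ := pair H _ univ (π ∘ g t) (π ∘ g t') rfl
    (hg.inj t).injOn (hg.inj t').injOn h
  let g' : Fin k → Fin k → β := fun s i => if i ∈ R then g (Equiv.swap t t' s) i else g s i
  have split : ∀ (s : Fin k) (S : Finset α), cnt (π ∘ g' s) S + ∑ i ∈ R, ind S (π (g s i)) =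
      cnt (π ∘ g s) S + ∑ i ∈ R, ind S (π (g (Equiv.swap t t' s) i)) := by
    intro s S
    rw [cnt, cnt, ← sum_add_sum_compl R, ← sum_add_sum_compl R]
    simp only [Function.comp_apply]
    have e1 : ∑ i ∈ R, ind S (π (g' s i)) = ∑ i ∈ R, ind S (π (g (Equiv.swap t t' s) i)) :=
      sum_congr rfl fun i hi => by simp only [g', if_pos hi]
    have e2 : ∑ i ∈ Rᶜ, ind S (π (g' s i)) = ∑ i ∈ Rᶜ, ind S (π (g s i)) :=
      sum_congr rfl fun i hi => by simp only [g', if_neg (mem_compl.1 hi)]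
    omega
  have c1 : ∀ S, cnt (π ∘ g' t) S + ind S x = cnt (π ∘ g t) S + ind S y := fun S => by
    have := split t S
    have := h3 (ind S)
    simp only [Function.comp_apply] at this
    rw [Equiv.swap_apply_left] at *
    omega
  have c2 : ∀ S, cnt (π ∘ g' t') S + ind S y = cnt (π ∘ g t') S + ind S x := fun S => by
    have := split t' S
    have := h3 (ind S)
    simp only [Function.comp_apply] at this
    rw [Equiv.swap_apply_right] at *
    omega
  have c3 : ∀ s, s ≠ t → s ≠ t' → g' s = g s := fun s n1 n2 => funext fun i => by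
    simp only [g', Equiv.swap_apply_of_ne_of_ne n1 n2, ite_self]
  refine ⟨g', ⟨fun s i => ?_, fun s => ?_, fun i s s' e => ?_⟩, c3, ?_, fun S => ?_⟩
  · simp only [g']
    split_ifs <;> exact hg.mem _ _
  · by_cases n1 : s = t
    · rw [n1]; exact inj_of_swap (hg.inj t) (fun i => h1 i (mem_univ _)) c1
    · by_cases n2 : s = t'
      · rw [n2]; exact inj_of_swap (hg.inj t') (fun i => h2 i (mem_univ _)) c2
      · rw [c3 s n1 n2]; exact hg.inj s
  · simp only [g'] at e
    split_ifs at e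
    · exact (Equiv.swap t t').injective (hg.dis i _ _ e)
    · exact hg.dis i _ _ e
  · have := c1 H
    rw [ind_mem hx, ind_not hy] at this
    omega
  · have := c2 S
    have := ind_le S x
    omega

section main

variable {κ : Type} {H : κ → Finset α} {ρ : κ → ℕ}

theorem uniq (hH : ∀ i j, i ≠ j → (H i ∩ H j).card + k ≤ ρ i + ρ j) {a : Fin k → α}
    (ha : Injective a) {i j : κ} (hij : i ≠ j) : cnt a (H i) + cnt a (H j) ≤ ρ i + ρ j := by
  refine le_trans ?_ (hH i j hij)
  rw [cnt_eq ha, cnt_eq ha, ← card_union_add_card_inter]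
  have h1 : (univ.image a ∩ H i ∪ univ.image a ∩ H j).card ≤ k :=
    (card_le_card (union_subset inter_subset_left inter_subset_left)).trans
      (card_image_le.trans (by simp))
  have h2 : (univ.image a ∩ H i ∩ (univ.image a ∩ H j)).card ≤ (H i ∩ H j).card :=
    card_le_card (inter_subset_inter inter_subset_right inter_subset_right)
  omega

/-- No bound is violated. -/
def Good (H : κ → Finset α) (ρ : κ → ℕ) (a : Fin k → α) : Prop := ∀ j, cnt a (H j) ≤ ρ j

theorem good_of (hH : ∀ i j, i ≠ j → (H i ∩ H j).card + k ≤ ρ i + ρ j) {a : Fin k → α}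
    (ha : Injective a) {j : κ} (h : cnt a (H j) = ρ j) : Good H ρ a := fun i => by
  by_cases hij : i = j
  · rw [hij, h]
  · have := uniq hH ha hij
    omega

variable {F : Fin k → Finset β}

theorem step (hH : ∀ i j, i ≠ j → (H i ∩ H j).card + k ≤ ρ i + ρ j)
    (hav : ∀ g, Lat π F g → ∀ j, ρ j < k → ∑ t, cnt (π ∘ g t) (H j) ≤ k * ρ j)
    {g : Fin k → Fin k → β} (hg : Lat π F g) {t1 t2 : Fin k} (h12 : t1 ≠ t2) {j : κ}
    (h1 : ρ j < cnt (π ∘ g t1) (H j)) :
    ∃ g', Lat π F g' ∧ (∀ s, s ≠ t1 → s ≠ t2 → Good H ρ (π ∘ g s) → Good H ρ (π ∘ g' s)) ∧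
      cnt (π ∘ g' t1) (H j) + 1 = cnt (π ∘ g t1) (H j) := by
  by_cases hA : cnt (π ∘ g t2) (H j) < cnt (π ∘ g t1) (H j)
  · obtain ⟨g', l, e1, e2, -⟩ := hg.swap (H j) hA
    exact ⟨g', l, fun s n1 n2 hs => by rw [e1 s n1 n2]; exact hs, e2⟩
  have hk : ρ j < k := by
    refine h1.trans_le ?_
    rw [cnt_eq (hg.inj t1)]
    exact (card_le_card inter_subset_left).trans (card_image_le.trans (by simp))
  obtain ⟨t, ht⟩ : ∃ t, cnt (π ∘ g t) (H j) < ρ j := by
    by_contra hcon
    push Not at hcon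
    have h2 : ∑ _t : Fin k, ρ j < ∑ t, cnt (π ∘ g t) (H j) :=
      sum_lt_sum (fun t _ => hcon t) ⟨t1, mem_univ _, h1⟩
    have h3 := hav g hg j hk
    simp at h2
    omega
  have n1 : t ≠ t1 := by rintro rfl; omega
  have n2 : t ≠ t2 := by rintro rfl; omega
  obtain ⟨g1, l1, e1, e2, e3⟩ := hg.swap (t := t1) (t' := t) (H j) (by omega)
  by_cases hB : Good H ρ (π ∘ g t) → Good H ρ (π ∘ g1 t)
  · refine ⟨g1, l1, fun s m1 _ hs => ?_, e2⟩
    by_cases m : s = t
    · rw [m] at hs ⊢; exact hB hs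
    · rw [e1 s m1 m]; exact hs
  obtain ⟨hgt, hb⟩ := Classical.not_imp.1 hB
  obtain ⟨a, ha⟩ := not_forall.1 hb
  have haj : a ≠ j := by
    rintro rfl
    have := e3 (H a)
    omega
  have h4 := uniq hH (hg.inj t2) haj
  have h5 : g1 t2 = g t2 := e1 t2 h12.symm n2.symm
  obtain ⟨g2, l2, f1, f2, -⟩ := l1.swap (t := t) (t' := t2) (H a) (by rw [h5]; omega)
  refine ⟨g2, l2, fun s m1 m2 hs => ?_, by rw [f1 t1 n1.symm h12]; exact e2⟩
  by_cases m : s = t
  · rw [m]
    refine good_of hH (l2.inj t) (j := a) ?_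
    have := e3 (H a)
    have := hgt a
    omega
  · rw [f1 s m m2, e1 s m1 m]; exact hs

theorem repair (hH : ∀ i j, i ≠ j → (H i ∩ H j).card + k ≤ ρ i + ρ j)
    (hav : ∀ g, Lat π F g → ∀ j, ρ j < k → ∑ t, cnt (π ∘ g t) (H j) ≤ k * ρ j)
    {t1 t2 : Fin k} (h12 : t1 ≠ t2) {j : κ} : ∀ (d : ℕ) (g : Fin k → Fin k → β), Lat π F g →
    cnt (π ∘ g t1) (H j) = ρ j + d →
    ∃ g', Lat π F g' ∧ (∀ s, s ≠ t1 → s ≠ t2 → Good H ρ (π ∘ g s) → Good H ρ (π ∘ g' s)) ∧
      Good H ρ (π ∘ g' t1) := by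
  intro d
  induction d with
  | zero => exact fun g hg h => ⟨g, hg, fun _ _ _ h => h, good_of hH (hg.inj t1) h⟩
  | succ d ih =>
    intro g hg h
    obtain ⟨g1, l1, e1, e2⟩ := step hH hav hg h12 (j := j) (by omega)
    obtain ⟨g2, l2, f1, f2⟩ := ih g1 l1 (by omega)
    exact ⟨g2, l2, fun s m1 m2 hs => f1 s m1 m2 (e1 s m1 m2 hs), f2⟩

theorem all_but_one (hH : ∀ i j, i ≠ j → (H i ∩ H j).card + k ≤ ρ i + ρ j)
    (hav : ∀ g, Lat π F g → ∀ j, ρ j < k → ∑ t, cnt (π ∘ g t) (H j) ≤ k * ρ j)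
    {g0 : Fin k → Fin k → β} (hg0 : Lat π F g0) (t0 : Fin k) :
    ∃ g, Lat π F g ∧ ∀ s, s ≠ t0 → Good H ρ (π ∘ g s) := by
  have key : ∀ A : Finset (Fin k), ∃ g, Lat π F g ∧ ∀ s ∈ A, s ≠ t0 → Good H ρ (π ∘ g s) := by
    intro A
    induction A using Finset.induction_on with
    | empty => exact ⟨g0, hg0, by simp⟩
    | insert t A _ ih =>
      obtain ⟨g, hg, h⟩ := ih
      by_cases hc : t ≠ t0 → Good H ρ (π ∘ g t)
      · refine ⟨g, hg, fun s hs m => ?_⟩
        rcases mem_insert.1 hs with rfl | hs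
        · exact hc m
        · exact h s hs m
      obtain ⟨m0, hb⟩ := Classical.not_imp.1 hc
      obtain ⟨j, hj⟩ := not_forall.1 hb
      obtain ⟨g', l, e1, e2⟩ := repair hH hav m0 (j := j) (cnt (π ∘ g t) (H j) - ρ j) g hg (by omega)
      refine ⟨g', l, fun s hs m => ?_⟩
      by_cases hst : s = t
      · rw [hst]; exact e2
      · exact e1 s hst m (h s ((mem_insert.1 hs).resolve_left hst) m)
  obtain ⟨g, hg, h⟩ := key univ
  exact ⟨g, hg, fun s m => h s (mem_univ _) m⟩

end main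

theorem average [DecidableEq β] {F : Fin k → Finset β} (P : Finset (Fin k × β))
    (hP : ∀ p ∈ P, p.2 ∈ F p.1) (r : ℕ) (c : Fin k → β → Fin k)
    (hc : ∀ j i i' x, x ∈ F i → x ∈ F i' → c i x = j → c i' x = j → i = i')
    (hr : ∀ j (X : Finset β), (∀ x ∈ X, ∃ i, (i, x) ∈ P ∧ c i x = j) → X.card ≤ r) :
    P.card ≤ k * r := by
  rw [mul_comm]
  refine le_trans (card_le_mul_card_image_of_maps_to (t := univ)
    (f := fun p : Fin k × β => c p.1 p.2) (fun _ _ => mem_univ _) r fun j _ => ?_) (by simp)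
  rw [← card_image_of_injOn (f := fun p : Fin k × β => p.2)]
  · refine hr j _ fun x hx => ?_
    obtain ⟨p, hp, rfl⟩ := mem_image.1 hx
    exact ⟨p.1, (mem_filter.1 hp).1, (mem_filter.1 hp).2⟩
  · intro p hp p' hp' e
    have e' : p.2 = p'.2 := e
    exact Prod.ext (hc j _ _ _ (hP p (mem_filter.1 hp).1) (e' ▸ hP p' (mem_filter.1 hp').1)
      (mem_filter.1 hp).2 (e' ▸ (mem_filter.1 hp').2)) e'

theorem sum_cnt_le [DecidableEq β] [Fintype β] {F : Fin k → Finset β} {g : Fin k → Fin k → β}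
    (hg : Lat π F g) (S : Finset α) : ∑ t, cnt (π ∘ g t) S ≤
      (univ.filter fun p : Fin k × β => p.2 ∈ F p.1 ∧ π p.2 ∈ S).card := by
  have h1 : ∑ t, cnt (π ∘ g t) S =
      (univ.filter fun p : Fin k × Fin k => π (g p.1 p.2) ∈ S).card := by
    rw [card_filter, Fintype.sum_prod_type]
    rfl
  rw [h1]
  refine card_le_card_of_injOn (fun p => (p.2, g p.1 p.2)) (fun p hp => ?_) fun p _ p' _ e => ?_
  · exact mem_coe.2 (mem_filter.2 ⟨mem_univ _, hg.mem _ _, (mem_filter.1 (mem_coe.1 hp)).2⟩)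
  · have e1 : p.2 = p'.2 := congrArg Prod.fst e
    have e2 : g p.1 p.2 = g p'.1 p'.2 := congrArg Prod.snd e
    exact Prod.ext (hg.dis p.2 _ _ (by rw [e2, e1])) e1

theorem exists_lat [DecidableEq β] [Fintype β] (hk : 0 < k) (F : Fin k → Finset β)
    (hF : ∀ i, (F i).card = k)
    (hπ : ∀ v, (univ.filter fun p : Fin k × β => p.2 ∈ F p.1 ∧ π p.2 ∈ ({v} : Finset α)).card ≤
      k * 1) : ∃ g, Lat π F g := by
  obtain ⟨c, hc⟩ := Pool.Agent.P.MP_e2f256_co.konig (E := {p : Fin k × β // p.2 ∈ F p.1})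
    (fun e => e.1.1) (fun e => π e.1.2) k hk
    (fun v => by
      refine le_trans (card_le_card_of_injOn (t := F v) (fun e => e.1.2) (fun e he => ?_)
        fun e he e' he' h => ?_) (hF v).le
      · have : e.1.1 = v := by simpa using he
        rw [← this]; exact e.2
      · have h1 : e.1.1 = v := by simpa using he
        have h2 : e'.1.1 = v := by simpa using he'
        exact Subtype.ext (Prod.ext (h1.trans h2.symm) h))
    (fun v => by
      refine le_trans (card_le_card_of_injOn (fun e => e.1) (fun e he => ?_)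
        Subtype.val_injective.injOn) ((hπ v).trans (by simp))
      have h1 : π e.1.2 = v := by simpa using he
      exact mem_coe.2 (mem_filter.2 ⟨mem_univ _, e.2, mem_singleton.2 h1⟩))
  have hs : ∀ i, Surjective fun x : F i => c ⟨(i, x.1), x.2⟩ := fun i => by
    refine ((Fintype.bijective_iff_injective_and_card _).2 ⟨fun x y e => ?_, by simp [hF]⟩).2
    have := hc ⟨(i, x.1), x.2⟩ ⟨(i, y.1), y.2⟩ (Or.inl rfl) e
    exact Subtype.ext (congrArg (fun p => p.1.2) this)
  choose x hx using hs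
  refine ⟨fun t i => (x i t).1, fun t i => (x i t).2, fun t i i' e => ?_, fun i t t' e => ?_⟩
  · exact congrArg (fun p => p.1.1)
      (hc ⟨(i, (x i t).1), (x i t).2⟩ ⟨(i', (x i' t).1), (x i' t).2⟩ (Or.inr e)
        ((hx i t).trans (hx i' t).symm))
  · rw [← hx i t, ← hx i t', Subtype.ext e]

theorem main {κ : Type} [DecidableEq β] [Fintype β] (hk : 2 ≤ k) (M : Matroid β)
    (F : Fin k → Finset β) (π : β → α) (H : κ → Finset α) (ρ : κ → ℕ)
    (hH : ∀ i j, i ≠ j → (H i ∩ H j).card + k ≤ ρ i + ρ j)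
    (hM : ∀ X : Finset β, X.card ≤ k → (∀ x ∈ X, ∃ i, x ∈ F i) →
      (M.Indep ↑X ↔ Set.InjOn π ↑X ∧ ∀ i, (X.image π ∩ H i).card ≤ ρ i))
    (hF : ∀ i, (F i).card = k) (c : Fin k → β → Fin k)
    (hc : ∀ j i i' x, x ∈ F i → x ∈ F i' → c i x = j → c i' x = j → i = i')
    (hi : ∀ j, M.Indep {x | ∃ i, x ∈ F i ∧ c i x = j}) :
    ∃ f : Fin (k - 1) → Fin k → β, (∀ t i, f t i ∈ F i) ∧ (∀ t, Injective (f t)) ∧
      (∀ t, M.Indep (Set.range (f t))) ∧ ∀ i t t', f t i = f t' i → t = t' := by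
  have key : ∀ (S : Finset α) (r : ℕ), r < k → (∀ Y : Finset β, Set.InjOn π ↑Y →
      (∀ i, (Y.image π ∩ H i).card ≤ ρ i) → (∀ x ∈ Y, π x ∈ S) → Y.card ≤ r) →
      (univ.filter fun p : Fin k × β => p.2 ∈ F p.1 ∧ π p.2 ∈ S).card ≤ k * r := by
    intro S r hr hS
    refine average (F := F) _ (fun p hp => (mem_filter.1 hp).2.1) r c hc fun l X h2 => ?_
    by_contra hcon
    obtain ⟨Y, hY, hcard⟩ := exists_subset_card_eq (s := X) (n := r + 1) (by omega)
    have h3 : ∀ x ∈ Y, ∃ i, x ∈ F i ∧ π x ∈ S ∧ c i x = l := fun x hx => by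
      obtain ⟨i, h4, h5⟩ := h2 x (hY hx)
      exact ⟨i, (mem_filter.1 h4).2.1, (mem_filter.1 h4).2.2, h5⟩
    have h4 := (hM Y (by omega) fun x hx => (h3 x hx).imp fun _ h => h.1).1
      ((hi l).subset fun x hx => (h3 x hx).imp fun _ h => ⟨h.1, h.2.2⟩)
    have := hS Y h4.1 h4.2 fun x hx => (h3 x hx).elim fun _ h => h.2.1
    omega
  obtain ⟨g0, hg0⟩ := exists_lat (π := π) (by omega) F hF fun v => key {v} 1 (by omega)
    fun Y h1 _ h3 => card_le_one.2 fun x hx y hy =>
      h1 hx hy ((mem_singleton.1 (h3 x hx)).trans (mem_singleton.1 (h3 y hy)).symm)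
  obtain ⟨m, rfl⟩ : ∃ m, k = m + 1 := ⟨k - 1, by omega⟩
  obtain ⟨g, hg, h⟩ := all_but_one hH (fun g hg j hj => (sum_cnt_le hg (H j)).trans
    (key (H j) (ρ j) hj fun Y h1 h2 h3 => by
      have h4 := h2 j
      rwa [inter_eq_left.2 (image_subset_iff.2 h3), card_image_of_injOn h1] at h4)) hg0 0
  refine ⟨fun t => g (Fin.succ t), fun t i => hg.mem _ _, fun t => (hg.inj _).of_comp, fun t => ?_,
    fun i t t' e => Fin.succ_injective _ (hg.dis i _ _ e)⟩
  have e : Set.range (g (Fin.succ t)) = ↑(univ.image (g (Fin.succ t))) := by simp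
  rw [e]
  refine (hM _ (card_image_le.trans (by simp)) fun x hx => ?_).2 ⟨fun x hx y hy e => ?_, fun j => ?_⟩
  · obtain ⟨i, -, rfl⟩ := mem_image.1 hx
    exact ⟨i, hg.mem _ _⟩
  · obtain ⟨i, -, rfl⟩ := mem_image.1 hx
    obtain ⟨l, -, rfl⟩ := mem_image.1 hy
    rw [hg.inj _ e]
  · rw [image_image, ← cnt_eq (hg.inj _)]
    exact h _ (Fin.succ_ne_zero t) j

end Pool.Agent.P.MP_5f88fa_co.Split
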