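import Pool.Agent.P.MP_5f88fa_co.Split

set_option autoImplicit false

open Finset Function

namespace Pool.Agent.P.MP_5f88fa_co.Split

/-- If every set of fewer than `k` pairwise independent elements is independent (for instance
for paving matroids of rank at least `k`, their parallel extensions, and every matroid when
`k ≤ 3`), the hypothesis of the hand-in holds on every set `U` of nonloops. -/
theorem of_girth {n k : ℕ} (hk : 1 ≤ k) (M : Matroid (Fin n))
    (h : ∀ X : Finset (Fin n), X.card < k → (∀ x ∈ X, ∀ y ∈ X, M.Indep {x, y}) → M.Indep ↑X)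
    (U : Fin n → Prop) (hU : ∀ x, U x → M.Indep {x}) :
    ∃ (π : Fin n → ℕ) (q : ℕ) (H : Fin q → Finset ℕ) (ρ : Fin q → ℕ),
      (∀ i j, i ≠ j → (H i ∩ H j).card + k ≤ ρ i + ρ j) ∧
      ∀ X : Finset (Fin n), X.card ≤ k → (∀ x ∈ X, U x) →
        (M.Indep ↑X ↔ Set.InjOn π ↑X ∧ ∀ i, (X.image π ∩ H i).card ≤ ρ i) := by
  classical
  let π : Fin n → ℕ := fun x =>
    (Fintype.equivFin (Finset (Fin n)) (M.closure {x}).toFinset).val
  have hπ : ∀ x y, π x = π y ↔ M.closure {x} = M.closure {y} := fun x y => by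
    simp only [π, Fin.val_inj, Equiv.apply_eq_iff_eq, Set.toFinset_inj]
  have hN : ∀ x, U x → M.IsNonloop x := fun x hx => M.indep_singleton.1 (hU x hx)
  have hpair : ∀ X : Finset (Fin n), (∀ x ∈ X, U x) → Set.InjOn π ↑X → X.card < k →
      M.Indep ↑X := fun X h1 h2 h3 => h X h3 fun x hx y hy => by
    by_cases e : x = y
    · rw [← e, Set.pair_eq_singleton]; exact hU x (h1 x hx)
    · by_contra hcon
      exact e (h2 hx hy ((hπ x y).2 (((hN x (h1 x hx)).closure_eq_closure_iff_eq_or_dep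
        (hN y (h1 y hy))).2 (Or.inr hcon))))
  have hinj : ∀ X : Finset (Fin n), (∀ x ∈ X, U x) → M.Indep ↑X → Set.InjOn π ↑X :=
    fun X h1 h2 x hx y hy e => ((((hN x (h1 x hx)).closure_eq_closure_iff_eq_or_dep
      (hN y (h1 y hy))).1 ((hπ x y).1 e)).resolve_right (not_not.2
        (h2.subset (Set.insert_subset hx (Set.singleton_subset_iff.2 hy)))))
  let A : Finset (Finset (Fin n)) := univ.filter fun S => ∃ X : Finset (Fin n),
    X.card = k ∧ M.Dep ↑X ∧ (↑S : Set (Fin n)) = M.closure ↑X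
  have hA : ∀ S ∈ A, M.eRk ↑S < k ∧ M.closure ↑S = ↑S := by
    intro S hS
    obtain ⟨X, h1, h2, h3⟩ := (mem_filter.1 hS).2
    rw [h3, M.eRk_closure_eq, M.closure_closure]
    refine ⟨?_, rfl⟩
    have := M.eRk_lt_encard_of_dep_of_finite (Set.toFinite _) h2
    rwa [Set.encard_coe_eq_coe_finsetCard, h1] at this
  have hB : ∀ S ∈ A, ∀ Y ⊆ S, M.Indep ↑Y → Y.card + 1 = k → M.closure ↑Y = ↑S := by
    intro S hS Y hY hi hc
    obtain ⟨h1, h2⟩ := hA S hS
    rw [← h2]
    refine (M.isRkFinite_of_finite (Set.toFinite _)).closure_eq_closure_of_subset_of_eRk_ge_eRk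
      (coe_subset.2 hY) ?_
    rw [hi.eRk_eq_encard, Set.encard_coe_eq_coe_finsetCard]
    rw [← hc, Nat.cast_add_one] at h1
    exact Order.le_of_lt_add_one h1
  have hC : ∀ S ∈ A, ∀ x, U x → π x ∈ (S.filter U).image π → x ∈ S := by
    intro S hS x hx hm
    obtain ⟨y, hy, e⟩ := mem_image.1 hm
    have h1 : x ∈ M.closure {y} := by
      rw [(hπ y x).1 e]; exact M.mem_closure_self x (hN x hx).mem_ground
    have h2 := M.closure_subset_closure (Set.singleton_subset_iff.2
      (mem_coe.2 (mem_filter.1 hy).1)) h1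
    rwa [(hA S hS).2] at h2
  refine ⟨π, A.card, fun i => ((A.equivFin.symm i).1.filter U).image π, fun _ => k - 1,
    fun i j hij => ?_,
    fun X hX hXU => ⟨fun hi => ⟨hinj X hXU hi, fun i => ?_⟩, fun ⟨h1, h2⟩ => ?_⟩⟩
  · by_contra hcon
    beta_reduce at hcon
    obtain ⟨Z, hZ, hc⟩ := exists_subset_card_eq
      (s := ((A.equivFin.symm i).1.filter U).image π ∩ ((A.equivFin.symm j).1.filter U).image π)
      (n := k - 1) (by omega)
    obtain ⟨Y, hY, hYi, rfl⟩ := Finset.exists_subset_injOn_image_eq_of_surjOn (f := π)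
      (↑((A.equivFin.symm i).1.filter U)) Z (by
        intro z hz
        have := (mem_inter.1 (hZ hz)).1
        rwa [← coe_image])
    have hYU : ∀ x ∈ Y, U x := fun x hx => (mem_filter.1 (hY hx)).2
    rw [card_image_of_injOn hYi] at hc
    have hi := hpair Y hYU hYi (by omega)
    have e1 := hB _ (A.equivFin.symm i).2 Y (fun x hx => (mem_filter.1 (hY hx)).1) hi (by omega)
    have e2 := hB _ (A.equivFin.symm j).2 Y (fun x hx => hC _ (A.equivFin.symm j).2 x (hYU x hx)
      (mem_inter.1 (hZ (mem_image_of_mem π hx))).2) hi (by omega)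
    exact hij (A.equivFin.symm.injective (Subtype.ext (coe_injective (e1.symm.trans e2))))
  · have h1 := (hA _ (A.equivFin.symm i).2).1
    have h2 := (M.eRk_mono (coe_subset.2
      (inter_subset_right (s₁ := X) (s₂ := (A.equivFin.symm i).1)))).trans_lt h1
    rw [(hi.subset (coe_subset.2 inter_subset_left)).eRk_eq_encard,
      Set.encard_coe_eq_coe_finsetCard] at h2
    have h3 : (X ∩ (A.equivFin.symm i).1).card < k := by exact_mod_cast h2
    have h4 : X.image π ∩ ((A.equivFin.symm i).1.filter U).image π ⊆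
        (X ∩ (A.equivFin.symm i).1).image π := fun z hz => by
      obtain ⟨x, hx, rfl⟩ := mem_image.1 (mem_inter.1 hz).1
      exact mem_image_of_mem π (mem_inter.2
        ⟨hx, hC _ (A.equivFin.symm i).2 x (hXU x hx) (mem_inter.1 hz).2⟩)
    have h5 := (card_le_card h4).trans card_image_le
    beta_reduce
    omega
  · by_contra hcon
    have hE : (↑X : Set (Fin n)) ⊆ M.E := fun x hx => (hN x (hXU x hx)).mem_ground
    have hc : X.card = k := le_antisymm hX (not_lt.1 fun hlt => hcon (hpair X hXU h1 hlt))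
    have hm : (M.closure ↑X).toFinset ∈ A :=
      mem_filter.2 ⟨mem_univ _, X, hc, ⟨hcon, hE⟩, by simp⟩
    have h3 := h2 (A.equivFin ⟨_, hm⟩)
    beta_reduce at h3
    rw [Equiv.symm_apply_apply, inter_eq_left.2 (image_subset_image fun x hx => mem_filter.2
      ⟨by simpa using M.subset_closure _ hE hx, hXU x hx⟩), card_image_of_injOn h1] at h3
    omega

/-- Elementary split matroids of rank at least `k` satisfy the hypothesis of the hand-in on
every subset `U` of the ground set. -/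
theorem of_split {n k r q : ℕ} (hk : k ≤ r) (M : Matroid (Fin n)) (H : Fin q → Finset (Fin n))
    (ρ : Fin q → ℕ) (h1 : ∀ i j, i ≠ j → (H i ∩ H j).card + r ≤ ρ i + ρ j)
    (h2 : ∀ X : Finset (Fin n), M.Indep ↑X ↔
      (↑X : Set (Fin n)) ⊆ M.E ∧ X.card ≤ r ∧ ∀ i, (X ∩ H i).card ≤ ρ i)
    (U : Fin n → Prop) (hU : ∀ x, U x → x ∈ M.E) :
    ∃ (π : Fin n → ℕ) (q : ℕ) (H : Fin q → Finset ℕ) (ρ : Fin q → ℕ),
      (∀ i j, i ≠ j → (H i ∩ H j).card + k ≤ ρ i + ρ j) ∧
      ∀ X : Finset (Fin n), X.card ≤ k → (∀ x ∈ X, U x) →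
        (M.Indep ↑X ↔ Set.InjOn π ↑X ∧ ∀ i, (X.image π ∩ H i).card ≤ ρ i) := by
  have e : ∀ X Y : Finset (Fin n), (X.image Fin.val ∩ Y.image Fin.val).card = (X ∩ Y).card :=
    fun X Y => by
      rw [← image_inter _ _ Fin.val_injective, card_image_of_injective _ Fin.val_injective]
  refine ⟨Fin.val, q, fun i => (H i).image Fin.val, ρ, fun i j hij => ?_, fun X hX hXU => ?_⟩
  · have := h1 i j hij
    beta_reduce
    rw [e]
    omega
  · simp only [e]
    exact (h2 X).trans ⟨fun h => ⟨Fin.val_injective.injOn, h.2.2⟩,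
      fun h => ⟨fun x hx => hU x (hXU x hx), hX.trans hk, h.2⟩⟩

end Pool.Agent.P.MP_5f88fa_co.Split
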